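import Mathlib

/-!
# Extending partial isomorphisms of finite modules

Let `R` be a ring such that every finite `R`-module is a direct sum of submodules generated by
`s` elements. Let `A`, `A'` be finite `R`-modules and `i : B → A`, `i' : B → A'` embeddings such
that all systems of linear equations in `s` variables with constants in `B` have equally many
solutions in `A` and in `A'`. Then there is an isomorphism `A ≃ A'` that carries `i` to `i'`.
The proof counts homomorphisms.
-/

set_option autoImplicit false

namespace Pool.Agent.Helper950.WL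

variable {R : Type} [Ring R]
variable {A A' B C : Type} [AddCommGroup A] [Module R A] [AddCommGroup A'] [Module R A']
  [AddCommGroup B] [Module R B] [AddCommGroup C] [Module R C]

/-- The `R`-module `M` is the direct sum of finitely many submodules generated by `s` elements. -/
def SumOfSmall (s : ℕ) (R M : Type) [Ring R] [AddCommGroup M] [Module R M] : Prop :=
  ∃ (n : ℕ) (c : Fin n → Fin s → M),
    DirectSum.IsInternal fun i => Submodule.span R (Set.range (c i))

/-- Every finite `R`-module is a direct sum of submodules generated by `s` elements. -/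
def Small (s : ℕ) (R : Type) [Ring R] : Prop :=
  ∀ (M : Type) [AddCommGroup M] [Module R M] [Finite M], SumOfSmall s R M

/-- The number of extensions of `i` along `j`. -/
noncomputable def extCard (R : Type) [Ring R] {A B C : Type} [AddCommGroup A] [Module R A]
    [AddCommGroup B] [Module R B] [AddCommGroup C] [Module R C]
    (j : B →ₗ[R] C) (i : B →ₗ[R] A) : ℕ := Nat.card {f : C →ₗ[R] A // f ∘ₗ j = i}

/-- The number of extensions of `i` along `j` with the given kernel. -/
noncomputable def kerCard (R : Type) [Ring R] {A B C : Type} [AddCommGroup A] [Module R A]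
    [AddCommGroup B] [Module R B] [AddCommGroup C] [Module R C]
    (j : B →ₗ[R] C) (i : B →ₗ[R] A) (N : Submodule R C) : ℕ :=
  Nat.card {f : C →ₗ[R] A // f ∘ₗ j = i ∧ LinearMap.ker f = N}

/-- Linear combinations of a family. -/
def comb (R : Type) [Ring R] {M : Type} [AddCommGroup M] [Module R M] {s : ℕ} (c : Fin s → M) :
    (Fin s → R) →ₗ[R] M where
  toFun r := ∑ l, r l • c l
  map_add' r r' := by simp [add_smul, Finset.sum_add_distrib]
  map_smul' a r := by simp [Finset.smul_sum, mul_smul]

theorem comb_mem_span {M : Type} [AddCommGroup M] [Module R M] {s : ℕ} (c : Fin s → M)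
    (r : Fin s → R) : comb R c r ∈ Submodule.span R (Set.range c) := by
  show ∑ l, r l • c l ∈ Submodule.span R (Set.range c)
  exact Submodule.sum_mem _ fun l _ => Submodule.smul_mem _ _
    (Submodule.subset_span (Set.mem_range_self l))

theorem extCard_formula {s : ℕ} (hR : Small s R) [Finite C] (j : B →ₗ[R] C)
    (hj : Function.Injective j) :
    ∃ (n : ℕ) (I : Fin n → Submodule R (Fin s → R)) (b : ∀ m, I m →ₗ[R] B),
      ∀ (A : Type) [AddCommGroup A] [Module R A] (i : B →ₗ[R] A),
        Nonempty ({f : C →ₗ[R] A // f ∘ₗ j = i} ≃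
          ∀ m : Fin n, {v : Fin s → A // ∀ r : I m, comb R v r = i (b m r)}) := by
  classical
  have hfQ : Finite (C ⧸ LinearMap.range j) :=
    Finite.of_surjective _ (Submodule.mkQ_surjective _)
  obtain ⟨n, cb, hcb⟩ := hR (C ⧸ LinearMap.range j)
  rw [DirectSum.isInternal_submodule_iff_iSupIndep_and_iSup_eq_top] at hcb
  obtain ⟨hind, htop⟩ := hcb
  choose c hc using fun m l => Submodule.mkQ_surjective (LinearMap.range j) (cb m l)
  let eB : B ≃ₗ[R] LinearMap.range j := LinearEquiv.ofInjective j hj
  let I : Fin n → Submodule R (Fin s → R) := fun m =>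
    Submodule.comap (comb R (c m)) (LinearMap.range j)
  let πI : ∀ m, I m →ₗ[R] LinearMap.range j := fun m => (comb R (c m)).restrict (fun x hx => hx)
  let β : ∀ m, I m →ₗ[R] B := fun m => eB.symm.toLinearMap ∘ₗ πI m
  have hβ : ∀ m (x : I m), j (β m x) = comb R (c m) x := by
    intro m x
    have h1 : eB (β m x) = πI m x := by simp [β]
    have h2 := congrArg Subtype.val h1
    simpa [eB, πI] using h2
  -- the submodule generated by `j` and the `c m l` is everything
  have hgen : ∀ D : Submodule R C, LinearMap.range j ≤ D → (∀ m l, c m l ∈ D) → D = ⊤ := by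
    intro D hD1 hD2
    have h1 : Submodule.map (LinearMap.range j).mkQ D = ⊤ := by
      rw [eq_top_iff, ← htop]
      apply iSup_le
      intro m
      rw [Submodule.span_le]
      rintro _ ⟨l, rfl⟩
      exact ⟨c m l, hD2 m l, hc m l⟩
    have h2 := Submodule.comap_map_mkQ (LinearMap.range j) D
    rw [h1, Submodule.comap_top] at h2
    rw [h2]
    exact (sup_eq_right.2 hD1).symm
  refine ⟨n, I, β, ?_⟩
  intro A _ _ i
  let Θ : {f : C →ₗ[R] A // f ∘ₗ j = i} →
      ∀ m : Fin n, {v : Fin s → A // ∀ r : I m, comb R v r = i (β m r)} := fun f m =>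
    ⟨fun l => f.1 (c m l), by
      intro r
      have h1 : comb R (fun l => f.1 (c m l)) r = f.1 (comb R (c m) r) := by
        simp [comb, map_sum]
      rw [h1, ← hβ]
      exact LinearMap.congr_fun f.2 _⟩
  refine ⟨Equiv.ofBijective Θ ⟨?_, ?_⟩⟩
  · intro f g hfg
    apply Subtype.ext
    have h1 : LinearMap.eqLocus f.1 g.1 = ⊤ := by
      apply hgen
      · rintro _ ⟨b, rfl⟩
        show f.1 (j b) = g.1 (j b)
        rw [← LinearMap.comp_apply, ← LinearMap.comp_apply, f.2, g.2]
      · intro m l
        have := congrArg Subtype.val (congrFun hfg m)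
        exact congrFun this l
    exact LinearMap.eqLocus_eq_top.1 h1
  · intro v
    let π : (B × (Fin n → Fin s → R)) →ₗ[R] C :=
      LinearMap.coprod j (∑ m, comb R (c m) ∘ₗ LinearMap.proj m)
    let g : (B × (Fin n → Fin s → R)) →ₗ[R] A :=
      LinearMap.coprod i (∑ m, comb R (v m).1 ∘ₗ LinearMap.proj m)
    have hπe : ∀ b r, π (b, r) = j b + ∑ m, comb R (c m) (r m) := by
      intro b r
      simp [π]
    have hge : ∀ b r, g (b, r) = i b + ∑ m, comb R (v m).1 (r m) := by
      intro b r
      simp [g]
    have hπ : Function.Surjective π := by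
      rw [← LinearMap.range_eq_top]
      apply hgen
      · rintro _ ⟨b, rfl⟩
        exact ⟨(b, 0), by rw [hπe]; simp⟩
      · intro m l
        refine ⟨(0, Pi.single m (Pi.single l 1)), ?_⟩
        rw [hπe, map_zero, zero_add, Finset.sum_eq_single m]
        · rw [Pi.single_eq_same]
          show ∑ l', (Pi.single l (1 : R) : Fin s → R) l' • c m l' = _
          rw [Finset.sum_eq_single l]
          · simp
          · intro b _ hb
            rw [Pi.single_eq_of_ne hb, zero_smul]
          · intro h; exact (h (Finset.mem_univ _)).elim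
        · intro m' _ hm'
          rw [Pi.single_eq_of_ne hm', map_zero]
        · intro h; exact (h (Finset.mem_univ _)).elim
    have hker : LinearMap.ker π ≤ LinearMap.ker g := by
      rintro ⟨b, r⟩ hx
      rw [LinearMap.mem_ker, hπe] at hx
      rw [LinearMap.mem_ker, hge]
      have hz : ∀ m, comb R (cb m) (r m) = 0 := by
        have h1 : ∑ m, comb R (cb m) (r m) = 0 := by
          have h2 := congrArg (LinearMap.range j).mkQ hx
          rw [map_add, map_sum, map_zero] at h2
          have h3 : (LinearMap.range j).mkQ (j b) = 0 := by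
            rw [Submodule.mkQ_apply, Submodule.Quotient.mk_eq_zero]
            exact ⟨b, rfl⟩
          rw [h3, zero_add] at h2
          rw [← h2]
          apply Finset.sum_congr rfl
          intro m _
          simp only [comb, LinearMap.coe_mk, AddHom.coe_mk, map_sum, map_smul, hc]
        intro m
        exact (iSupIndep_iff_finsetSum_eq_zero_imp_eq_zero _).1 hind Finset.univ
          (fun m => comb R (cb m) (r m)) (fun m _ => comb_mem_span _ _) h1 m (Finset.mem_univ m)
      have hmem : ∀ m, r m ∈ I m := by
        intro m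
        show comb R (c m) (r m) ∈ LinearMap.range j
        rw [← Submodule.Quotient.mk_eq_zero, ← Submodule.mkQ_apply]
        rw [← hz m]
        simp only [comb, LinearMap.coe_mk, AddHom.coe_mk, map_sum, map_smul, hc]
      have h1 : b + ∑ m, β m ⟨r m, hmem m⟩ = 0 := by
        apply hj
        rw [map_add, map_sum, map_zero, ← hx]
        congr 1
        apply Finset.sum_congr rfl
        intro m _
        exact hβ m ⟨r m, hmem m⟩
      have h2 : i b + ∑ m, i (β m ⟨r m, hmem m⟩) = 0 := by
        rw [← map_sum, ← map_add, h1, map_zero]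
      rw [← h2]
      congr 1
      apply Finset.sum_congr rfl
      intro m _
      exact (v m).2 ⟨r m, hmem m⟩
    let f : C →ₗ[R] A := (LinearMap.ker π).liftQ g hker ∘ₗ
      (π.quotKerEquivOfSurjective hπ).symm.toLinearMap
    have hf : ∀ x, f (π x) = g x := by
      intro x
      simp only [f, LinearMap.comp_apply, LinearEquiv.coe_coe]
      rw [LinearMap.quotKerEquivOfSurjective_symm_apply]
      exact Submodule.liftQ_apply _ _ _
    refine ⟨⟨f, ?_⟩, ?_⟩
    · ext b
      have h1 := hf (b, 0)
      rw [hπe, hge] at h1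
      simpa using h1
    · funext m
      apply Subtype.ext
      funext l
      simp only [Θ]
      have h1 := hf (0, Pi.single m (Pi.single l 1))
      have h2 : ∀ (D : Type) [AddCommGroup D] [Module R D] (u : Fin n → Fin s → D),
          ∑ m', comb R (u m') ((Pi.single m (Pi.single l 1) : Fin n → Fin s → R) m') = u m l := by
        intro D _ _ u
        rw [Finset.sum_eq_single m]
        · rw [Pi.single_eq_same]
          show ∑ l', (Pi.single l (1 : R) : Fin s → R) l' • u m l' = _
          rw [Finset.sum_eq_single l]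
          · simp
          · intro b _ hb
            rw [Pi.single_eq_of_ne hb, zero_smul]
          · intro h; exact (h (Finset.mem_univ _)).elim
        · intro m' _ hm'
          rw [Pi.single_eq_of_ne hm', map_zero]
        · intro h; exact (h (Finset.mem_univ _)).elim
      rw [hπe, hge, h2 C c, h2 A (fun m => (v m).1)] at h1
      simpa using h1

theorem extCard_eq {s : ℕ} (hR : Small s R) [Finite C] (j : B →ₗ[R] C)
    (hj : Function.Injective j) (i : B →ₗ[R] A) (i' : B →ₗ[R] A')
    (h : ∀ (I : Submodule R (Fin s → R)) (b : I →ₗ[R] B),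
      Nat.card {v : Fin s → A // ∀ r : I, comb R v r = i (b r)} =
      Nat.card {v : Fin s → A' // ∀ r : I, comb R v r = i' (b r)}) :
    extCard R j i = extCard R j i' := by
  classical
  obtain ⟨n, I, b, hf⟩ := extCard_formula hR j hj
  obtain ⟨e⟩ := hf A i
  obtain ⟨e'⟩ := hf A' i'
  unfold extCard
  rw [Nat.card_congr e, Nat.card_congr e', Nat.card_pi, Nat.card_pi]
  exact Finset.prod_congr rfl fun m _ => h (I m) (b m)

theorem kerCard_eq_quot (j : B →ₗ[R] C) (i : B →ₗ[R] A) (N : Submodule R C) :
    kerCard R j i N = kerCard R (N.mkQ ∘ₗ j) i ⊥ := by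
  unfold kerCard
  symm
  let Θ : {g : (C ⧸ N) →ₗ[R] A // g ∘ₗ (N.mkQ ∘ₗ j) = i ∧ LinearMap.ker g = ⊥} →
      {f : C →ₗ[R] A // f ∘ₗ j = i ∧ LinearMap.ker f = N} := fun g =>
    ⟨g.1 ∘ₗ N.mkQ, by rw [LinearMap.comp_assoc]; exact g.2.1, by
      rw [LinearMap.ker_comp, g.2.2, Submodule.comap_bot, Submodule.ker_mkQ]⟩
  apply Nat.card_congr
  refine Equiv.ofBijective Θ ⟨?_, ?_⟩
  · intro g g' h
    apply Subtype.ext
    have h1 : g.1 ∘ₗ N.mkQ = g'.1 ∘ₗ N.mkQ := congrArg Subtype.val h
    ext c
    exact LinearMap.congr_fun h1 c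
  · intro f
    refine ⟨⟨N.liftQ f.1 f.2.2.ge, ?_, ?_⟩, ?_⟩
    · rw [← LinearMap.comp_assoc, Submodule.liftQ_mkQ]
      exact f.2.1
    · exact Submodule.ker_liftQ_eq_bot' _ _ f.2.2.symm
    · apply Subtype.ext
      exact Submodule.liftQ_mkQ _ _ _

theorem extCard_eq_sum [Finite C] [Finite A] [Fintype (Submodule R C)] (j : B →ₗ[R] C)
    (i : B →ₗ[R] A) :
    extCard R j i = ∑ N : Submodule R C, kerCard R j i N := by
  classical
  have hfin : Finite (C →ₗ[R] A) :=
    Finite.of_injective (fun f : C →ₗ[R] A => (f : C → A)) DFunLike.coe_injective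
  unfold extCard kerCard
  rw [← Nat.card_sigma]
  apply Nat.card_congr
  refine ⟨fun f => ⟨LinearMap.ker f.1, f.1, f.2, rfl⟩, fun g => ⟨g.2.1, g.2.2.1⟩, ?_, ?_⟩
  · intro f
    rfl
  · rintro ⟨N, f, hf, rfl⟩
    rfl

theorem kerCard_bot_eq {s : ℕ} (hR : Small s R) (i : B →ₗ[R] A) (i' : B →ₗ[R] A')
    [Finite A] [Finite A']
    (hi : Function.Injective i) (hi' : Function.Injective i')
    (h : ∀ (I : Submodule R (Fin s → R)) (b : I →ₗ[R] B),
      Nat.card {v : Fin s → A // ∀ r : I, comb R v r = i (b r)} =
      Nat.card {v : Fin s → A' // ∀ r : I, comb R v r = i' (b r)}) :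
    ∀ (n : ℕ) (C : Type) [AddCommGroup C] [Module R C] [Finite C] (j : B →ₗ[R] C),
      Function.Injective j → Nat.card C = n → kerCard R j i ⊥ = kerCard R j i' ⊥ := by
  classical
  intro n
  induction n using Nat.strong_induction_on with
  | _ n ih =>
    intro C _ _ _ j hj hn
    have hfin : Finite (Submodule R C) :=
      Finite.of_injective (fun N : Submodule R C => (N : Set C)) SetLike.coe_injective
    have : Fintype (Submodule R C) := Fintype.ofFinite _
    have h1 := extCard_eq hR j hj i i' h
    rw [extCard_eq_sum, extCard_eq_sum, ← Finset.add_sum_erase _ _ (Finset.mem_univ ⊥),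
      ← Finset.add_sum_erase (Finset.univ) (fun N => kerCard R j i' N) (Finset.mem_univ ⊥)] at h1
    have h2 : ∑ N ∈ Finset.univ.erase (⊥ : Submodule R C), kerCard R j i N =
        ∑ N ∈ Finset.univ.erase (⊥ : Submodule R C), kerCard R j i' N := by
      apply Finset.sum_congr rfl
      intro N hN
      have hN' : N ≠ ⊥ := (Finset.mem_erase.1 hN).1
      by_cases hjN : Function.Injective (N.mkQ ∘ₗ j)
      · rw [kerCard_eq_quot j i N, kerCard_eq_quot j i' N]
        have hfq : Finite (C ⧸ N) := Finite.of_surjective _ (Submodule.mkQ_surjective N)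
        have hlt : Nat.card (C ⧸ N) < n := by
          have e := Submodule.card_eq_card_quotient_mul_card N
          obtain ⟨x, hx, hx0⟩ := Submodule.exists_mem_ne_zero_of_ne_bot hN'
          have h3 : 1 < Nat.card N := by
            have : Nontrivial N := ⟨⟨⟨x, hx⟩, 0, fun hh => hx0 (congrArg Subtype.val hh)⟩⟩
            exact Finite.one_lt_card
          have h4 : 0 < Nat.card (C ⧸ N) := Nat.card_pos
          rw [← hn, e]
          nlinarith
        exact ih _ hlt (C ⧸ N) (N.mkQ ∘ₗ j) hjN rfl
      · have hempty : ∀ (D : Type) [AddCommGroup D] [Module R D] (u : B →ₗ[R] D),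
            Function.Injective u → kerCard R j u N = 0 := by
          intro D _ _ u hu
          unfold kerCard
          have : IsEmpty {f : C →ₗ[R] D // f ∘ₗ j = u ∧ LinearMap.ker f = N} := by
            refine ⟨fun f => hjN ?_⟩
            rw [← LinearMap.ker_eq_bot, LinearMap.ker_eq_bot']
            intro b hb
            have hb' : j b ∈ N := by
              have : N.mkQ (j b) = 0 := hb
              rwa [Submodule.mkQ_apply, Submodule.Quotient.mk_eq_zero] at this
            have : f.1 (j b) = 0 := by
              rw [← f.2.2] at hb'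
              exact hb'
            have h5 : u b = 0 := by
              rw [← f.2.1]
              exact this
            exact hu (by rw [h5, map_zero])
          exact Nat.card_of_isEmpty
        rw [hempty A i hi, hempty A' i' hi']
    omega

/-- The extension theorem. -/
theorem exists_equiv_extend {s : ℕ} (hR : Small s R) (i : B →ₗ[R] A) (i' : B →ₗ[R] A')
    [Finite A] [Finite A'] (hcard : Nat.card A = Nat.card A')
    (hi : Function.Injective i) (hi' : Function.Injective i')
    (h : ∀ (I : Submodule R (Fin s → R)) (b : I →ₗ[R] B),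
      Nat.card {v : Fin s → A // ∀ r : I, comb R v r = i (b r)} =
      Nat.card {v : Fin s → A' // ∀ r : I, comb R v r = i' (b r)}) :
    ∃ ψ : A ≃ₗ[R] A', ∀ b, ψ (i b) = i' b := by
  classical
  have h1 := kerCard_bot_eq hR i i' hi hi' h _ A i hi rfl
  have hfin : Finite (A →ₗ[R] A) :=
    Finite.of_injective (fun f : A →ₗ[R] A => (f : A → A)) DFunLike.coe_injective
  have h2 : 0 < kerCard R i i ⊥ := by
    unfold kerCard
    have : Nonempty {f : A →ₗ[R] A // f ∘ₗ i = i ∧ LinearMap.ker f = ⊥} :=
      ⟨⟨LinearMap.id, by simp, by simp⟩⟩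
    exact Nat.card_pos
  rw [h1] at h2
  unfold kerCard at h2
  have h3 : Nonempty {f : A →ₗ[R] A' // f ∘ₗ i = i' ∧ LinearMap.ker f = ⊥} := by
    by_contra hcon
    rw [not_nonempty_iff] at hcon
    rw [Nat.card_of_isEmpty] at h2
    exact lt_irrefl _ h2
  obtain ⟨f, hf1, hf2⟩ := h3
  have hinj : Function.Injective f := LinearMap.ker_eq_bot.1 hf2
  have hbij : Function.Bijective f := by
    have := Fintype.ofFinite A
    have := Fintype.ofFinite A'
    rw [Fintype.bijective_iff_injective_and_card]
    exact ⟨hinj, by rwa [Nat.card_eq_fintype_card, Nat.card_eq_fintype_card] at hcard⟩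
  refine ⟨LinearEquiv.ofBijective f hbij, ?_⟩
  intro b
  exact LinearMap.congr_fun hf1 b

end Pool.Agent.Helper950.WL
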