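import Mathlib

/-!
# Conjugation terms and a definable abelian subgroup
-/

set_option autoImplicit false

namespace Pool.Agent.Helper950.WL

section Side

variable {Γ K : Type} [Group Γ] [Group K] (π : K →* Γ) {s : ℕ} (c : Fin s → Γ)

/-- The value of a term: a product of conjugates. -/
def ev (τ : List K) (z : Γ) : Γ := (τ.map fun g => π g * z * (π g)⁻¹).prod

@[simp] theorem ev_nil (z : Γ) : ev π [] z = 1 := rfl

theorem ev_cons (g : K) (τ : List K) (z : Γ) :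
    ev π (g :: τ) z = π g * z * (π g)⁻¹ * ev π τ z := by
  simp [ev]

theorem ev_append (τ σ : List K) (z : Γ) : ev π (τ ++ σ) z = ev π τ z * ev π σ z := by
  simp [ev]

theorem ev_single (g : K) (z : Γ) : ev π [g] z = π g * z * (π g)⁻¹ := by
  simp [ev]

theorem ev_one (τ : List K) : ev π τ 1 = 1 := by
  induction τ with
  | nil => rfl
  | cons g τ ih => rw [ev_cons, ih]; simp

/-- The composite of two terms. -/
def tmul (τ σ : List K) : List K := τ.flatMap fun g => σ.map fun h => g * h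

theorem ev_mulLeft (g : K) (σ : List K) (z : Γ) :
    ev π (σ.map fun h => g * h) z = π g * ev π σ z * (π g)⁻¹ := by
  induction σ with
  | nil => simp
  | cons h σ ih =>
    rw [List.map_cons, ev_cons, ev_cons, ih, map_mul]
    group

theorem ev_tmul (τ σ : List K) (z : Γ) : ev π (tmul τ σ) z = ev π τ (ev π σ z) := by
  induction τ with
  | nil => rfl
  | cons g τ ih =>
    have : tmul (g :: τ) σ = (σ.map fun h => g * h) ++ tmul τ σ := by
      simp [tmul]
    rw [this, ev_append, ev_mulLeft, ih, ev_cons]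

theorem ev_mulRight (g : K) (τ : List K) (z : Γ) :
    ev π (τ.map fun h => h * g) z = ev π τ (π g * z * (π g)⁻¹) := by
  induction τ with
  | nil => rfl
  | cons h τ ih =>
    rw [List.map_cons, ev_cons, ev_cons, ih, map_mul]
    group

/-- The centralizer of the `K`-conjugates of the elements `c l`. -/
def Cen : Subgroup Γ := Subgroup.centralizer {y | ∃ (g : K) (l : Fin s), y = π g * c l * (π g)⁻¹}

theorem mem_Cen {x : Γ} : x ∈ Cen π c ↔
    ∀ (g : K) (l : Fin s), (π g * c l * (π g)⁻¹) * x = x * (π g * c l * (π g)⁻¹) := by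
  unfold Cen
  rw [Subgroup.mem_centralizer_iff]
  constructor
  · intro h g l
    exact h _ ⟨g, l, rfl⟩
  · rintro h _ ⟨g, l, rfl⟩
    exact h g l

theorem Cen_conj {x : Γ} (hx : x ∈ Cen π c) (g : K) : π g * x * (π g)⁻¹ ∈ Cen π c := by
  rw [mem_Cen] at hx ⊢
  intro h l
  have h1 := hx (g⁻¹ * h) l
  have h2 : π h * c l * (π h)⁻¹ =
      π g * (π (g⁻¹ * h) * c l * (π (g⁻¹ * h))⁻¹) * (π g)⁻¹ := by
    rw [map_mul, map_inv]; group
  rw [h2]
  calc π g * (π (g⁻¹ * h) * c l * (π (g⁻¹ * h))⁻¹) * (π g)⁻¹ * (π g * x * (π g)⁻¹)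
      = π g * ((π (g⁻¹ * h) * c l * (π (g⁻¹ * h))⁻¹) * x) * (π g)⁻¹ := by group
    _ = π g * (x * (π (g⁻¹ * h) * c l * (π (g⁻¹ * h))⁻¹)) * (π g)⁻¹ := by rw [h1]
    _ = _ := by group

/-- The centre of `Cen`. -/
def Zp : Subgroup Γ := Cen π c ⊓ Subgroup.centralizer (Cen π c : Set Γ)

theorem mem_Zp {z : Γ} : z ∈ Zp π c ↔ z ∈ Cen π c ∧ ∀ x ∈ Cen π c, x * z = z * x := by
  unfold Zp
  rw [Subgroup.mem_inf, Subgroup.mem_centralizer_iff]
  rfl

theorem Zp_comm {z w : Γ} (hz : z ∈ Zp π c) (hw : w ∈ Zp π c) : z * w = w * z :=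
  ((mem_Zp π c).1 hw).2 z ((mem_Zp π c).1 hz).1

theorem Zp_conj {z : Γ} (hz : z ∈ Zp π c) (g : K) : π g * z * (π g)⁻¹ ∈ Zp π c := by
  rw [mem_Zp] at hz ⊢
  refine ⟨Cen_conj π c hz.1 g, fun x hx => ?_⟩
  have h1 := Cen_conj π c hx g⁻¹
  rw [map_inv, inv_inv] at h1
  have h2 := hz.2 _ h1
  calc x * (π g * z * (π g)⁻¹) = π g * (((π g)⁻¹ * x * π g) * z) * (π g)⁻¹ := by group
    _ = π g * (z * ((π g)⁻¹ * x * π g)) * (π g)⁻¹ := by rw [h2]
    _ = _ := by group

theorem ev_mem_Zp {z : Γ} (hz : z ∈ Zp π c) (τ : List K) : ev π τ z ∈ Zp π c := by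
  induction τ with
  | nil => exact one_mem _
  | cons g τ ih => rw [ev_cons]; exact mul_mem (Zp_conj π c hz g) ih

theorem ev_mul {z w : Γ} (hz : z ∈ Zp π c) (hw : w ∈ Zp π c) (τ : List K) :
    ev π τ (z * w) = ev π τ z * ev π τ w := by
  induction τ with
  | nil => simp
  | cons g τ ih =>
    rw [ev_cons, ev_cons, ev_cons, ih]
    have h1 := Zp_comm π c (Zp_conj π c hw g) (ev_mem_Zp π c hz τ)
    calc π g * (z * w) * (π g)⁻¹ * (ev π τ z * ev π τ w)
        = π g * z * (π g)⁻¹ * ((π g * w * (π g)⁻¹) * ev π τ z) * ev π τ w := by group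
      _ = π g * z * (π g)⁻¹ * (ev π τ z * (π g * w * (π g)⁻¹)) * ev π τ w := by rw [h1]
      _ = _ := by group

theorem ev_inv {z : Γ} (hz : z ∈ Zp π c) (τ : List K) : ev π τ z⁻¹ = (ev π τ z)⁻¹ := by
  have h := ev_mul π c hz (inv_mem hz) τ
  rw [mul_inv_cancel, ev_one] at h
  exact (inv_eq_of_mul_eq_one_right h.symm).symm

/-- The elements of `Zp` that satisfy the linear relations `E`. -/
def Ap (E : List K → List K → Prop) : Subgroup Γ where
  carrier := {z | z ∈ Zp π c ∧ ∀ τ σ, E τ σ → ev π τ z = ev π σ z}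
  mul_mem' := by
    rintro z w ⟨hz, hz'⟩ ⟨hw, hw'⟩
    refine ⟨mul_mem hz hw, fun τ σ h => ?_⟩
    rw [ev_mul π c hz hw, ev_mul π c hz hw, hz' τ σ h, hw' τ σ h]
  one_mem' := ⟨one_mem _, fun τ σ _ => by rw [ev_one, ev_one]⟩
  inv_mem' := by
    rintro z ⟨hz, hz'⟩
    refine ⟨inv_mem hz, fun τ σ h => ?_⟩
    rw [ev_inv π c hz, ev_inv π c hz, hz' τ σ h]

theorem mem_Ap {E : List K → List K → Prop} {z : Γ} : z ∈ Ap π c E ↔
    z ∈ Zp π c ∧ ∀ τ σ, E τ σ → ev π τ z = ev π σ z := Iff.rfl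

instance ApComm (E : List K → List K → Prop) : CommGroup (Ap π c E) :=
  { (inferInstance : Group (Ap π c E)) with
    mul_comm := fun a b => Subtype.ext (Zp_comm π c a.2.1 b.2.1) }

end Side

/-- The properties of the relations and of the terms that give a module structure. -/
structure RelOK {K R : Type} [Group K] [Ring R] (E : List K → List K → Prop)
    (T : R → List K) : Prop where
  right : ∀ τ σ g, E τ σ → E (τ.map fun h => h * g) (σ.map fun h => h * g)
  zero : E (T 0) []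
  one : E (T 1) [1]
  add : ∀ r r', E (T (r + r')) (T r ++ T r')
  mul : ∀ r r', E (T (r * r')) (tmul (T r) (T r'))

section Side2

variable {Γ K R : Type} [Group Γ] [Group K] [Ring R] (π : K →* Γ) {s : ℕ} (c : Fin s → Γ)
variable {E : List K → List K → Prop} {T : R → List K} (hE : RelOK E T)

include hE

theorem Ap_conj {z : Γ} (hz : z ∈ Ap π c E) (g : K) : π g * z * (π g)⁻¹ ∈ Ap π c E := by
  refine ⟨Zp_conj π c hz.1 g, fun τ σ h => ?_⟩
  rw [← ev_mulRight, ← ev_mulRight]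
  exact hz.2 _ _ (hE.right τ σ g h)

theorem ev_mem_Ap {z : Γ} (hz : z ∈ Ap π c E) (τ : List K) : ev π τ z ∈ Ap π c E := by
  induction τ with
  | nil => exact one_mem _
  | cons g τ ih => rw [ev_cons]; exact mul_mem (Ap_conj π c hE hz g) ih

omit hE in
/-- The module structure of `Ap`. -/
@[reducible] def ApModule (hE : RelOK E T) : Module R (Additive (Ap π c E)) where
  smul r z := Additive.ofMul ⟨ev π (T r) (z.toMul : Γ), ev_mem_Ap π c hE z.toMul.2 (T r)⟩
  one_smul z := by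
    apply Additive.toMul.injective
    apply Subtype.ext
    show ev π (T 1) (z.toMul : Γ) = z.toMul
    rw [z.toMul.2.2 _ _ hE.one, ev_single]
    simp
  mul_smul r r' z := by
    apply Additive.toMul.injective
    apply Subtype.ext
    show ev π (T (r * r')) (z.toMul : Γ) = ev π (T r) (ev π (T r') (z.toMul : Γ))
    rw [z.toMul.2.2 _ _ (hE.mul r r'), ev_tmul]
  smul_zero r := by
    apply Additive.toMul.injective
    apply Subtype.ext
    show ev π (T r) 1 = 1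
    exact ev_one π _
  smul_add r z w := by
    apply Additive.toMul.injective
    apply Subtype.ext
    show ev π (T r) ((z.toMul : Γ) * (w.toMul : Γ)) = ev π (T r) (z.toMul : Γ) * ev π (T r) (w.toMul : Γ)
    exact ev_mul π c z.toMul.2.1 w.toMul.2.1 _
  add_smul r r' z := by
    apply Additive.toMul.injective
    apply Subtype.ext
    show ev π (T (r + r')) (z.toMul : Γ) = ev π (T r) (z.toMul : Γ) * ev π (T r') (z.toMul : Γ)
    rw [z.toMul.2.2 _ _ (hE.add r r'), ev_append]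
  zero_smul z := by
    apply Additive.toMul.injective
    apply Subtype.ext
    show ev π (T 0) (z.toMul : Γ) = 1
    rw [z.toMul.2.2 _ _ hE.zero, ev_nil]

end Side2

/-- Gluing an isomorphism of normal subgroups with an isomorphism of complementary subgroups. -/
theorem assemble {G H : Type} [Group G] [Group H] (K : Subgroup (G × H)) (A : Subgroup G)
    (A' : Subgroup H) (ψ : A ≃* A')
    (hK1 : ∀ p ∈ K, (p.1 ∈ A ↔ p.2 ∈ A'))
    (hK2 : ∀ p ∈ K, ∀ (h1 : p.1 ∈ A) (h2 : p.2 ∈ A'), ψ ⟨p.1, h1⟩ = ⟨p.2, h2⟩)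
    (hgen : ∀ g : G, ∃ a ∈ A, ∃ p ∈ K, g = a * p.1)
    (hgen' : ∀ h : H, ∃ a ∈ A', ∃ p ∈ K, h = a * p.2)
    (hconj : ∀ p ∈ K, ∀ a : A, ∃ b : A, (b : G) = p.1 * a * p.1⁻¹ ∧
      (ψ b : H) = p.2 * ψ a * p.2⁻¹) :
    Nonempty (G ≃* H) := by
  let M : G → H → Prop := fun g h => ∃ a : A, ∃ p ∈ K, g = a * p.1 ∧ h = ψ a * p.2
  have hfun : ∀ g g' h h', M g h → M g' h' → (g = g' ↔ h = h') := by
    rintro _ _ _ _ ⟨a, p, hp, rfl, rfl⟩ ⟨b, q, hq, rfl, rfl⟩
    have hr : q * p⁻¹ ∈ K := mul_mem hq (inv_mem hp)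
    constructor
    · intro h
      have h1 : (q * p⁻¹).1 = ((b⁻¹ * a : A) : G) := by
        simp only [Prod.fst_mul, Prod.fst_inv, Subgroup.coe_mul, Subgroup.coe_inv]
        rw [mul_inv_eq_iff_eq_mul, mul_assoc, h]
        group
      have h2 : (q * p⁻¹).1 ∈ A := by rw [h1]; exact (b⁻¹ * a).2
      have h3 := (hK1 _ hr).1 h2
      have h4 := congrArg Subtype.val (hK2 _ hr h2 h3)
      have h5 : (⟨(q * p⁻¹).1, h2⟩ : A) = b⁻¹ * a := Subtype.ext h1
      rw [h5, map_mul, map_inv] at h4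
      simp only [Prod.snd_mul, Prod.snd_inv, Subgroup.coe_mul, Subgroup.coe_inv] at h4
      calc (ψ a : H) * p.2 = ψ b * ((ψ b : H)⁻¹ * ψ a) * p.2 := by group
        _ = ψ b * (q.2 * p.2⁻¹) * p.2 := by rw [h4]
        _ = _ := by group
    · intro h
      have h1 : (q * p⁻¹).2 = (ψ (b⁻¹ * a) : H) := by
        simp only [Prod.snd_mul, Prod.snd_inv, map_mul, map_inv, Subgroup.coe_mul,
          Subgroup.coe_inv]
        rw [mul_inv_eq_iff_eq_mul, mul_assoc, h]
        group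
      have h2 : (q * p⁻¹).2 ∈ A' := by rw [h1]; exact (ψ (b⁻¹ * a)).2
      have h3 := (hK1 _ hr).2 h2
      have h4 := hK2 _ hr h3 h2
      have h5 : (⟨(q * p⁻¹).2, h2⟩ : A') = ψ (b⁻¹ * a) := Subtype.ext h1
      rw [h5] at h4
      have h6 := congrArg Subtype.val (ψ.injective h4)
      simp only [Prod.fst_mul, Prod.fst_inv, Subgroup.coe_mul, Subgroup.coe_inv] at h6
      calc (a : G) * p.1 = b * ((b : G)⁻¹ * a) * p.1 := by group
        _ = b * (q.1 * p.1⁻¹) * p.1 := by rw [h6]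
        _ = _ := by group
  have hmul : ∀ g g' h h', M g h → M g' h' → M (g * g') (h * h') := by
    rintro _ _ _ _ ⟨a, p, hp, rfl, rfl⟩ ⟨b, q, hq, rfl, rfl⟩
    obtain ⟨b', hb1, hb2⟩ := hconj p hp b
    refine ⟨a * b', p * q, mul_mem hp hq, ?_, ?_⟩
    · rw [Subgroup.coe_mul, hb1, Prod.fst_mul]; group
    · rw [map_mul, Subgroup.coe_mul, hb2, Prod.snd_mul]; group
  have hex : ∀ g, ∃ h, M g h := by
    intro g
    obtain ⟨a, ha, p, hp, rfl⟩ := hgen g
    exact ⟨ψ ⟨a, ha⟩ * p.2, ⟨a, ha⟩, p, hp, rfl, rfl⟩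
  choose f hf using hex
  let F : G →* H := MonoidHom.mk' f fun a b =>
    ((hfun _ _ _ _ (hf (a * b)) (hmul _ _ _ _ (hf a) (hf b))).1 rfl)
  refine ⟨MulEquiv.ofBijective F ⟨?_, ?_⟩⟩
  · intro a b hab
    exact (hfun _ _ _ _ (hf a) (hf b)).2 hab
  · intro h
    obtain ⟨a, ha, p, hp, rfl⟩ := hgen' h
    refine ⟨(ψ.symm ⟨a, ha⟩ : A) * p.1, ?_⟩
    have h1 : M ((ψ.symm ⟨a, ha⟩ : A) * p.1) (a * p.2) :=
      ⟨ψ.symm ⟨a, ha⟩, p, hp, rfl, by rw [MulEquiv.apply_symm_apply]⟩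
    exact (hfun _ _ _ _ (hf _) h1).1 rfl

end Pool.Agent.Helper950.WL
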