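import Mathlib
import Pool.Agent.Helper950.WL.Ext
import Pool.Agent.Helper950.WL.Side

/-!
# The pebble game on groups
-/

set_option autoImplicit false

namespace Pool.Agent.Helper950.WL

/-- Good positions of a bijective pebble game on two groups. -/
structure GGame (m : ℕ) {G H : Type} [Group G] [Group H] (P : List (G × H) → Prop) : Prop where
  ext : ∀ L, P L → L.length < m → ∃ φ : G ≃ H, ∀ x, P ((x, φ x) :: L)
  sub : ∀ L L', P L → (∀ p ∈ L', p ∈ L) → P L'
  eq : ∀ L, P L → ∀ p ∈ L, ∀ q ∈ L, (p.1 = q.1 ↔ p.2 = q.2)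
  mul : ∀ L, P L → L.length ≤ m → ∀ p ∈ L, ∀ q ∈ L, ∀ r ∈ L,
    (p.1 * q.1 = r.1 ↔ p.2 * q.2 = r.2)

/-- The subgroup of `G × H` generated by a position. -/
abbrev Cl {G H : Type} [Group G] [Group H] (B : List (G × H)) : Subgroup (G × H) :=
  Subgroup.closure {q | q ∈ B}

section

variable {G H : Type} [Group G] [Group H] {m : ℕ} {P : List (G × H) → Prop}

theorem GGame.one_iff (hG : GGame m P) {L : List (G × H)} (h : P L) (hL : L.length ≤ m)
    {p : G × H} (hp : p ∈ L) : p.1 = 1 ↔ p.2 = 1 := by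
  have := hG.mul L h hL p hp p hp p hp
  simpa using this

theorem GGame.closure_iff (hG : GGame m P) {B : List (G × H)} (hB : B.length + 3 ≤ m)
    {p : G × H} (hp : p ∈ Cl B) : ∀ z, P (z :: B) → (p.1 = z.1 ↔ p.2 = z.2) := by
  refine Subgroup.closure_induction (p := fun x _ => ∀ z, P (z :: B) → (x.1 = z.1 ↔ x.2 = z.2))
    ?_ ?_ ?_ ?_ hp
  · intro x hx z hz
    exact hG.eq _ hz x (List.mem_cons_of_mem _ hx) z List.mem_cons_self
  · intro z hz
    have h1 := hG.one_iff hz (by simp only [List.length_cons]; omega) List.mem_cons_self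
    constructor
    · intro h; exact (h1.1 h.symm).symm
    · intro h; exact (h1.2 h.symm).symm
  · intro x y _ _ ihx ihy z hz
    obtain ⟨φ, hφ⟩ := hG.ext _ hz (by simp only [List.length_cons]; omega)
    have hx : x.2 = φ x.1 := by
      refine (ihx (x.1, φ x.1) ?_).1 rfl
      exact hG.sub _ _ (hφ x.1) (by
        intro p hp
        rcases List.mem_cons.1 hp with rfl | hp
        · exact List.mem_cons_self
        · exact List.mem_cons_of_mem _ (List.mem_cons_of_mem _ hp))
    have hx' : P (x :: z :: B) := by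
      have := hφ x.1
      rw [← hx] at this
      exact this
    obtain ⟨φ', hφ'⟩ := hG.ext _ hx' (by simp only [List.length_cons]; omega)
    have hy : y.2 = φ' y.1 := by
      refine (ihy (y.1, φ' y.1) ?_).1 rfl
      exact hG.sub _ _ (hφ' y.1) (by
        intro p hp
        rcases List.mem_cons.1 hp with rfl | hp
        · exact List.mem_cons_self
        · exact List.mem_cons_of_mem _ (List.mem_cons_of_mem _ (List.mem_cons_of_mem _ hp)))
    have hy' : P (y :: x :: z :: B) := by
      have := hφ' y.1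
      rw [← hy] at this
      exact this
    exact hG.mul _ hy' (by simp only [List.length_cons]; omega) x (by simp) y (by simp) z (by simp)
  · intro x _ ihx z hz
    obtain ⟨φ, hφ⟩ := hG.ext _ hz (by simp only [List.length_cons]; omega)
    have hx : x.2 = φ x.1 := by
      refine (ihx (x.1, φ x.1) ?_).1 rfl
      exact hG.sub _ _ (hφ x.1) (by
        intro p hp
        rcases List.mem_cons.1 hp with rfl | hp
        · exact List.mem_cons_self
        · exact List.mem_cons_of_mem _ (List.mem_cons_of_mem _ hp))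
    have hx' : P (x :: z :: B) := by
      have := hφ x.1
      rw [← hx] at this
      exact this
    obtain ⟨φ', hφ'⟩ := hG.ext _ hx' (by simp only [List.length_cons]; omega)
    have h1 := hG.mul _ (hφ' (x.1 * z.1)) (by simp only [List.length_cons]; omega)
      x (by simp) z (by simp) (x.1 * z.1, φ' (x.1 * z.1)) (by simp)
    have h2 := hG.one_iff (hφ' (x.1 * z.1)) (by simp only [List.length_cons]; omega)
      (p := (x.1 * z.1, φ' (x.1 * z.1))) (by simp)
    have h3 : x.2 * z.2 = φ' (x.1 * z.1) := h1.1 rfl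
    simp only at h2
    rw [← h3] at h2
    show x.1⁻¹ = z.1 ↔ x.2⁻¹ = z.2
    rw [inv_eq_iff_mul_eq_one, inv_eq_iff_mul_eq_one]
    exact h2

theorem GGame.add (hG : GGame m P) {B : List (G × H)} (h : P B) (hB : B.length + 3 ≤ m)
    {p : G × H} (hp : p ∈ Cl B) : P (p :: B) := by
  obtain ⟨φ, hφ⟩ := hG.ext _ h (by omega)
  have h1 : p.2 = φ p.1 := (hG.closure_iff hB hp (p.1, φ p.1) (hφ p.1)).1 rfl
  have := hφ p.1
  rw [← h1] at this
  exact this

theorem GGame.closure_eq (hG : GGame m P) {B : List (G × H)} (h : P B) (hB : B.length + 3 ≤ m)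
    {p q : G × H} (hp : p ∈ Cl B) (hq : q ∈ Cl B) : p.1 = q.1 ↔ p.2 = q.2 :=
  hG.closure_iff hB hp q (hG.add h hB hq)

theorem Cl_mono {B B' : List (G × H)} (h : ∀ p ∈ B, p ∈ B') : Cl B ≤ Cl B' :=
  Subgroup.closure_mono h

theorem GGame.list (hG : GGame m P) (h0 : P []) (l : List G) (hl : l.length ≤ m) :
    ∃ B : List (G × H), B.map Prod.fst = l ∧ P B := by
  induction l with
  | nil => exact ⟨[], rfl, h0⟩
  | cons x l ih =>
    simp only [List.length_cons] at hl
    obtain ⟨L, hL, hP⟩ := ih (by omega)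
    have hlen : L.length = l.length := by rw [← hL, List.length_map]
    obtain ⟨φ, hφ⟩ := hG.ext _ hP (by omega)
    exact ⟨(x, φ x) :: L, by simp [hL], hφ x⟩

theorem GGame.tuple (hG : GGame m P) (n : ℕ) : ∀ (B : List (G × H)), P B →
    B.length + n ≤ m → ∃ Φ : (Fin n → G) ≃ (Fin n → H), ∀ v, ∃ L, P L ∧
      L.length ≤ B.length + n ∧ (∀ p ∈ B, p ∈ L) ∧ ∀ l, (v l, Φ v l) ∈ L := by
  induction n with
  | zero =>
    intro B hB _
    refine ⟨⟨fun _ => Fin.elim0, fun _ => Fin.elim0, ?_, ?_⟩, ?_⟩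
    · intro v; funext l; exact l.elim0
    · intro v; funext l; exact l.elim0
    · intro v
      exact ⟨B, hB, le_refl _, fun p hp => hp, fun l => l.elim0⟩
  | succ n ih =>
    intro B hB hn
    obtain ⟨φ, hφ⟩ := hG.ext _ hB (by omega)
    choose Φ hΦ using fun x => ih ((x, φ x) :: B) (hφ x) (by simp only [List.length_cons]; omega)
    let Ψ : (Fin (n + 1) → G) ≃ (Fin (n + 1) → H) :=
      ((Fin.consEquiv (fun _ => G)).symm.trans (Equiv.prodShear φ Φ)).trans
        (Fin.consEquiv (fun _ => H))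
    refine ⟨Ψ, ?_⟩
    intro v
    obtain ⟨L, hL1, hL2, hL3, hL4⟩ := hΦ (v 0) (fun l => v l.succ)
    have hΨ0 : Ψ v 0 = φ (v 0) := rfl
    have hΨs : ∀ l : Fin n, Ψ v l.succ = Φ (v 0) (fun l => v l.succ) l := fun l => rfl
    refine ⟨L, hL1, by simp only [List.length_cons] at hL2; omega,
      fun p hp => hL3 p (List.mem_cons_of_mem _ hp), ?_⟩
    intro l
    refine Fin.cases ?_ (fun l => ?_) l
    · rw [hΨ0]
      exact hL3 _ List.mem_cons_self
    · rw [hΨs]
      exact hL4 l

/-- The projections of a subgroup of `G × H`. -/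
abbrev pr1 (K : Subgroup (G × H)) : K →* G := (MonoidHom.fst G H).comp K.subtype

/-- The projections of a subgroup of `G × H`. -/
abbrev pr2 (K : Subgroup (G × H)) : K →* H := (MonoidHom.snd G H).comp K.subtype

theorem ev_pair (K : Subgroup (G × H)) (τ : List K) (z : G × H) :
    ev K.subtype τ z = (ev (pr1 K) τ z.1, ev (pr2 K) τ z.2) := by
  induction τ with
  | nil => rfl
  | cons g τ ih =>
    rw [ev_cons, ev_cons, ev_cons, ih]
    rfl

theorem ev_mem_of_le (K D : Subgroup (G × H)) (hKD : K ≤ D) (τ : List K) {z : G × H}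
    (hz : z ∈ D) : (ev (pr1 K) τ z.1, ev (pr2 K) τ z.2) ∈ D := by
  rw [← ev_pair]
  induction τ with
  | nil => exact one_mem _
  | cons g τ ih =>
    rw [ev_cons]
    exact mul_mem (mul_mem (mul_mem (hKD g.2) hz) (inv_mem (hKD g.2))) ih

section transfer

variable {s : ℕ} {B : List (G × H)} {c : Fin s → G} {c' : Fin s → H}

theorem transfer_Cen (hG : GGame m P) (hB : B.length + 4 ≤ m) (hc : ∀ l, (c l, c' l) ∈ B)
    {z : G} {z' : H} (h : P ((z, z') :: B)) :
    z ∈ Cen (pr1 (Cl B)) c ↔ z' ∈ Cen (pr2 (Cl B)) c' := by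
  rw [mem_Cen, mem_Cen]
  apply forall_congr'
  intro g
  apply forall_congr'
  intro l
  have hg : (g : G × H) ∈ Cl ((z, z') :: B) := Cl_mono (fun p hp => List.mem_cons_of_mem _ hp) g.2
  have hcl : (c l, c' l) ∈ Cl ((z, z') :: B) :=
    Subgroup.subset_closure (List.mem_cons_of_mem _ (hc l))
  have hz : (z, z') ∈ Cl ((z, z') :: B) := Subgroup.subset_closure List.mem_cons_self
  have hgc := mul_mem (mul_mem hg hcl) (inv_mem hg)
  exact hG.closure_eq h (by simp only [List.length_cons]; omega) (mul_mem hgc hz)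
    (mul_mem hz hgc)

theorem transfer_Zp (hG : GGame m P) (hB : B.length + 5 ≤ m) (hc : ∀ l, (c l, c' l) ∈ B)
    {z : G} {z' : H} (h : P ((z, z') :: B)) :
    z ∈ Zp (pr1 (Cl B)) c ↔ z' ∈ Zp (pr2 (Cl B)) c' := by
  rw [mem_Zp, mem_Zp, transfer_Cen hG (by omega) hc h]
  refine and_congr_right fun _ => ?_
  obtain ⟨φ, hφ⟩ := hG.ext _ h (by simp only [List.length_cons]; omega)
  have key : ∀ x, (x ∈ Cen (pr1 (Cl B)) c → x * z = z * x) ↔
      (φ x ∈ Cen (pr2 (Cl B)) c' → φ x * z' = z' * φ x) := by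
    intro x
    have h1 : P ((x, φ x) :: B) := hG.sub _ _ (hφ x) (by
        intro p hp
        rcases List.mem_cons.1 hp with rfl | hp
        · exact List.mem_cons_self
        · exact List.mem_cons_of_mem _ (List.mem_cons_of_mem _ hp))
    have h2 : x * z = z * x ↔ φ x * z' = z' * φ x := by
      have hx : (x, φ x) ∈ Cl ((x, φ x) :: (z, z') :: B) := Subgroup.subset_closure (by simp)
      have hz : (z, z') ∈ Cl ((x, φ x) :: (z, z') :: B) := Subgroup.subset_closure (by simp)
      exact hG.closure_eq (hφ x) (by simp only [List.length_cons]; omega)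
        (mul_mem hx hz) (mul_mem hz hx)
    rw [transfer_Cen hG (by omega) hc h1, h2]
  constructor
  · intro h1 x' hx'
    have := (key (φ.symm x')).1 (h1 _)
    rw [Equiv.apply_symm_apply] at this
    exact this hx'
  · intro h1 x hx
    exact (key x).2 (h1 _) hx

theorem transfer_Ap (hG : GGame m P) (hB : B.length + 5 ≤ m) (hc : ∀ l, (c l, c' l) ∈ B)
    (E : List (Cl B) → List (Cl B) → Prop)
    {z : G} {z' : H} (h : P ((z, z') :: B)) :
    z ∈ Ap (pr1 (Cl B)) c E ↔ z' ∈ Ap (pr2 (Cl B)) c' E := by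
  rw [mem_Ap, mem_Ap, transfer_Zp hG hB hc h]
  refine and_congr_right fun _ => ?_
  apply forall_congr'
  intro τ
  apply forall_congr'
  intro σ
  have hKD : Cl B ≤ Cl ((z, z') :: B) := Cl_mono (fun p hp => List.mem_cons_of_mem _ hp)
  have hz : (z, z') ∈ Cl ((z, z') :: B) := Subgroup.subset_closure List.mem_cons_self
  have h1 := hG.closure_eq h (by simp only [List.length_cons]; omega)
    (ev_mem_of_le (Cl B) _ hKD τ hz) (ev_mem_of_le (Cl B) _ hKD σ hz)
  rw [show (ev (pr1 (Cl B)) τ z = ev (pr1 (Cl B)) σ z ↔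
    ev (pr2 (Cl B)) τ z' = ev (pr2 (Cl B)) σ z') from h1]

end transfer

end

end Pool.Agent.Helper950.WL
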