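import Mathlib
import Pool.Agent.Helper950.WL.Grp

/-!
# Groups with a good pebble game and a small abelian normal subgroup are isomorphic
-/

set_option autoImplicit false

namespace Pool.Agent.Helper950.WL

/-- If `x` fixes all multiples of the column sums of a decomposition, it fixes everything. -/
theorem fix_of_sum {R M : Type} [Ring R] [AddCommGroup M] [Module R M] {s n : ℕ}
    (c : Fin n → Fin s → M) (hc : DirectSum.IsInternal fun i => Submodule.span R (Set.range (c i)))
    (x : R) (hx : ∀ (r : R) (l : Fin s), x • (r • ∑ i, c i l) = r • ∑ i, c i l) (a : M) :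
    x • a = a := by
  rw [DirectSum.isInternal_submodule_iff_iSupIndep_and_iSup_eq_top] at hc
  obtain ⟨hind, htop⟩ := hc
  have h1 : ∀ (r : R) (i : Fin n) (l : Fin s), x • (r • c i l) = r • c i l := by
    intro r i l
    have h2 : ∑ i, (x • (r • c i l) - r • c i l) = 0 := by
      rw [Finset.sum_sub_distrib, ← Finset.smul_sum, ← Finset.smul_sum, hx r l, sub_self]
    have h3 := (iSupIndep_iff_finsetSum_eq_zero_imp_eq_zero _).1 hind Finset.univ
      (fun i => x • (r • c i l) - r • c i l) (fun i _ => by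
        have : c i l ∈ Submodule.span R (Set.range (c i)) :=
          Submodule.subset_span (Set.mem_range_self l)
        exact sub_mem (Submodule.smul_mem _ _ (Submodule.smul_mem _ _ this))
          (Submodule.smul_mem _ _ this)) h2 i (Finset.mem_univ i)
    exact sub_eq_zero.1 h3
  have ha : a ∈ ⨆ i, Submodule.span R (Set.range (c i)) := by rw [htop]; trivial
  refine Submodule.iSup_induction (p := fun i => Submodule.span R (Set.range (c i)))
    (motive := fun a => x • a = a) ha ?_ ?_ ?_
  · intro i b hb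
    obtain ⟨r, rfl⟩ := (Submodule.mem_span_range_iff_exists_fun R).1 hb
    rw [Finset.smul_sum]
    exact Finset.sum_congr rfl fun l _ => h1 (r l) i l
  · exact smul_zero x
  · intro b b' hb hb'
    rw [smul_add, hb, hb']

theorem group_iso {G H : Type} [Group G] [Group H] [Finite G] [Finite H] {m s : ℕ}
    {P : List (G × H) → Prop} (hG : GGame m P) (h0 : P []) (L : List G)
    (hm1 : L.length + 2 * s + 3 ≤ m) (hm2 : L.length + s + 5 ≤ m)
    {R M : Type} [Ring R] (hR : Small s R) [AddCommGroup M] [Module R M] (ι : M → G)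
    (hι : Function.Injective ι) (hadd : ∀ a b, ι (a + b) = ι a * ι b)
    (h1 : ∀ g, ∃ r : R, ∀ a, g * ι a * g⁻¹ = ι (r • a))
    (h2 : ∀ r : R, ∃ l : List G, ∀ a, ι (r • a) = (l.map fun g => g * ι a * g⁻¹).prod)
    (hgen : ∀ g, ∃ a, ∃ x ∈ Subgroup.closure {x | x ∈ L}, g = ι a * x) :
    Nonempty (G ≃* H) := by
  classical
  have hι0 : ι 0 = 1 := by
    have := hadd 0 0
    rw [add_zero] at this
    simpa using this
  have hcommM : ∀ a b, ι a * ι b = ι b * ι a := by
    intro a b
    rw [← hadd, ← hadd, add_comm]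
  have hMfin : Finite M := Finite.of_injective ι hι
  obtain ⟨n, cm, hcm⟩ := hR M
  let C : Fin s → G := fun l => ι (∑ i, cm i l)
  -- pebble the generators
  obtain ⟨B, hBfst, hB⟩ := hG.list h0 (List.ofFn C ++ L) (by
    rw [List.length_append, List.length_ofFn]; omega)
  have hBlen : B.length = s + L.length := by
    have := congrArg List.length hBfst
    rw [List.length_map, List.length_append, List.length_ofFn] at this
    exact this
  have hC' : ∀ l, ∃ y, (C l, y) ∈ B := by
    intro l
    have : C l ∈ B.map Prod.fst := by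
      rw [hBfst]
      exact List.mem_append_left _ ((List.mem_ofFn' _ _).2 ⟨l, rfl⟩)
    obtain ⟨p, hp, hp'⟩ := List.mem_map.1 this
    exact ⟨p.2, by rw [← hp']; exact hp⟩
  choose C' hC' using hC'
  have hLK : ∀ x ∈ Subgroup.closure {x | x ∈ L}, ∃ y, (x, y) ∈ Cl B := by
    intro x hx
    have h3 : Subgroup.closure {x | x ∈ L} ≤ (Cl B).map (MonoidHom.fst G H) := by
      rw [Subgroup.closure_le]
      intro y hy
      have : y ∈ B.map Prod.fst := by
        rw [hBfst]
        exact List.mem_append_right _ hy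
      obtain ⟨p, hp, hp'⟩ := List.mem_map.1 this
      exact ⟨p, Subgroup.subset_closure hp, hp'⟩
    obtain ⟨p, hp, hp'⟩ := h3 hx
    exact ⟨p.2, by rw [← hp']; exact hp⟩
  -- conjugation by elements of `G` is conjugation by elements of `K`
  have hκ : ∀ g, ∃ κ : Cl B, ∀ a, g * ι a * g⁻¹ = pr1 (Cl B) κ * ι a * (pr1 (Cl B) κ)⁻¹ := by
    intro g
    obtain ⟨b, x, hx, rfl⟩ := hgen g
    obtain ⟨y, hy⟩ := hLK x hx
    refine ⟨⟨(x, y), hy⟩, fun a => ?_⟩
    obtain ⟨r, hr⟩ := h1 x
    show ι b * x * ι a * (ι b * x)⁻¹ = x * ι a * x⁻¹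
    calc ι b * x * ι a * (ι b * x)⁻¹ = ι b * (x * ι a * x⁻¹) * (ι b)⁻¹ := by group
      _ = ι b * ι (r • a) * (ι b)⁻¹ := by rw [hr]
      _ = ι (r • a) := by rw [hcommM]; group
      _ = _ := (hr a).symm
  choose κ hκ using hκ
  choose lr hlr using h2
  let T : R → List (Cl B) := fun r => (lr r).map κ
  have hT : ∀ r a, ev (pr1 (Cl B)) (T r) (ι a) = ι (r • a) := by
    intro r a
    rw [hlr r a]
    unfold ev
    simp only [T, List.map_map]
    congr 1
    apply List.map_congr_left
    intro g _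
    exact (hκ g a).symm
  let E : List (Cl B) → List (Cl B) → Prop := fun τ σ =>
    ∀ a, ev (pr1 (Cl B)) τ (ι a) = ev (pr1 (Cl B)) σ (ι a)
  have hE : RelOK E T := by
    refine ⟨?_, ?_, ?_, ?_, ?_⟩
    · intro τ σ g h a
      rw [ev_mulRight, ev_mulRight]
      obtain ⟨r, hr⟩ := h1 (pr1 (Cl B) g)
      rw [hr a]
      exact h _
    · intro a
      rw [hT, zero_smul, hι0, ev_nil]
    · intro a
      rw [hT, one_smul, ev_single]
      simp
    · intro r r' a
      rw [hT, add_smul, hadd, ev_append, hT, hT]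
    · intro r r' a
      rw [hT, mul_smul, ev_tmul, hT, hT]
  -- the elements of `M` are in `Ap`
  have hfixM : ∀ x ∈ Cen (pr1 (Cl B)) C, ∀ a, x * ι a = ι a * x := by
    intro x hx a
    obtain ⟨rx, hrx⟩ := h1 x
    rw [mem_Cen] at hx
    have hcomm : ∀ (r : R) (l : Fin s), ι (r • ∑ i, cm i l) * x = x * ι (r • ∑ i, cm i l) := by
      intro r l
      rw [← hT]
      show ev (pr1 (Cl B)) (T r) (C l) * x = x * ev (pr1 (Cl B)) (T r) (C l)
      generalize T r = τ
      induction τ with
      | nil => simp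
      | cons g τ ih =>
        rw [ev_cons, mul_assoc, ih, ← mul_assoc, hx g l, mul_assoc]
    have h3 : ∀ a : M, rx • a = a := by
      apply fix_of_sum cm hcm
      intro r l
      apply hι
      rw [← hrx, ← hcomm r l]
      group
    have h4 := hrx a
    rw [h3 a] at h4
    exact mul_inv_eq_iff_eq_mul.1 h4
  have hMA : ∀ a, ι a ∈ Ap (pr1 (Cl B)) C E := by
    intro a
    refine ⟨?_, fun τ σ h => h a⟩
    rw [mem_Zp]
    refine ⟨?_, fun x hx => hfixM x hx a⟩
    rw [mem_Cen]
    intro g l
    obtain ⟨r, hr⟩ := h1 (pr1 (Cl B) g)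
    show pr1 (Cl B) g * ι (∑ i, cm i l) * (pr1 (Cl B) g)⁻¹ * ι a = _
    rw [hr]
    exact hcommM _ _
  -- transfer
  set A := Ap (pr1 (Cl B)) C E with hA
  set A' := Ap (pr2 (Cl B)) C' E with hA'
  have htr : ∀ z z', P ((z, z') :: B) → (z ∈ A ↔ z' ∈ A') := fun z z' h =>
    transfer_Ap hG (by omega) hC' E h
  have hK1 : ∀ p ∈ Cl B, (p.1 ∈ A ↔ p.2 ∈ A') := by
    intro p hp
    exact htr p.1 p.2 (hG.add hB (by omega) hp)
  let mA : Module R (Additive A) := ApModule (pr1 (Cl B)) C hE
  let mA' : Module R (Additive A') := ApModule (pr2 (Cl B)) C' hE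
  have hsmul : ∀ (r : R) (z : Additive A),
      (((r • z).toMul : A) : G) = ev (pr1 (Cl B)) (T r) (z.toMul : G) := fun r z => rfl
  have hsmul' : ∀ (r : R) (z : Additive A'),
      (((r • z).toMul : A') : H) = ev (pr2 (Cl B)) (T r) (z.toMul : H) := fun r z => rfl
  -- submodules of the product given by subgroups containing `K`
  let Λ : (D : Subgroup (G × H)) → Cl B ≤ D → Submodule R (Additive A × Additive A') :=
    fun D hD =>
    { carrier := {q | ((q.1.toMul : G), (q.2.toMul : H)) ∈ D}
      add_mem' := by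
        intro a b ha hb
        have ha' : ((a.1.toMul : G), (a.2.toMul : H)) ∈ D := ha
        have hb' : ((b.1.toMul : G), (b.2.toMul : H)) ∈ D := hb
        exact mul_mem ha' hb'
      zero_mem' := one_mem D
      smul_mem' := by
        intro r q hq
        exact ev_mem_of_le (Cl B) D hD (T r) (z := ((q.1.toMul : G), (q.2.toMul : H))) hq }
  let BB : Submodule R (Additive A × Additive A') := Λ (Cl B) le_rfl
  let i : BB →ₗ[R] Additive A := (LinearMap.fst R (Additive A) (Additive A')) ∘ₗ BB.subtype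
  let i' : BB →ₗ[R] Additive A' := (LinearMap.snd R (Additive A) (Additive A')) ∘ₗ BB.subtype
  have hBB : ∀ b : BB, (((i b).toMul : G), ((i' b).toMul : H)) ∈ Cl B := fun b => b.2
  have hi : Function.Injective i := by
    rw [← LinearMap.ker_eq_bot, LinearMap.ker_eq_bot']
    intro b hb
    have h3 := hBB b
    have h4 := hG.closure_eq hB (by omega) h3 (one_mem (Cl B))
    have h5 : ((i b).toMul : G) = 1 := by rw [hb]; rfl
    have h6 : ((i' b).toMul : H) = 1 := h4.1 h5
    apply Subtype.ext
    apply Prod.ext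
    · exact hb
    · exact Additive.toMul.injective (Subtype.ext h6)
  have hi' : Function.Injective i' := by
    rw [← LinearMap.ker_eq_bot, LinearMap.ker_eq_bot']
    intro b hb
    have h3 := hBB b
    have h4 := hG.closure_eq hB (by omega) h3 (one_mem (Cl B))
    have h5 : ((i' b).toMul : H) = 1 := by rw [hb]; rfl
    have h6 : ((i b).toMul : G) = 1 := h4.2 h5
    apply Subtype.ext
    apply Prod.ext
    · exact Additive.toMul.injective (Subtype.ext h6)
    · exact hb
  have hcard : Nat.card (Additive A) = Nat.card (Additive A') := by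
    obtain ⟨φ, hφ⟩ := hG.ext _ hB (by omega)
    have e : A ≃ A' := φ.subtypeEquiv fun x => htr x (φ x) (hφ x)
    exact Nat.card_congr e
  have hcount : ∀ (I : Submodule R (Fin s → R)) (b : I →ₗ[R] BB),
      Nat.card {v : Fin s → Additive A // ∀ r : I, comb R v r = i (b r)} =
      Nat.card {v : Fin s → Additive A' // ∀ r : I, comb R v r = i' (b r)} := by
    intro I b
    obtain ⟨Φ, hΦ⟩ := hG.tuple s B hB (by omega)
    -- the two sides in terms of tuples of `G` and `H`
    have e1 : {v : Fin s → Additive A // ∀ r : I, comb R v r = i (b r)} ≃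
        {v : Fin s → G // ∃ w : Fin s → Additive A, (∀ l, ((w l).toMul : G) = v l) ∧
          ∀ r : I, comb R w r = i (b r)} := by
      refine Equiv.ofBijective (fun w => ⟨fun l => ((w.1 l).toMul : G), w.1, fun _ => rfl, w.2⟩)
        ⟨?_, ?_⟩
      · intro w w' h
        apply Subtype.ext
        funext l
        exact Additive.toMul.injective (Subtype.ext (congrFun (congrArg Subtype.val h) l))
      · rintro ⟨v, w, hw1, hw2⟩
        exact ⟨⟨w, hw2⟩, Subtype.ext (funext hw1)⟩
    have e2 : {v : Fin s → Additive A' // ∀ r : I, comb R v r = i' (b r)} ≃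
        {v : Fin s → H // ∃ w : Fin s → Additive A', (∀ l, ((w l).toMul : H) = v l) ∧
          ∀ r : I, comb R w r = i' (b r)} := by
      refine Equiv.ofBijective (fun w => ⟨fun l => ((w.1 l).toMul : H), w.1, fun _ => rfl, w.2⟩)
        ⟨?_, ?_⟩
      · intro w w' h
        apply Subtype.ext
        funext l
        exact Additive.toMul.injective (Subtype.ext (congrFun (congrArg Subtype.val h) l))
      · rintro ⟨v, w, hw1, hw2⟩
        exact ⟨⟨w, hw2⟩, Subtype.ext (funext hw1)⟩
    rw [Nat.card_congr e1, Nat.card_congr e2]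
    apply Nat.card_congr
    refine Φ.subtypeEquiv fun v => ?_
    obtain ⟨L', hL1, hL2, hL3, hL4⟩ := hΦ v
    have hmem : ∀ l, v l ∈ A ↔ Φ v l ∈ A' := by
      intro l
      apply htr
      apply hG.sub _ _ hL1
      intro p hp
      rcases List.mem_cons.1 hp with rfl | hp
      · exact hL4 l
      · exact hL3 p hp
    have key : ∀ (w : Fin s → Additive A) (w' : Fin s → Additive A'),
        (∀ l, ((w l).toMul : G) = v l) → (∀ l, ((w' l).toMul : H) = Φ v l) →
        ∀ r : I, (comb R w r = i (b r) ↔ comb R w' r = i' (b r)) := by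
      intro w w' hw hw' r
      let D := Λ (Cl L') (Cl_mono hL3)
      have h3 : (comb R w r, comb R w' r) ∈ D := by
        have h4 : (comb R w r, comb R w' r) = ∑ l, r.1 l • ((w l, w' l) :
            Additive A × Additive A') := by
          apply Prod.ext
          · simp [comb, Prod.fst_sum]
          · simp [comb, Prod.snd_sum]
        rw [h4]
        apply Submodule.sum_mem
        intro l _
        apply Submodule.smul_mem
        show (((w l).toMul : G), ((w' l).toMul : H)) ∈ Cl L'
        rw [hw, hw']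
        exact Subgroup.subset_closure (hL4 l)
      have h5 : (((i (b r)).toMul : G), ((i' (b r)).toMul : H)) ∈ Cl L' :=
        Cl_mono hL3 (hBB (b r))
      have h6 := hG.closure_eq hL1 (by omega) (p := ((((comb R w r).toMul : A) : G),
        (((comb R w' r).toMul : A') : H))) h3 h5
      constructor
      · intro h7
        exact Additive.toMul.injective (Subtype.ext (h6.1 (by rw [h7])))
      · intro h7
        exact Additive.toMul.injective (Subtype.ext (h6.2 (by rw [h7])))
    constructor
    · rintro ⟨w, hw1, hw2⟩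
      have hw3 : ∀ l, Φ v l ∈ A' := fun l => (hmem l).1 (by rw [← hw1]; exact ((w l).toMul).2)
      refine ⟨fun l => Additive.ofMul ⟨Φ v l, hw3 l⟩, fun l => rfl, fun r => ?_⟩
      exact (key w _ hw1 (fun l => rfl) r).1 (hw2 r)
    · rintro ⟨w, hw1, hw2⟩
      have hw3 : ∀ l, v l ∈ A := fun l => (hmem l).2 (by rw [← hw1]; exact ((w l).toMul).2)
      refine ⟨fun l => Additive.ofMul ⟨v l, hw3 l⟩, fun l => rfl, fun r => ?_⟩
      exact (key _ w (fun l => rfl) hw1 r).2 (hw2 r)
  have hfA : Finite (Additive A) := inferInstanceAs (Finite A)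
  have hfA' : Finite (Additive A') := inferInstanceAs (Finite A')
  obtain ⟨ψ, hψ⟩ := exists_equiv_extend hR i i' hcard hi hi' hcount
  refine assemble (Cl B) A A' (MulEquiv.toAdditive.symm ψ.toAddEquiv) hK1 ?_ ?_ ?_ ?_
  · intro p hp hp1 hp2
    have h3 := hψ ⟨(Additive.ofMul ⟨p.1, hp1⟩, Additive.ofMul ⟨p.2, hp2⟩), hp⟩
    exact congrArg Additive.toMul h3
  · intro g
    obtain ⟨a, x, hx, rfl⟩ := hgen g
    obtain ⟨y, hy⟩ := hLK x hx
    exact ⟨ι a, hMA a, (x, y), hy, rfl⟩
  · intro h
    obtain ⟨φ, hφ⟩ := hG.ext _ hB (by omega)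
    obtain ⟨a, x, hx, hax⟩ := hgen (φ.symm h)
    obtain ⟨y, hy⟩ := hLK x hx
    have h3 := hφ (φ.symm h)
    rw [Equiv.apply_symm_apply] at h3
    obtain ⟨φ', hφ'⟩ := hG.ext _ h3 (by simp only [List.length_cons]; omega)
    have h4 : P ((ι a, φ' (ι a)) :: B) := hG.sub _ _ (hφ' (ι a)) (by
        intro p hp
        rcases List.mem_cons.1 hp with rfl | hp
        · exact List.mem_cons_self
        · exact List.mem_cons_of_mem _ (List.mem_cons_of_mem _ hp))
    refine ⟨φ' (ι a), (htr _ _ h4).1 (hMA a), (x, y), hy, ?_⟩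
    have h5 : (φ.symm h, h) ∈ Cl ((ι a, φ' (ι a)) :: (φ.symm h, h) :: B) :=
      Subgroup.subset_closure (by simp)
    have h6 : (ι a, φ' (ι a)) ∈ Cl ((ι a, φ' (ι a)) :: (φ.symm h, h) :: B) :=
      Subgroup.subset_closure (by simp)
    have h7 : (x, y) ∈ Cl ((ι a, φ' (ι a)) :: (φ.symm h, h) :: B) :=
      Cl_mono (fun p hp => List.mem_cons_of_mem _ (List.mem_cons_of_mem _ hp)) hy
    exact (hG.closure_eq (hφ' (ι a)) (by simp only [List.length_cons]; omega) h5
      (mul_mem h6 h7)).1 hax
  · intro p hp a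
    obtain ⟨r, hr⟩ := h1 p.1
    have hrel : E (T r) [⟨p, hp⟩] := by
      intro b
      rw [hT, ev_single, ← hr]
      rfl
    refine ⟨⟨p.1 * a * p.1⁻¹, Ap_conj (pr1 (Cl B)) C hE a.2 ⟨p, hp⟩⟩, rfl, ?_⟩
    have h3 : Additive.ofMul (⟨p.1 * a * p.1⁻¹, Ap_conj (pr1 (Cl B)) C hE a.2 ⟨p, hp⟩⟩ : A) =
        r • Additive.ofMul a := by
      apply Additive.toMul.injective
      apply Subtype.ext
      show p.1 * (a : G) * p.1⁻¹ = ev (pr1 (Cl B)) (T r) (a : G)
      rw [a.2.2 _ _ hrel, ev_single]
      rfl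
    have h4 : ψ (Additive.ofMul (⟨p.1 * a * p.1⁻¹,
        Ap_conj (pr1 (Cl B)) C hE a.2 ⟨p, hp⟩⟩ : A)) = r • ψ (Additive.ofMul a) := by
      rw [h3, map_smul]
    have h5 := congrArg (fun z : Additive A' => ((z.toMul : A') : H)) h4
    simp only [hsmul'] at h5
    rw [(ψ (Additive.ofMul a)).toMul.2.2 _ _ hrel, ev_single] at h5
    exact h5

end Pool.Agent.Helper950.WL
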