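import Mathlib
import Pool.Agent.W185.SRG.Defs

/-!
# Weisfeiler-Leman equivalence and the bijective pebble game

A position is a list of pairs of vertices. `Pos k G H L` says that the pairs of `L` can be read
off two `k`-tuples with equal colours in all rounds.
-/

set_option autoImplicit false

namespace Pool.Agent.Helper950.WL

open Pool.Agent.W185.SRG

variable {V W : Type} [Fintype V] [Fintype W]

/-- The tuples have the same colour in all rounds. -/
def Sim (k : ℕ) (G : SimpleGraph V) (H : SimpleGraph W) (S : Fin k → V) (S' : Fin k → W) : Prop :=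
  ∀ t, wl G k t S = wl H k t S'

theorem equiv_of_multiset_eq {C : Type} (f : V → C) (g : W → C)
    (h : (Finset.univ : Finset V).val.map f = (Finset.univ : Finset W).val.map g) :
    ∃ φ : V ≃ W, ∀ x, f x = g (φ x) := by
  classical
  have hfib : ∀ c : C, Fintype.card {x : V // f x = c} = Fintype.card {y : W // g y = c} := by
    intro c
    have := congrArg (Multiset.count c) h
    rw [Multiset.count_map, Multiset.count_map] at this
    rw [Fintype.card_subtype, Fintype.card_subtype]
    have e1 : (Finset.univ.filter fun x : V => f x = c).card =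
        (Multiset.filter (fun a => c = f a) (Finset.univ : Finset V).val).card := by
      rw [← Finset.filter_val, ← Finset.card_val]
      congr 2
      ext x
      simp [eq_comm]
    have e2 : (Finset.univ.filter fun x : W => g x = c).card =
        (Multiset.filter (fun a => c = g a) (Finset.univ : Finset W).val).card := by
      rw [← Finset.filter_val, ← Finset.card_val]
      congr 2
      ext x
      simp [eq_comm]
    rw [e1, e2, this]
  have hex : ∀ c : C, Nonempty ({x : V // f x = c} ≃ {y : W // g y = c}) := fun c =>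
    ⟨Fintype.equivOfCardEq (hfib c)⟩
  let e := fun c => Classical.choice (hex c)
  refine ⟨((Equiv.sigmaFiberEquiv f).symm.trans (Equiv.sigmaCongrRight fun c => (e c))).trans
    (Equiv.sigmaFiberEquiv g), ?_⟩
  intro x
  simp only [Equiv.trans_apply, Equiv.sigmaFiberEquiv, Equiv.coe_fn_mk, Equiv.coe_fn_symm_mk,
    Equiv.sigmaCongrRight_apply, Sigma.map]
  exact ((e (f x) ⟨x, rfl⟩).2).symm

theorem wl_mono (k : ℕ) (G : SimpleGraph V) (H : SimpleGraph W) (S : Fin k → V)
    (S' : Fin k → W) {s t : ℕ} (hst : s ≤ t) (h : wl G k t S = wl H k t S') :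
    wl G k s S = wl H k s S' := by
  induction t with
  | zero =>
    obtain rfl : s = 0 := by omega
    exact h
  | succ t ih =>
    rcases Nat.lt_or_ge s (t + 1) with hs | hs
    · apply ih (by omega)
      exact congrArg Prod.fst h
    · obtain rfl : s = t + 1 := by omega
      exact h

theorem Sim.step {k : ℕ} {G : SimpleGraph V} {H : SimpleGraph W} {S : Fin k → V}
    {S' : Fin k → W} (h : Sim k G H S S') :
    ∃ φ : V ≃ W, ∀ x i, Sim k G H (Function.update S i x) (Function.update S' i (φ x)) := by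
  classical
  have h1 : ∀ t, ∃ φ : V ≃ W, ∀ x i, wl G k t (Function.update S i x) =
      wl H k t (Function.update S' i (φ x)) := by
    intro t
    have h2 := h (t + 1)
    have h3 : (Finset.univ : Finset V).val.map (fun x => fun i => wl G k t (Function.update S i x))
      = (Finset.univ : Finset W).val.map
        (fun x => fun i => wl H k t (Function.update S' i x)) :=
      congrArg Prod.snd h2
    obtain ⟨φ, hφ⟩ := equiv_of_multiset_eq _ _ h3
    exact ⟨φ, fun x i => congrFun (hφ x) i⟩
  by_contra hcon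
  push Not at hcon
  have h4 : ∀ φ : V ≃ W, ∃ t, ∃ x i, wl G k t (Function.update S i x) ≠
      wl H k t (Function.update S' i (φ x)) := by
    intro φ
    obtain ⟨x, i, hx⟩ := hcon φ
    unfold Sim at hx
    push Not at hx
    obtain ⟨t, ht⟩ := hx
    exact ⟨t, x, i, ht⟩
  choose T hT using h4
  obtain ⟨φ, hφ⟩ := h1 (Finset.univ.sup T)
  obtain ⟨x, i, hx⟩ := hT φ
  exact hx (wl_mono k G H _ _ (Finset.le_sup (Finset.mem_univ φ)) (hφ x i))

/-- Positions of the bijective pebble game with `k` pebbles that are good for Duplicator. -/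
def Pos (k : ℕ) (G : SimpleGraph V) (H : SimpleGraph W) (L : List (V × W)) : Prop :=
  ∃ S S', Sim k G H S S' ∧ ∀ p ∈ L, ∃ i, S i = p.1 ∧ S' i = p.2

theorem Pos.sub {k : ℕ} {G : SimpleGraph V} {H : SimpleGraph W} {L L' : List (V × W)}
    (h : Pos k G H L) (hL : ∀ p ∈ L', p ∈ L) : Pos k G H L' := by
  obtain ⟨S, S', h1, h2⟩ := h
  exact ⟨S, S', h1, fun p hp => h2 p (hL p hp)⟩

theorem Pos.ext {k : ℕ} {G : SimpleGraph V} {H : SimpleGraph W} {L : List (V × W)}
    (h : Pos k G H L) (hL : L.length < k) :
    ∃ φ : V ≃ W, ∀ x, Pos k G H ((x, φ x) :: L) := by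
  classical
  obtain ⟨S, S', h1, h2⟩ := h
  obtain ⟨φ, hφ⟩ := h1.step
  refine ⟨φ, fun x => ?_⟩
  have : Nonempty (Fin k) := ⟨⟨0, by omega⟩⟩
  choose! idx hidx using h2
  have hcard : (L.map idx).toFinset.card < Fintype.card (Fin k) := by
    rw [Fintype.card_fin]
    exact lt_of_le_of_lt (List.toFinset_card_le _) (by simpa using hL)
  obtain ⟨i0, hi0⟩ : ∃ i0, i0 ∉ (L.map idx).toFinset := by
    by_contra hcon
    push Not at hcon
    have : (L.map idx).toFinset = Finset.univ := Finset.eq_univ_iff_forall.2 hcon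
    rw [this, Finset.card_univ] at hcard
    exact lt_irrefl _ hcard
  refine ⟨_, _, hφ x i0, ?_⟩
  intro p hp
  rcases List.mem_cons.1 hp with rfl | hp
  · exact ⟨i0, by simp⟩
  · refine ⟨idx p, ?_⟩
    have hne : idx p ≠ i0 := by
      rintro rfl
      exact hi0 (by simpa using ⟨p.1, p.2, hp, rfl⟩)
    rw [Function.update_of_ne hne, Function.update_of_ne hne]
    exact hidx p hp

theorem Pos.eq_iff {k : ℕ} {G : SimpleGraph V} {H : SimpleGraph W} {L : List (V × W)}
    (h : Pos k G H L) {p q : V × W} (hp : p ∈ L) (hq : q ∈ L) : p.1 = q.1 ↔ p.2 = q.2 := by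
  obtain ⟨S, S', h1, h2⟩ := h
  obtain ⟨i, hi, hi'⟩ := h2 p hp
  obtain ⟨j, hj, hj'⟩ := h2 q hq
  have h3 := congrArg Prod.fst (h1 0)
  have h4 := congrFun (congrFun h3 i) j
  simp only [wl, isoType, hi, hi', hj, hj'] at h4
  exact iff_of_eq h4

theorem Pos.adj_iff {k : ℕ} {G : SimpleGraph V} {H : SimpleGraph W} {L : List (V × W)}
    (h : Pos k G H L) {p q : V × W} (hp : p ∈ L) (hq : q ∈ L) :
    G.Adj p.1 q.1 ↔ H.Adj p.2 q.2 := by
  obtain ⟨S, S', h1, h2⟩ := h
  obtain ⟨i, hi, hi'⟩ := h2 p hp
  obtain ⟨j, hj, hj'⟩ := h2 q hq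
  have h3 := congrArg Prod.snd (h1 0)
  have h4 := congrFun (congrFun h3 i) j
  simp only [wl, isoType, hi, hi', hj, hj'] at h4
  exact iff_of_eq h4

theorem Pos.nil [Nonempty V] {k : ℕ} {G : SimpleGraph V} {H : SimpleGraph W}
    (h : WLEquivalent k G H) : Pos k G H [] := by
  obtain ⟨ψ, hψ⟩ := h
  exact ⟨fun _ => Classical.arbitrary V, _, fun t => hψ t _, by simp⟩

/-- If all vertices of `G` can be pebbled, then the graphs are isomorphic. -/
theorem Pos.iso_of_card_le {k : ℕ} {G : SimpleGraph V} {H : SimpleGraph W}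
    (h : Pos k G H []) (hk : Fintype.card V ≤ k) : Nonempty (G ≃g H) := by
  classical
  -- lists of vertices can be pebbled
  have h1 : ∀ l : List V, l.length ≤ k → ∃ L : List (V × W), L.map Prod.fst = l ∧ Pos k G H L := by
    intro l
    induction l with
    | nil => exact fun _ => ⟨[], rfl, h⟩
    | cons x l ih =>
      intro hl
      simp only [List.length_cons] at hl
      obtain ⟨L, hL, hP⟩ := ih (by omega)
      have hlen : L.length = l.length := by rw [← hL, List.length_map]
      obtain ⟨φ, hφ⟩ := hP.ext (by omega)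
      exact ⟨(x, φ x) :: L, by simp [hL], hφ x⟩
  obtain ⟨L, hL, hP⟩ := h1 Finset.univ.toList (by simpa using hk)
  have h2 : ∀ x : V, ∃ y : W, (x, y) ∈ L := by
    intro x
    have : x ∈ L.map Prod.fst := by rw [hL]; simp
    obtain ⟨p, hp, rfl⟩ := List.mem_map.1 this
    exact ⟨p.2, hp⟩
  choose f hf using h2
  have hinj : Function.Injective f := by
    intro x y hxy
    exact (hP.eq_iff (hf x) (hf y)).2 hxy
  rcases isEmpty_or_nonempty V with hV | hV
  · -- the game gives a bijection only if `0 < k`; use the empty list otherwise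
    obtain ⟨S, S', hS, -⟩ := h
    rcases Nat.eq_zero_or_pos k with hk0 | hk0
    · subst hk0
      have h5 := congrArg Prod.snd (hS 1)
      obtain ⟨φ, -⟩ := hS.step
      refine ⟨⟨φ, ?_⟩⟩
      intro a
      exact (hV.false a).elim
    · obtain ⟨φ, -⟩ := hS.step
      refine ⟨⟨φ, ?_⟩⟩
      intro a
      exact (hV.false a).elim
  · obtain ⟨S, S', hS, -⟩ := h
    obtain ⟨φ, -⟩ := hS.step
    have hb : Function.Bijective f :=
      (Fintype.bijective_iff_injective_and_card f).2 ⟨hinj, Fintype.card_congr φ⟩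
    refine ⟨⟨Equiv.ofBijective f hb, ?_⟩⟩
    intro a b
    exact (hP.adj_iff (hf a) (hf b)).symm

end Pool.Agent.Helper950.WL
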