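import Mathlib
import Pool.Agent.Helper950.WL.Game

/-!
# Relations on graphs that are preserved by the pebble game
-/

set_option autoImplicit false

namespace Pool.Agent.Helper950.WL

section transfer

variable {V W : Type} [Fintype V] [Fintype W] {k : ℕ} {G : SimpleGraph V} {H : SimpleGraph W}
  {L : List (V × W)}

theorem Pos.exists_iff (h : Pos k G H L) (hL : L.length < k) {Q : V → Prop} {Q' : W → Prop}
    (hQ : ∀ x x', Pos k G H ((x, x') :: L) → (Q x ↔ Q' x')) : (∃ x, Q x) ↔ ∃ x', Q' x' := by
  obtain ⟨φ, hφ⟩ := h.ext hL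
  constructor
  · rintro ⟨x, hx⟩
    exact ⟨φ x, (hQ x _ (hφ x)).1 hx⟩
  · rintro ⟨x', hx'⟩
    refine ⟨φ.symm x', (hQ _ x' ?_).2 hx'⟩
    have := hφ (φ.symm x')
    rwa [Equiv.apply_symm_apply] at this

theorem Pos.forall_iff (h : Pos k G H L) (hL : L.length < k) {Q : V → Prop} {Q' : W → Prop}
    (hQ : ∀ x x', Pos k G H ((x, x') :: L) → (Q x ↔ Q' x')) : (∀ x, Q x) ↔ ∀ x', Q' x' := by
  obtain ⟨φ, hφ⟩ := h.ext hL
  constructor
  · intro h1 x'
    have := hφ (φ.symm x')
    rw [Equiv.apply_symm_apply] at this
    exact (hQ _ x' this).1 (h1 _)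
  · intro h1 x
    exact (hQ x _ (hφ x)).2 (h1 _)

theorem Pos.eqP (h : Pos k G H L) {a b : V} {a' b' : W} (ha : (a, a') ∈ L) (hb : (b, b') ∈ L) :
    a = b ↔ a' = b' := h.eq_iff ha hb

theorem Pos.adjP (h : Pos k G H L) {a b : V} {a' b' : W} (ha : (a, a') ∈ L) (hb : (b, b') ∈ L) :
    G.Adj a b ↔ H.Adj a' b' := h.adj_iff ha hb

end transfer

section relations

variable {V : Type}

/-- `x` is adjacent to `a`, `b` and `w`. -/
def Com (G : SimpleGraph V) (a b w x : V) : Prop := G.Adj x a ∧ G.Adj x b ∧ G.Adj x w

/-- `w` is on the line through `a` and `b`. -/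
def Col (G : SimpleGraph V) (a b w : V) : Prop :=
  G.Adj a b ∧ (w = a ∨ w = b ∨ (G.Adj w a ∧ G.Adj w b ∧
    ∃ x y, ¬ x = y ∧ Com G a b w x ∧ Com G a b w y))

/-- `a = b`, or the line through `a` and `b` is parallel to the line through `o` and `p`. -/
def Par (G : SimpleGraph V) (o p a b : V) : Prop :=
  a = b ∨ (G.Adj a b ∧ ((∀ w, Col G o p w → ¬ Col G a b w) ∨ (Col G o p a ∧ Col G o p b)))

/-- The row of `v` has the index `x`. -/
def RIdx (G : SimpleGraph V) (o p q r v x : V) : Prop :=
  Par G o p o x ∧ ∃ c, Par G o q o c ∧ Par G o p v c ∧ Par G o r x c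

/-- The column of `v` has the index `x`. -/
def CIdx (G : SimpleGraph V) (o p q v x : V) : Prop := Par G o p o x ∧ Par G o q v x

/-- The symbol of `v` has the index `x`. -/
def SIdx (G : SimpleGraph V) (o p r v x : V) : Prop := Par G o p o x ∧ Par G o r v x

/-- The product of the indices `x` and `y` is `z`. -/
def Mul (G : SimpleGraph V) (o p q r x y z : V) : Prop :=
  ∃ v, RIdx G o p q r v x ∧ CIdx G o p q v y ∧ SIdx G o p r v z

/-- The axioms of the graph of a group table with a frame. -/
structure LF (G : SimpleGraph V) (o p q r : V) : Prop where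
  rex : ∀ v, ∃ x, RIdx G o p q r v x
  run : ∀ v x y, RIdx G o p q r v x → RIdx G o p q r v y → x = y
  cex : ∀ v, ∃ x, CIdx G o p q v x
  cun : ∀ v x y, CIdx G o p q v x → CIdx G o p q v y → x = y
  sex : ∀ v, ∃ x, SIdx G o p r v x
  sun : ∀ v x y, SIdx G o p r v x → SIdx G o p r v y → x = y
  cell : ∀ x y, Par G o p o x → Par G o p o y → ∃ v, RIdx G o p q r v x ∧ CIdx G o p q v y
  inj : ∀ v w x y, RIdx G o p q r v x → RIdx G o p q r w x → CIdx G o p q v y →
    CIdx G o p q w y → v = w
  adj : ∀ v w, G.Adj v w ↔ (¬ v = w ∧ ((∃ x, RIdx G o p q r v x ∧ RIdx G o p q r w x) ∨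
    (∃ x, CIdx G o p q v x ∧ CIdx G o p q w x) ∨ (∃ x, SIdx G o p r v x ∧ SIdx G o p r w x)))
  assoc : ∀ x y z u v w, Mul G o p q r x y u → Mul G o p q r u z v → Mul G o p q r y z w →
    Mul G o p q r x w v
  one : ∀ x, Par G o p o x → Mul G o p q r o x x
  inv : ∀ x, Par G o p o x → ∃ y, Mul G o p q r y x o

end relations

section transfer2

variable {V W : Type} [Fintype V] [Fintype W] {k : ℕ} {G : SimpleGraph V} {H : SimpleGraph W}
  {L : List (V × W)}

theorem Com_tr (h : Pos k G H L) {a b w x : V} {a' b' w' x' : W}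
    (ha : (a, a') ∈ L) (hb : (b, b') ∈ L) (hw : (w, w') ∈ L) (hx : (x, x') ∈ L) :
    Com G a b w x ↔ Com H a' b' w' x' := by
  unfold Com
  rw [h.adjP hx ha, h.adjP hx hb, h.adjP hx hw]

theorem Col_tr (h : Pos k G H L) (hL : L.length + 2 ≤ k) {a b w : V} {a' b' w' : W}
    (ha : (a, a') ∈ L) (hb : (b, b') ∈ L) (hw : (w, w') ∈ L) :
    Col G a b w ↔ Col H a' b' w' := by
  have h1 : (∃ x y, ¬ x = y ∧ Com G a b w x ∧ Com G a b w y) ↔
      (∃ x y, ¬ x = y ∧ Com H a' b' w' x ∧ Com H a' b' w' y) := by
    refine h.exists_iff (by omega) fun x x' h1 => ?_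
    refine h1.exists_iff (by simp only [List.length_cons]; omega) fun y y' h2 => ?_
    rw [h2.eqP (a := x) (a' := x') (b := y) (b' := y') (by simp) (by simp),
      Com_tr h2 (a := a) (a' := a') (b := b) (b' := b') (w := w) (w' := w') (x := x) (x' := x')
        (by simp [ha]) (by simp [hb]) (by simp [hw]) (by simp),
      Com_tr h2 (a := a) (a' := a') (b := b) (b' := b') (w := w) (w' := w') (x := y) (x' := y')
        (by simp [ha]) (by simp [hb]) (by simp [hw]) (by simp)]
  unfold Col
  rw [h1, h.adjP ha hb, h.eqP hw ha, h.eqP hw hb, h.adjP hw ha, h.adjP hw hb]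

theorem Par_tr (h : Pos k G H L) (hL : L.length + 3 ≤ k) {o p a b : V} {o' p' a' b' : W}
    (ho : (o, o') ∈ L) (hp : (p, p') ∈ L) (ha : (a, a') ∈ L) (hb : (b, b') ∈ L) :
    Par G o p a b ↔ Par H o' p' a' b' := by
  have h1 : (∀ w, Col G o p w → ¬ Col G a b w) ↔ (∀ w, Col H o' p' w → ¬ Col H a' b' w) := by
    refine h.forall_iff (by omega) fun w w' h1 => ?_
    rw [Col_tr h1 (by simp only [List.length_cons]; omega) (a := o) (a' := o') (b := p)
        (b' := p') (w := w) (w' := w') (by simp [ho]) (by simp [hp]) (by simp),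
      Col_tr h1 (by simp only [List.length_cons]; omega) (a := a) (a' := a') (b := b)
        (b' := b') (w := w) (w' := w') (by simp [ha]) (by simp [hb]) (by simp)]
  unfold Par
  rw [h1, h.eqP ha hb, h.adjP ha hb, Col_tr h (by omega) ho hp ha, Col_tr h (by omega) ho hp hb]

theorem RIdx_tr (h : Pos k G H L) (hL : L.length + 4 ≤ k) {o p q r v x : V}
    {o' p' q' r' v' x' : W} (ho : (o, o') ∈ L) (hp : (p, p') ∈ L) (hq : (q, q') ∈ L)
    (hr : (r, r') ∈ L) (hv : (v, v') ∈ L) (hx : (x, x') ∈ L) :
    RIdx G o p q r v x ↔ RIdx H o' p' q' r' v' x' := by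
  unfold RIdx
  rw [Par_tr h (by omega) ho hp ho hx]
  refine and_congr_right fun _ => ?_
  refine h.exists_iff (by omega) fun c c' h1 => ?_
  have hl : ((c, c') :: L).length + 3 ≤ k := by simp only [List.length_cons]; omega
  rw [Par_tr h1 hl (o := o) (o' := o') (p := q) (p' := q') (a := o) (a' := o') (b := c) (b' := c')
      (by simp [ho]) (by simp [hq]) (by simp [ho]) (by simp),
    Par_tr h1 hl (o := o) (o' := o') (p := p) (p' := p') (a := v) (a' := v') (b := c) (b' := c')
      (by simp [ho]) (by simp [hp]) (by simp [hv]) (by simp),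
    Par_tr h1 hl (o := o) (o' := o') (p := r) (p' := r') (a := x) (a' := x') (b := c) (b' := c')
      (by simp [ho]) (by simp [hr]) (by simp [hx]) (by simp)]

theorem CIdx_tr (h : Pos k G H L) (hL : L.length + 3 ≤ k) {o p q v x : V}
    {o' p' q' v' x' : W} (ho : (o, o') ∈ L) (hp : (p, p') ∈ L) (hq : (q, q') ∈ L)
    (hv : (v, v') ∈ L) (hx : (x, x') ∈ L) :
    CIdx G o p q v x ↔ CIdx H o' p' q' v' x' := by
  unfold CIdx
  rw [Par_tr h hL ho hp ho hx, Par_tr h hL ho hq hv hx]

theorem SIdx_tr (h : Pos k G H L) (hL : L.length + 3 ≤ k) {o p r v x : V}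
    {o' p' r' v' x' : W} (ho : (o, o') ∈ L) (hp : (p, p') ∈ L) (hr : (r, r') ∈ L)
    (hv : (v, v') ∈ L) (hx : (x, x') ∈ L) :
    SIdx G o p r v x ↔ SIdx H o' p' r' v' x' := by
  unfold SIdx
  rw [Par_tr h hL ho hp ho hx, Par_tr h hL ho hr hv hx]

theorem Mul_tr (h : Pos k G H L) (hL : L.length + 5 ≤ k) {o p q r x y z : V}
    {o' p' q' r' x' y' z' : W} (ho : (o, o') ∈ L) (hp : (p, p') ∈ L) (hq : (q, q') ∈ L)
    (hr : (r, r') ∈ L) (hx : (x, x') ∈ L) (hy : (y, y') ∈ L) (hz : (z, z') ∈ L) :
    Mul G o p q r x y z ↔ Mul H o' p' q' r' x' y' z' := by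
  unfold Mul
  refine h.exists_iff (by omega) fun v v' h1 => ?_
  have hl : ((v, v') :: L).length + 4 ≤ k := by simp only [List.length_cons]; omega
  rw [RIdx_tr h1 hl (o := o) (o' := o') (p := p) (p' := p') (q := q) (q' := q') (r := r)
      (r' := r') (v := v) (v' := v') (x := x) (x' := x') (by simp [ho]) (by simp [hp])
      (by simp [hq]) (by simp [hr]) (by simp) (by simp [hx]),
    CIdx_tr h1 (by omega) (o := o) (o' := o') (p := p) (p' := p') (q := q) (q' := q')
      (v := v) (v' := v') (x := y) (x' := y') (by simp [ho]) (by simp [hp])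
      (by simp [hq]) (by simp) (by simp [hy]),
    SIdx_tr h1 (by omega) (o := o) (o' := o') (p := p) (p' := p') (r := r) (r' := r')
      (v := v) (v' := v') (x := z) (x' := z') (by simp [ho]) (by simp [hp])
      (by simp [hr]) (by simp) (by simp [hz])]

theorem LF_tr {o p q r : V} {o' p' q' r' : W}
    (h : Pos k G H L) (hL : L.length + 11 ≤ k)
    (ho : (o, o') ∈ L) (hp : (p, p') ∈ L) (hq : (q, q') ∈ L) (hr : (r, r') ∈ L)
    (hF : LF G o p q r) : LF H o' p' q' r' where
  rex := by
    refine (h.forall_iff (by omega) fun v v' h1 => ?_).1 hF.rex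
    refine h1.exists_iff (by simp only [List.length_cons]; omega) fun x x' h2 => ?_
    exact RIdx_tr h2 (by simp only [List.length_cons]; omega) (by simp [ho]) (by simp [hp])
      (by simp [hq]) (by simp [hr]) (by simp) (by simp)
  run := by
    refine (h.forall_iff (by omega) fun v v' h1 => ?_).1 hF.run
    refine h1.forall_iff (by simp only [List.length_cons]; omega) fun x x' h2 => ?_
    refine h2.forall_iff (by simp only [List.length_cons]; omega) fun y y' h3 => ?_
    refine imp_congr (RIdx_tr h3 (by simp only [List.length_cons]; omega) (by simp [ho])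
      (by simp [hp]) (by simp [hq]) (by simp [hr]) (by simp) (by simp)) ?_
    refine imp_congr (RIdx_tr h3 (by simp only [List.length_cons]; omega) (by simp [ho])
      (by simp [hp]) (by simp [hq]) (by simp [hr]) (by simp) (by simp)) ?_
    exact h3.eqP (by simp) (by simp)
  cex := by
    refine (h.forall_iff (by omega) fun v v' h1 => ?_).1 hF.cex
    refine h1.exists_iff (by simp only [List.length_cons]; omega) fun x x' h2 => ?_
    exact CIdx_tr h2 (by simp only [List.length_cons]; omega) (by simp [ho]) (by simp [hp])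
      (by simp [hq]) (by simp) (by simp)
  cun := by
    refine (h.forall_iff (by omega) fun v v' h1 => ?_).1 hF.cun
    refine h1.forall_iff (by simp only [List.length_cons]; omega) fun x x' h2 => ?_
    refine h2.forall_iff (by simp only [List.length_cons]; omega) fun y y' h3 => ?_
    refine imp_congr (CIdx_tr h3 (by simp only [List.length_cons]; omega) (by simp [ho])
      (by simp [hp]) (by simp [hq]) (by simp) (by simp)) ?_
    refine imp_congr (CIdx_tr h3 (by simp only [List.length_cons]; omega) (by simp [ho])
      (by simp [hp]) (by simp [hq]) (by simp) (by simp)) ?_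
    exact h3.eqP (by simp) (by simp)
  sex := by
    refine (h.forall_iff (by omega) fun v v' h1 => ?_).1 hF.sex
    refine h1.exists_iff (by simp only [List.length_cons]; omega) fun x x' h2 => ?_
    exact SIdx_tr h2 (by simp only [List.length_cons]; omega) (by simp [ho]) (by simp [hp])
      (by simp [hr]) (by simp) (by simp)
  sun := by
    refine (h.forall_iff (by omega) fun v v' h1 => ?_).1 hF.sun
    refine h1.forall_iff (by simp only [List.length_cons]; omega) fun x x' h2 => ?_
    refine h2.forall_iff (by simp only [List.length_cons]; omega) fun y y' h3 => ?_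
    refine imp_congr (SIdx_tr h3 (by simp only [List.length_cons]; omega) (by simp [ho])
      (by simp [hp]) (by simp [hr]) (by simp) (by simp)) ?_
    refine imp_congr (SIdx_tr h3 (by simp only [List.length_cons]; omega) (by simp [ho])
      (by simp [hp]) (by simp [hr]) (by simp) (by simp)) ?_
    exact h3.eqP (by simp) (by simp)
  cell := by
    refine (h.forall_iff (by omega) fun x x' h1 => ?_).1 hF.cell
    refine h1.forall_iff (by simp only [List.length_cons]; omega) fun y y' h2 => ?_
    refine imp_congr (Par_tr h2 (by simp only [List.length_cons]; omega) (by simp [ho])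
      (by simp [hp]) (by simp [ho]) (by simp)) ?_
    refine imp_congr (Par_tr h2 (by simp only [List.length_cons]; omega) (by simp [ho])
      (by simp [hp]) (by simp [ho]) (by simp)) ?_
    refine h2.exists_iff (by simp only [List.length_cons]; omega) fun v v' h3 => ?_
    exact and_congr (RIdx_tr h3 (by simp only [List.length_cons]; omega) (by simp [ho])
      (by simp [hp]) (by simp [hq]) (by simp [hr]) (by simp) (by simp))
      (CIdx_tr h3 (by simp only [List.length_cons]; omega) (by simp [ho])
      (by simp [hp]) (by simp [hq]) (by simp) (by simp))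
  inj := by
    refine (h.forall_iff (by omega) fun v v' h1 => ?_).1 hF.inj
    refine h1.forall_iff (by simp only [List.length_cons]; omega) fun w w' h2 => ?_
    refine h2.forall_iff (by simp only [List.length_cons]; omega) fun x x' h3 => ?_
    refine h3.forall_iff (by simp only [List.length_cons]; omega) fun y y' h4 => ?_
    refine imp_congr (RIdx_tr h4 (by simp only [List.length_cons]; omega) (by simp [ho])
      (by simp [hp]) (by simp [hq]) (by simp [hr]) (by simp) (by simp)) ?_
    refine imp_congr (RIdx_tr h4 (by simp only [List.length_cons]; omega) (by simp [ho])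
      (by simp [hp]) (by simp [hq]) (by simp [hr]) (by simp) (by simp)) ?_
    refine imp_congr (CIdx_tr h4 (by simp only [List.length_cons]; omega) (by simp [ho])
      (by simp [hp]) (by simp [hq]) (by simp) (by simp)) ?_
    refine imp_congr (CIdx_tr h4 (by simp only [List.length_cons]; omega) (by simp [ho])
      (by simp [hp]) (by simp [hq]) (by simp) (by simp)) ?_
    exact h4.eqP (by simp) (by simp)
  adj := by
    refine (h.forall_iff (by omega) fun v v' h1 => ?_).1 hF.adj
    refine h1.forall_iff (by simp only [List.length_cons]; omega) fun w w' h2 => ?_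
    refine iff_congr (h2.adjP (by simp) (by simp)) (and_congr
      (not_congr (h2.eqP (by simp) (by simp))) (or_congr ?_ (or_congr ?_ ?_)))
    · refine h2.exists_iff (by simp only [List.length_cons]; omega) fun x x' h3 => ?_
      exact and_congr (RIdx_tr h3 (by simp only [List.length_cons]; omega) (by simp [ho])
        (by simp [hp]) (by simp [hq]) (by simp [hr]) (by simp) (by simp))
        (RIdx_tr h3 (by simp only [List.length_cons]; omega) (by simp [ho])
        (by simp [hp]) (by simp [hq]) (by simp [hr]) (by simp) (by simp))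
    · refine h2.exists_iff (by simp only [List.length_cons]; omega) fun x x' h3 => ?_
      exact and_congr (CIdx_tr h3 (by simp only [List.length_cons]; omega) (by simp [ho])
        (by simp [hp]) (by simp [hq]) (by simp) (by simp))
        (CIdx_tr h3 (by simp only [List.length_cons]; omega) (by simp [ho])
        (by simp [hp]) (by simp [hq]) (by simp) (by simp))
    · refine h2.exists_iff (by simp only [List.length_cons]; omega) fun x x' h3 => ?_
      exact and_congr (SIdx_tr h3 (by simp only [List.length_cons]; omega) (by simp [ho])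
        (by simp [hp]) (by simp [hr]) (by simp) (by simp))
        (SIdx_tr h3 (by simp only [List.length_cons]; omega) (by simp [ho])
        (by simp [hp]) (by simp [hr]) (by simp) (by simp))
  assoc := by
    refine (h.forall_iff (by omega) fun x x' h1 => ?_).1 hF.assoc
    refine h1.forall_iff (by simp only [List.length_cons]; omega) fun y y' h2 => ?_
    refine h2.forall_iff (by simp only [List.length_cons]; omega) fun z z' h3 => ?_
    refine h3.forall_iff (by simp only [List.length_cons]; omega) fun u u' h4 => ?_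
    refine h4.forall_iff (by simp only [List.length_cons]; omega) fun v v' h5 => ?_
    refine h5.forall_iff (by simp only [List.length_cons]; omega) fun w w' h6 => ?_
    refine imp_congr (Mul_tr h6 (by simp only [List.length_cons]; omega) (by simp [ho])
      (by simp [hp]) (by simp [hq]) (by simp [hr]) (by simp) (by simp) (by simp)) ?_
    refine imp_congr (Mul_tr h6 (by simp only [List.length_cons]; omega) (by simp [ho])
      (by simp [hp]) (by simp [hq]) (by simp [hr]) (by simp) (by simp) (by simp)) ?_
    refine imp_congr (Mul_tr h6 (by simp only [List.length_cons]; omega) (by simp [ho])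
      (by simp [hp]) (by simp [hq]) (by simp [hr]) (by simp) (by simp) (by simp)) ?_
    exact Mul_tr h6 (by simp only [List.length_cons]; omega) (by simp [ho])
      (by simp [hp]) (by simp [hq]) (by simp [hr]) (by simp) (by simp) (by simp)
  one := by
    refine (h.forall_iff (by omega) fun x x' h1 => ?_).1 hF.one
    refine imp_congr (Par_tr h1 (by simp only [List.length_cons]; omega) (by simp [ho])
      (by simp [hp]) (by simp [ho]) (by simp)) ?_
    exact Mul_tr h1 (by simp only [List.length_cons]; omega) (by simp [ho])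
      (by simp [hp]) (by simp [hq]) (by simp [hr]) (by simp [ho]) (by simp) (by simp)
  inv := by
    refine (h.forall_iff (by omega) fun x x' h1 => ?_).1 hF.inv
    refine imp_congr (Par_tr h1 (by simp only [List.length_cons]; omega) (by simp [ho])
      (by simp [hp]) (by simp [ho]) (by simp)) ?_
    refine h1.exists_iff (by simp only [List.length_cons]; omega) fun y y' h2 => ?_
    exact Mul_tr h2 (by simp only [List.length_cons]; omega) (by simp [ho])
      (by simp [hp]) (by simp [hq]) (by simp [hr]) (by simp) (by simp) (by simp [ho])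

end transfer2

end Pool.Agent.Helper950.WL
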