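import Mathlib
import Pool.Agent.Helper950.WL.Rel
import Pool.Agent.W185.LSQ.Latin

/-!
# The relations in the graph of a group table
-/

set_option autoImplicit false

namespace Pool.Agent.Helper950.WL

open Pool.Agent.W185.LSQ

section net

variable {V Q : Type}

/-- A `3`-net of order at least five with its collinearity graph. -/
structure IsNet (Γ : SimpleGraph V) (f : Fin 3 → V → Q) : Prop where
  inj : ∀ i j, i ≠ j → ∀ u v, f i u = f i v → f j u = f j v → u = v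
  surj : ∀ i j, i ≠ j → ∀ s t, ∃ v, f i v = s ∧ f j v = t
  adj : ∀ u v, Γ.Adj u v ↔ u ≠ v ∧ ∃ i, f i u = f i v
  big : ∀ (i : Fin 3) (a b w : V), ∃ x y, x ≠ y ∧ (f i x = f i a ∧ x ≠ a ∧ x ≠ b ∧ x ≠ w) ∧
    (f i y = f i a ∧ y ≠ a ∧ y ≠ b ∧ y ≠ w)

variable {Γ : SimpleGraph V} {f : Fin 3 → V → Q}

theorem fin3 : ∀ i j l α : Fin 3, i ≠ j → i ≠ l → j ≠ l → α = i ∨ α = j ∨ α = l := by decide

theorem IsNet.tri (hN : IsNet Γ f) {i j l : Fin 3} (hij : i ≠ j) (hil : i ≠ l) (hjl : j ≠ l)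
    {a b w x : V} (hab : a ≠ b) (hi : f i a = f i b) (hj : f j w = f j a)
    (hl : f l w = f l b) (hw : f i w ≠ f i a) (hxa : x ≠ a) (hxb : x ≠ b) (hxw : x ≠ w)
    {α β γ : Fin 3} (hα : f α x = f α a) (hβ : f β x = f β b) (hγ : f γ x = f γ w) :
    f l x = f l a := by
  rcases fin3 i j l α hij hil hjl with rfl | rfl | rfl
  · exfalso
    rcases fin3 α j l γ hij hil hjl with rfl | rfl | rfl
    · exact hw (by rw [← hγ, hα])
    · exact hxa (hN.inj _ _ hij _ _ hα (by rw [hγ, hj]))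
    · exact hxb (hN.inj _ _ hil _ _ (by rw [hα, hi]) (by rw [hγ, hl]))
  · exfalso
    rcases fin3 i α l β hij hil hjl with rfl | rfl | rfl
    · exact hxa (hN.inj _ _ hij _ _ (by rw [hβ, hi]) hα)
    · exact hab (hN.inj _ _ hij _ _ hi (by rw [← hα, hβ]))
    · exact hxw (hN.inj _ _ hjl _ _ (by rw [hα, hj]) (by rw [hβ, hl]))
  · exact hα

theorem IsNet.col_iff (hN : IsNet Γ f) {i : Fin 3} {a b : V} (hab : a ≠ b)
    (hi : f i a = f i b) (w : V) : Col Γ a b w ↔ f i w = f i a := by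
  constructor
  · rintro ⟨_, rfl | rfl | ⟨hwa, hwb, x, y, hxy, hx, hy⟩⟩
    · rfl
    · exact hi.symm
    · by_contra hw
      obtain ⟨hwa', j, hj⟩ := (hN.adj _ _).1 hwa
      obtain ⟨hwb', l, hl⟩ := (hN.adj _ _).1 hwb
      have hij : i ≠ j := by rintro rfl; exact hw hj
      have hil : i ≠ l := by rintro rfl; exact hw (hl.trans hi.symm)
      have hjl : j ≠ l := by
        rintro rfl
        exact hab (hN.inj _ _ hij _ _ hi (by rw [← hj, hl]))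
      have key : ∀ x, Com Γ a b w x → f l x = f l a ∧ f j x = f j b := by
        rintro x ⟨hxa, hxb, hxw⟩
        obtain ⟨hxa', α, hα⟩ := (hN.adj _ _).1 hxa
        obtain ⟨hxb', β, hβ⟩ := (hN.adj _ _).1 hxb
        obtain ⟨hxw', γ, hγ⟩ := (hN.adj _ _).1 hxw
        refine ⟨hN.tri hij hil hjl hab hi hj hl hw hxa' hxb' hxw' hα hβ hγ, ?_⟩
        exact hN.tri hil hij hjl.symm hab.symm hi.symm hl hj (by rwa [← hi]) hxb' hxa' hxw'
          hβ hα hγ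
      have h1 := key x hx
      have h2 := key y hy
      exact hxy (hN.inj _ _ hjl _ _ (by rw [h1.2, h2.2]) (by rw [h1.1, h2.1]))
  · intro hw
    refine ⟨(hN.adj _ _).2 ⟨hab, i, hi⟩, ?_⟩
    by_cases hwa : w = a
    · exact Or.inl hwa
    by_cases hwb : w = b
    · exact Or.inr (Or.inl hwb)
    refine Or.inr (Or.inr ⟨(hN.adj _ _).2 ⟨hwa, i, hw⟩, (hN.adj _ _).2 ⟨hwb, i, by rw [hw, hi]⟩, ?_⟩)
    obtain ⟨x, y, hxy, ⟨hx1, hx2, hx3, hx4⟩, ⟨hy1, hy2, hy3, hy4⟩⟩ := hN.big i a b w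
    exact ⟨x, y, hxy, ⟨(hN.adj _ _).2 ⟨hx2, i, hx1⟩, (hN.adj _ _).2 ⟨hx3, i, by rw [hx1, hi]⟩,
      (hN.adj _ _).2 ⟨hx4, i, by rw [hx1, hw]⟩⟩, (hN.adj _ _).2 ⟨hy2, i, hy1⟩,
      (hN.adj _ _).2 ⟨hy3, i, by rw [hy1, hi]⟩, (hN.adj _ _).2 ⟨hy4, i, by rw [hy1, hw]⟩⟩

theorem IsNet.par_iff (hN : IsNet Γ f) {i : Fin 3} {o p : V} (hop : o ≠ p)
    (hi : f i o = f i p) (a b : V) : Par Γ o p a b ↔ f i a = f i b := by
  constructor
  · rintro (rfl | ⟨hab, h⟩)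
    · rfl
    · obtain ⟨hab', t, ht⟩ := (hN.adj _ _).1 hab
      by_cases hti : t = i
      · rw [← hti]; exact ht
      rcases h with h | ⟨h1, h2⟩
      · exfalso
        obtain ⟨w, hw1, hw2⟩ := hN.surj i t (Ne.symm hti) (f i o) (f t a)
        exact h w ((hN.col_iff hop hi w).2 hw1) ((hN.col_iff hab' ht w).2 hw2)
      · rw [(hN.col_iff hop hi a).1 h1, (hN.col_iff hop hi b).1 h2]
  · intro hab
    by_cases hab' : a = b
    · exact Or.inl hab'
    refine Or.inr ⟨(hN.adj _ _).2 ⟨hab', i, hab⟩, ?_⟩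
    by_cases hao : f i a = f i o
    · right
      exact ⟨(hN.col_iff hop hi a).2 hao, (hN.col_iff hop hi b).2 (by rw [← hab, hao])⟩
    · left
      intro w hw1 hw2
      rw [hN.col_iff hop hi w] at hw1
      rw [hN.col_iff hab' hab w] at hw2
      exact hao (by rw [← hw2, hw1])

end net

section group

variable {Q : Type} [Group Q]

/-- The coordinates of a cell of a group table. -/
def crd : Fin 3 → Q × Q → Q
  | 0 => Prod.fst
  | 1 => Prod.snd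
  | 2 => fun v => v.1 * v.2

theorem isNet [Fintype Q] (hQ : 5 ≤ Fintype.card Q) :
    IsNet (latinGraph fun a b : Q => a * b) (crd (Q := Q)) := by
  classical
  have hinj : ∀ i j : Fin 3, i ≠ j → ∀ u v : Q × Q, crd i u = crd i v → crd j u = crd j v →
      u = v := by
    rintro i j hij ⟨a, b⟩ ⟨c, d⟩ h1 h2
    fin_cases i <;> fin_cases j <;> simp_all [crd]
  have hsurj : ∀ i j : Fin 3, i ≠ j → ∀ s t : Q, ∃ v : Q × Q, crd i v = s ∧ crd j v = t := by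
    intro i j hij s t
    fin_cases i <;> fin_cases j
    · exact absurd rfl hij
    · exact ⟨(s, t), rfl, rfl⟩
    · exact ⟨(s, s⁻¹ * t), rfl, by simp [crd]⟩
    · exact ⟨(t, s), rfl, rfl⟩
    · exact absurd rfl hij
    · exact ⟨(t * s⁻¹, s), rfl, by simp [crd]⟩
    · exact ⟨(t, t⁻¹ * s), by simp [crd], rfl⟩
    · exact ⟨(s * t⁻¹, t), by simp [crd], rfl⟩
    · exact absurd rfl hij
  refine ⟨hinj, hsurj, ?_, ?_⟩
  · intro u v
    constructor
    · rintro ⟨h1, h2 | h2 | h2⟩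
      · exact ⟨h1, 0, h2⟩
      · exact ⟨h1, 1, h2⟩
      · exact ⟨h1, 2, h2⟩
    · rintro ⟨h1, i, hi⟩
      refine ⟨h1, ?_⟩
      fin_cases i
      · exact Or.inl hi
      · exact Or.inr (Or.inl hi)
      · exact Or.inr (Or.inr hi)
  · intro i a b w
    obtain ⟨j, hij⟩ : ∃ j : Fin 3, i ≠ j := by
      fin_cases i
      · exact ⟨1, by decide⟩
      · exact ⟨0, by decide⟩
      · exact ⟨0, by decide⟩
    let S : Finset Q := Finset.univ \ {crd j a, crd j b, crd j w}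
    have hS : 1 < S.card := by
      have h1 : ({crd j a, crd j b, crd j w} : Finset Q).card ≤ 3 := Finset.card_le_three
      have h2 := Finset.le_card_sdiff ({crd j a, crd j b, crd j w} : Finset Q) Finset.univ
      rw [Finset.card_univ] at h2
      show 1 < (Finset.univ \ {crd j a, crd j b, crd j w}).card
      omega
    obtain ⟨s, hs, t, ht, hst⟩ := Finset.one_lt_card.1 hS
    have hs' : s ≠ crd j a ∧ s ≠ crd j b ∧ s ≠ crd j w := by
      simpa [S] using hs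
    have ht' : t ≠ crd j a ∧ t ≠ crd j b ∧ t ≠ crd j w := by
      simpa [S] using ht
    obtain ⟨x, hx1, hx2⟩ := hsurj i j hij (crd i a) s
    obtain ⟨y, hy1, hy2⟩ := hsurj i j hij (crd i a) t
    refine ⟨x, y, ?_, ⟨hx1, ?_, ?_, ?_⟩, hy1, ?_, ?_, ?_⟩
    · rintro rfl; exact hst (by rw [← hx2, ← hy2])
    · rintro rfl; exact hs'.1 hx2.symm
    · rintro rfl; exact hs'.2.1 hx2.symm
    · rintro rfl; exact hs'.2.2 hx2.symm
    · rintro rfl; exact ht'.1 hy2.symm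
    · rintro rfl; exact ht'.2.1 hy2.symm
    · rintro rfl; exact ht'.2.2 hy2.symm

section frame

variable [Fintype Q] (hQ : 5 ≤ Fintype.card Q) {g : Q} (hg : g ≠ 1)

include hQ hg

theorem row_iff (a b : Q × Q) :
    Par (latinGraph fun a b : Q => a * b) (1, 1) (1, g) a b ↔ a.1 = b.1 :=
  (isNet hQ).par_iff (i := 0) (o := (1, 1)) (p := (1, g))
    (fun h => hg (congrArg Prod.snd h).symm) rfl a b

theorem col_iff (a b : Q × Q) :
    Par (latinGraph fun a b : Q => a * b) (1, 1) (g, 1) a b ↔ a.2 = b.2 :=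
  (isNet hQ).par_iff (i := 1) (o := (1, 1)) (p := (g, 1))
    (fun h => hg (congrArg Prod.fst h).symm) rfl a b

theorem sym_iff (a b : Q × Q) :
    Par (latinGraph fun a b : Q => a * b) (1, 1) (g, g⁻¹) a b ↔ a.1 * a.2 = b.1 * b.2 :=
  (isNet hQ).par_iff (i := 2) (fun h => hg (congrArg Prod.fst h).symm) (by simp [crd]) a b

theorem ridx_iff (v x : Q × Q) :
    RIdx (latinGraph fun a b : Q => a * b) (1, 1) (1, g) (g, 1) (g, g⁻¹) v x ↔
      x = (1, v.1) := by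
  unfold RIdx
  simp only [row_iff hQ hg, col_iff hQ hg, sym_iff hQ hg]
  obtain ⟨a, b⟩ := v
  obtain ⟨c, d⟩ := x
  constructor
  · rintro ⟨h1, ⟨e, e'⟩, h2, h3, h4⟩
    simp only at h1 h2 h3 h4
    subst h1 h2 h3
    simp only [one_mul, mul_one] at h4
    rw [h4]
  · intro h
    simp only [Prod.mk.injEq] at h
    obtain ⟨rfl, rfl⟩ := h
    exact ⟨rfl, (d, 1), rfl, rfl, by simp⟩

theorem cidx_iff (v x : Q × Q) :
    CIdx (latinGraph fun a b : Q => a * b) (1, 1) (1, g) (g, 1) v x ↔ x = (1, v.2) := by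
  unfold CIdx
  simp only [row_iff hQ hg, col_iff hQ hg]
  obtain ⟨a, b⟩ := v
  obtain ⟨c, d⟩ := x
  simp only [Prod.mk.injEq]
  constructor
  · rintro ⟨rfl, rfl⟩; exact ⟨rfl, rfl⟩
  · rintro ⟨rfl, rfl⟩; exact ⟨rfl, rfl⟩

theorem sidx_iff (v x : Q × Q) :
    SIdx (latinGraph fun a b : Q => a * b) (1, 1) (1, g) (g, g⁻¹) v x ↔
      x = (1, v.1 * v.2) := by
  unfold SIdx
  simp only [row_iff hQ hg, sym_iff hQ hg]
  obtain ⟨a, b⟩ := v
  obtain ⟨c, d⟩ := x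
  simp only [Prod.mk.injEq]
  constructor
  · rintro ⟨rfl, h⟩; exact ⟨rfl, by rw [h, one_mul]⟩
  · rintro ⟨rfl, rfl⟩; exact ⟨rfl, by simp⟩

theorem mul_iff (x y z : Q × Q) :
    Mul (latinGraph fun a b : Q => a * b) (1, 1) (1, g) (g, 1) (g, g⁻¹) x y z ↔
      x.1 = 1 ∧ y.1 = 1 ∧ z.1 = 1 ∧ x.2 * y.2 = z.2 := by
  unfold Mul
  simp only [ridx_iff hQ hg, cidx_iff hQ hg, sidx_iff hQ hg]
  constructor
  · rintro ⟨v, rfl, rfl, rfl⟩
    exact ⟨rfl, rfl, rfl, rfl⟩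
  · obtain ⟨x1, x2⟩ := x
    obtain ⟨y1, y2⟩ := y
    obtain ⟨z1, z2⟩ := z
    simp only
    rintro ⟨rfl, rfl, rfl, rfl⟩
    exact ⟨(x2, y2), rfl, rfl, rfl⟩

theorem lf_latin :
    LF (latinGraph fun a b : Q => a * b) (1, 1) (1, g) (g, 1) (g, g⁻¹) where
  rex v := ⟨(1, v.1), (ridx_iff hQ hg _ _).2 rfl⟩
  run v x y hx hy := by
    rw [ridx_iff hQ hg] at hx hy; rw [hx, hy]
  cex v := ⟨(1, v.2), (cidx_iff hQ hg _ _).2 rfl⟩
  cun v x y hx hy := by
    rw [cidx_iff hQ hg] at hx hy; rw [hx, hy]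
  sex v := ⟨(1, v.1 * v.2), (sidx_iff hQ hg _ _).2 rfl⟩
  sun v x y hx hy := by
    rw [sidx_iff hQ hg] at hx hy; rw [hx, hy]
  cell x y hx hy := by
    rw [row_iff hQ hg] at hx hy
    refine ⟨(x.2, y.2), ?_, ?_⟩
    · rw [ridx_iff hQ hg]
      exact Prod.ext hx.symm rfl
    · rw [cidx_iff hQ hg]
      exact Prod.ext hy.symm rfl
  inj v w x y h1 h2 h3 h4 := by
    rw [ridx_iff hQ hg] at h1 h2
    rw [cidx_iff hQ hg] at h3 h4
    have h5 := congrArg Prod.snd (h1.symm.trans h2)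
    have h6 := congrArg Prod.snd (h3.symm.trans h4)
    exact Prod.ext h5 h6
  adj v w := by
    simp only [ridx_iff hQ hg, cidx_iff hQ hg, sidx_iff hQ hg]
    constructor
    · rintro ⟨h1, h2 | h2 | h2⟩
      · exact ⟨h1, Or.inl ⟨_, rfl, by rw [h2]⟩⟩
      · exact ⟨h1, Or.inr (Or.inl ⟨_, rfl, by rw [h2]⟩)⟩
      · exact ⟨h1, Or.inr (Or.inr ⟨_, rfl, by rw [show v.1 * v.2 = w.1 * w.2 from h2]⟩)⟩
    · rintro ⟨h1, ⟨x, h2, h3⟩ | ⟨x, h2, h3⟩ | ⟨x, h2, h3⟩⟩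
      · exact ⟨h1, Or.inl (Prod.ext_iff.1 (h2.symm.trans h3)).2⟩
      · exact ⟨h1, Or.inr (Or.inl (Prod.ext_iff.1 (h2.symm.trans h3)).2)⟩
      · exact ⟨h1, Or.inr (Or.inr (Prod.ext_iff.1 (h2.symm.trans h3)).2)⟩
  assoc x y z u v w h1 h2 h3 := by
    rw [mul_iff hQ hg] at h1 h2 h3 ⊢
    refine ⟨h1.1, h3.2.2.1, h2.2.2.1, ?_⟩
    rw [← h3.2.2.2, ← h2.2.2.2, ← h1.2.2.2, mul_assoc]
  one x hx := by
    rw [row_iff hQ hg] at hx
    rw [mul_iff hQ hg]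
    exact ⟨rfl, hx.symm, hx.symm, one_mul _⟩
  inv x hx := by
    rw [row_iff hQ hg] at hx
    refine ⟨(1, x.2⁻¹), ?_⟩
    rw [mul_iff hQ hg]
    exact ⟨rfl, hx.symm, rfl, inv_mul_cancel _⟩

end frame

end group

end Pool.Agent.Helper950.WL
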