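import Mathlib
import Pool.Agent.Helper950.WL.Net
import Pool.Agent.Helper950.WL.GrpMain

/-!
# From a graph that looks like a group table to a group
-/

set_option autoImplicit false

namespace Pool.Agent.Helper950.WL

open Pool.Agent.W185.LSQ Pool.Agent.W185.SRG

theorem exists_group {V : Type} {Γ : SimpleGraph V} {o p q r : V} (hF : LF Γ o p q r) :
    ∃ (_ : Group {x : V // Par Γ o p o x}),
      (∀ x y z : {x : V // Par Γ o p o x}, Mul Γ o p q r x y z ↔ x * y = z) ∧
      Nonempty (Γ ≃g latinGraph fun a b : {x : V // Par Γ o p o x} => a * b) := by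
  classical
  have hex : ∀ x y : {x : V // Par Γ o p o x}, ∃ z : {x : V // Par Γ o p o x},
      Mul Γ o p q r x y z := by
    intro x y
    obtain ⟨v, hv1, hv2⟩ := hF.cell x y x.2 y.2
    obtain ⟨z, hz⟩ := hF.sex v
    exact ⟨⟨z, hz.1⟩, v, hv1, hv2, hz⟩
  have hun : ∀ x y z z', Mul Γ o p q r x y z → Mul Γ o p q r x y z' → z = z' := by
    rintro x y z z' ⟨v, h1, h2, h3⟩ ⟨v', h1', h2', h3'⟩
    have : v = v' := hF.inj v v' x y h1 h1' h2 h2'
    subst this
    exact hF.sun v z z' h3 h3'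
  choose mul hmul using hex
  have hspec : ∀ x y z : {x : V // Par Γ o p o x}, Mul Γ o p q r x y z ↔ mul x y = z := by
    intro x y z
    constructor
    · intro h
      exact Subtype.ext (hun _ _ _ _ (hmul x y) h)
    · rintro rfl
      exact hmul x y
  have hinv : ∀ x : {x : V // Par Γ o p o x}, ∃ y : {x : V // Par Γ o p o x},
      Mul Γ o p q r y x o := by
    intro x
    obtain ⟨y, hy⟩ := hF.inv x x.2
    obtain ⟨v, hv, -⟩ := id hy
    exact ⟨⟨y, hv.1⟩, hy⟩
  choose inv hinv using hinv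
  let e : {x : V // Par Γ o p o x} := ⟨o, Or.inl rfl⟩
  let _ : _root_.Mul {x : V // Par Γ o p o x} := ⟨mul⟩
  let _ : Inv {x : V // Par Γ o p o x} := ⟨inv⟩
  let _ : One {x : V // Par Γ o p o x} := ⟨e⟩
  let grp : Group {x : V // Par Γ o p o x} := Group.ofLeftAxioms
    (fun a b c => ((hspec a (mul b c) (mul (mul a b) c)).1
      (hF.assoc a b c (mul a b) (mul (mul a b) c) (mul b c) (hmul _ _) (hmul _ _)
        (hmul _ _))).symm)
    (fun a => (hspec e a a).1 (hF.one a a.2))
    (fun a => (hspec (inv a) a e).1 (hinv a))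
  refine ⟨grp, hspec, ?_⟩
  choose R hR using hF.rex
  choose C hC using hF.cex
  choose S hS using hF.sex
  have hRe : ∀ v w, (∃ x, RIdx Γ o p q r v x ∧ RIdx Γ o p q r w x) ↔ R v = R w := by
    intro v w
    constructor
    · rintro ⟨x, h1, h2⟩
      rw [hF.run v _ _ (hR v) h1, hF.run w _ _ (hR w) h2]
    · intro h
      exact ⟨R v, hR v, by rw [h]; exact hR w⟩
  have hCe : ∀ v w, (∃ x, CIdx Γ o p q v x ∧ CIdx Γ o p q w x) ↔ C v = C w := by
    intro v w
    constructor
    · rintro ⟨x, h1, h2⟩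
      rw [hF.cun v _ _ (hC v) h1, hF.cun w _ _ (hC w) h2]
    · intro h
      exact ⟨C v, hC v, by rw [h]; exact hC w⟩
  have hSe : ∀ v w, (∃ x, SIdx Γ o p r v x ∧ SIdx Γ o p r w x) ↔ S v = S w := by
    intro v w
    constructor
    · rintro ⟨x, h1, h2⟩
      rw [hF.sun v _ _ (hS v) h1, hF.sun w _ _ (hS w) h2]
    · intro h
      exact ⟨S v, hS v, by rw [h]; exact hS w⟩
  have hSRC : ∀ v, mul ⟨R v, (hR v).1⟩ ⟨C v, (hC v).1⟩ = ⟨S v, (hS v).1⟩ := fun v =>
    (hspec _ _ _).1 ⟨v, hR v, hC v, hS v⟩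
  let F : V → {x : V // Par Γ o p o x} × {x : V // Par Γ o p o x} := fun v =>
    (⟨R v, (hR v).1⟩, ⟨C v, (hC v).1⟩)
  have hF1 : Function.Bijective F := by
    constructor
    · intro v w h
      have h1 : R v = R w := congrArg Subtype.val (congrArg Prod.fst h)
      have h2 : C v = C w := congrArg Subtype.val (congrArg Prod.snd h)
      exact hF.inj v w (R v) (C v) (hR v) (by rw [h1]; exact hR w) (hC v)
        (by rw [h2]; exact hC w)
    · rintro ⟨x, y⟩
      obtain ⟨v, hv1, hv2⟩ := hF.cell x y x.2 y.2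
      refine ⟨v, Prod.ext (Subtype.ext ?_) (Subtype.ext ?_)⟩
      · exact hF.run v _ _ (hR v) hv1
      · exact hF.cun v _ _ (hC v) hv2
  refine ⟨⟨Equiv.ofBijective F hF1, ?_⟩⟩
  intro v w
  rw [hF.adj v w, hRe, hCe, hSe]
  show (F v ≠ F w ∧ ((F v).1 = (F w).1 ∨ (F v).2 = (F w).2 ∨
    mul (F v).1 (F v).2 = mul (F w).1 (F w).2)) ↔ _
  rw [show mul (F v).1 (F v).2 = ⟨S v, (hS v).1⟩ from hSRC v,
    show mul (F w).1 (F w).2 = ⟨S w, (hS w).1⟩ from hSRC w, hF1.1.ne_iff]
  simp only [F, Subtype.mk.injEq]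

theorem exists_game {G : Type} [Group G] [Fintype G] (h5 : 5 ≤ Fintype.card G) {W : Type}
    [Fintype W] (Y : SimpleGraph W) {k : ℕ} (hk : 15 ≤ k)
    (h : WLEquivalent k (latinGraph fun a b : G => a * b) Y) :
    ∃ (H : Type) (_ : Group H) (_ : Finite H) (P : List (G × H) → Prop),
      GGame (k - 9) P ∧ P [] ∧ Nonempty (Y ≃g latinGraph fun a b : H => a * b) := by
  classical
  obtain ⟨g, hg⟩ : ∃ g : G, g ≠ 1 := by
    have : Nontrivial G := Fintype.one_lt_card_iff_nontrivial.1 (by omega)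
    exact exists_ne 1
  have hP0 := Pos.nil h
  obtain ⟨φ1, hφ1⟩ := hP0.ext (by simp only [List.length_nil]; omega)
  obtain ⟨φ2, hφ2⟩ := (hφ1 (g, g⁻¹)).ext (by simp only [List.length_cons, List.length_nil]; omega)
  obtain ⟨φ3, hφ3⟩ := (hφ2 (g, 1)).ext (by simp only [List.length_cons, List.length_nil]; omega)
  obtain ⟨φ4, hφ4⟩ := (hφ3 (1, g)).ext (by simp only [List.length_cons, List.length_nil]; omega)
  have hbase := hφ4 (1, 1)
  generalize φ4 (1, 1) = o' at hbase
  generalize φ3 (1, g) = p' at hbase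
  generalize φ2 (g, 1) = q' at hbase
  generalize φ1 (g, g⁻¹) = r' at hbase
  clear hφ1 hφ2 hφ3 hφ4
  set base : List ((G × G) × W) := [((1, 1), o'), ((1, g), p'), ((g, 1), q'), ((g, g⁻¹), r')]
    with hbdef
  have hblen : base.length = 4 := rfl
  have hbo : ((1, 1), o') ∈ base := by simp [hbdef]
  have hbp : ((1, g), p') ∈ base := by simp [hbdef]
  have hbq : ((g, 1), q') ∈ base := by simp [hbdef]
  have hbr : ((g, g⁻¹), r') ∈ base := by simp [hbdef]
  have hF : LF Y o' p' q' r' :=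
    LF_tr hbase (by omega) hbo hbp hbq hbr (lf_latin h5 hg)
  obtain ⟨grp, hmul, hiso⟩ := exists_group hF
  refine ⟨{x : W // Par Y o' p' o' x}, grp, inferInstance,
    fun L => Pos k (latinGraph fun a b : G => a * b) Y
      (L.map (fun t => (((1 : G), t.1), (t.2 : W))) ++ base), ⟨?_, ?_, ?_, ?_⟩, hbase, hiso⟩
  · intro L hL hlen
    have hlen' : (L.map (fun t : G × {x : W // Par Y o' p' o' x} =>
        (((1 : G), t.1), (t.2 : W))) ++ base).length = L.length + 4 := by
      rw [List.length_append, List.length_map, hblen]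
    obtain ⟨φ, hφ⟩ := hL.ext (by omega)
    have hrow : ∀ x : G × G, Par (latinGraph fun a b : G => a * b) (1, 1) (1, g) (1, 1) x ↔
        Par Y o' p' o' (φ x) := by
      intro x
      exact Par_tr (hφ x) (by simp only [List.length_cons]; omega)
        (List.mem_cons_of_mem _ (List.mem_append_right _ hbo))
        (List.mem_cons_of_mem _ (List.mem_append_right _ hbp))
        (List.mem_cons_of_mem _ (List.mem_append_right _ hbo)) List.mem_cons_self
    let e1 : G ≃ {x : G × G // Par (latinGraph fun a b : G => a * b) (1, 1) (1, g) (1, 1) x} :=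
      { toFun := fun x => ⟨(1, x), (row_iff h5 hg _ _).2 rfl⟩
        invFun := fun x => x.1.2
        left_inv := fun x => rfl
        right_inv := fun x => Subtype.ext
          (Prod.ext (show (1 : G) = x.1.1 from (row_iff h5 hg (1, 1) x.1).1 x.2) rfl) }
    exact ⟨e1.trans (φ.subtypeEquiv hrow), fun x => hφ (1, x)⟩
  · intro L L' hL hsub
    apply hL.sub
    intro t ht
    rcases List.mem_append.1 ht with ht | ht
    · obtain ⟨u, hu, rfl⟩ := List.mem_map.1 ht
      exact List.mem_append_left _ (List.mem_map.2 ⟨u, hsub u hu, rfl⟩)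
    · exact List.mem_append_right _ ht
  · intro L hL a ha b hb
    have h1 := hL.eqP (List.mem_append_left _ (List.mem_map.2 ⟨a, ha, rfl⟩))
      (List.mem_append_left _ (List.mem_map.2 ⟨b, hb, rfl⟩))
    rw [Prod.mk.injEq] at h1
    rw [← Subtype.val_inj, ← h1]
    simp
  · intro L hL hlen a ha b hb c hc
    have hlen' : (L.map (fun t : G × {x : W // Par Y o' p' o' x} =>
        (((1 : G), t.1), (t.2 : W))) ++ base).length = L.length + 4 := by
      rw [List.length_append, List.length_map, hblen]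
    have h1 := Mul_tr hL (by omega) (List.mem_append_right _ hbo)
      (List.mem_append_right _ hbp) (List.mem_append_right _ hbq) (List.mem_append_right _ hbr)
      (List.mem_append_left _ (List.mem_map.2 ⟨a, ha, rfl⟩))
      (List.mem_append_left _ (List.mem_map.2 ⟨b, hb, rfl⟩))
      (List.mem_append_left _ (List.mem_map.2 ⟨c, hc, rfl⟩))
    rw [mul_iff h5 hg, hmul] at h1
    rw [← h1]
    simp

theorem latin_iso {G H : Type} [Group G] [Group H] (e : G ≃* H) :
    Nonempty ((latinGraph fun a b : G => a * b) ≃g latinGraph fun a b : H => a * b) := by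
  refine ⟨⟨Equiv.prodCongr e.toEquiv e.toEquiv, ?_⟩⟩
  rintro ⟨a, b⟩ ⟨c, d⟩
  show (((e a, e b) : H × H) ≠ (e c, e d) ∧ (e a = e c ∨ e b = e d ∨ e a * e b = e c * e d)) ↔
    ((a, b) ≠ (c, d) ∧ (a = c ∨ b = d ∨ a * b = c * d))
  rw [← map_mul, ← map_mul, e.injective.eq_iff, e.injective.eq_iff, e.injective.eq_iff,
    Ne, Ne, Prod.mk.injEq, Prod.mk.injEq, e.injective.eq_iff, e.injective.eq_iff]

/-- The main theorem. -/
theorem main {G : Type} [Group G] [Fintype G] {d s : ℕ} (hs : 1 ≤ s) (X : Fin d → G)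
    {R M : Type} [Ring R] (hR : Small s R) [AddCommGroup M] [Module R M] (ι : M → G)
    (hι : Function.Injective ι) (hadd : ∀ a b, ι (a + b) = ι a * ι b)
    (h1 : ∀ g, ∃ r : R, ∀ a, g * ι a * g⁻¹ = ι (r • a))
    (h2 : ∀ r : R, ∃ l : List G, ∀ a, ι (r • a) = (l.map fun g => g * ι a * g⁻¹).prod)
    (hgen : ∀ g, ∃ a, ∃ x ∈ Subgroup.closure (Set.range X), g = ι a * x)
    {k : ℕ} (hk : d + 2 * s + 14 ≤ k) {W : Type} [Fintype W] (Y : SimpleGraph W)
    (h : WLEquivalent k (latinGraph fun a b : G => a * b) Y) :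
    Nonempty ((latinGraph fun a b : G => a * b) ≃g Y) := by
  classical
  rcases Nat.lt_or_ge (Fintype.card G) 5 with h5 | h5
  · apply (Pos.nil h).iso_of_card_le
    rw [Fintype.card_prod]
    have : Fintype.card G * Fintype.card G ≤ 4 * 4 := Nat.mul_le_mul (by omega) (by omega)
    omega
  · obtain ⟨H, _, _, P, hG, hP, ⟨e⟩⟩ := exists_game h5 Y (by omega) h
    have hset : {x | x ∈ List.ofFn X} = Set.range X := by
      ext x
      simp [List.mem_ofFn']
    obtain ⟨f⟩ := group_iso hG hP (List.ofFn X) (by rw [List.length_ofFn]; omega)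
      (by rw [List.length_ofFn]; omega) hR ι hι hadd h1 h2 (by rw [hset]; exact hgen)
    obtain ⟨f'⟩ := latin_iso f
    exact ⟨f'.trans e.symm⟩

end Pool.Agent.Helper950.WL
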