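import Mathlib
import Pool.Agent.Helper950.WL.Grp

/-!
# Groups that act faithfully on a product of groups which they permute
-/

set_option autoImplicit false

namespace Pool.Agent.Helper950.WL

section

variable {G : Type} [Group G] {m s r : ℕ}

/-- The subgroups `T i` commute with each other, are generated by the `c i l`, are not trivial,
have trivial common centralizer and are permuted by conjugation. An element of `T i` that commutes
with the `T i`-conjugates of the `c i (ρ l)` is trivial. -/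
structure Fac (T : Fin m → Subgroup G) (c : Fin m → Fin s → G) (ρ : Fin r → Fin s) : Prop where
  comm : ∀ i j, i ≠ j → ∀ x ∈ T i, ∀ y ∈ T j, x * y = y * x
  gen : ∀ i, T i = Subgroup.closure (Set.range (c i))
  ne : ∀ i, T i ≠ ⊥
  cent : ∀ x, (∀ i, ∀ y ∈ T i, x * y = y * x) → x = 1
  perm : ∀ (g : G) (i : Fin m), ∃ j, ∀ x, x ∈ T i ↔ g * x * g⁻¹ ∈ T j
  nc : ∀ i, ∀ x ∈ T i, (∀ l, ∀ y ∈ T i,
    x * (y * c i (ρ l) * y⁻¹) = (y * c i (ρ l) * y⁻¹) * x) → x = 1

/-- `w` acts on the factors in `S` like the elements `a i`, and trivially on the others. -/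
structure IsW (T : Fin m → Subgroup G) (a : Fin m → G) (S : Finset (Fin m)) (w : G) : Prop where
  mem : ∀ i, a i ∈ T i
  act : ∀ i ∈ S, ∀ y ∈ T i, w * y * w⁻¹ = a i * y * (a i)⁻¹
  triv : ∀ i, i ∉ S → ∀ y ∈ T i, w * y = y * w

variable {T : Fin m → Subgroup G} {c : Fin m → Fin s → G} {ρ : Fin r → Fin s}

theorem IsW.inv_act {e : Fin m → G} {g : G} (h : IsW T e Finset.univ g) (i : Fin m) {y : G}
    (hy : y ∈ T i) : g⁻¹ * y * g = (e i)⁻¹ * y * e i := by
  have hz : (e i)⁻¹ * y * e i ∈ T i := mul_mem (mul_mem (inv_mem (h.mem i)) hy) (h.mem i)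
  have h1 := h.act i (Finset.mem_univ i) _ hz
  have h2 : g * ((e i)⁻¹ * y * e i) * g⁻¹ = y := by rw [h1]; group
  calc g⁻¹ * y * g = g⁻¹ * (g * ((e i)⁻¹ * y * e i) * g⁻¹) * g := by rw [h2]
    _ = _ := by group

theorem IsW.conj {e a : Fin m → G} {g w : G} {S : Finset (Fin m)} (hg : IsW T e Finset.univ g)
    (hw : IsW T a S w) : IsW T (fun i => e i * a i * (e i)⁻¹) S (g * w * g⁻¹) := by
  refine ⟨fun i => mul_mem (mul_mem (hg.mem i) (hw.mem i)) (inv_mem (hg.mem i)), ?_, ?_⟩
  · intro i hi y hy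
    have h1 := hg.inv_act i hy
    have hz : (e i)⁻¹ * y * e i ∈ T i := mul_mem (mul_mem (inv_mem (hg.mem i)) hy) (hg.mem i)
    have h2 := hw.act i hi _ hz
    have hz2 : a i * ((e i)⁻¹ * y * e i) * (a i)⁻¹ ∈ T i :=
      mul_mem (mul_mem (hw.mem i) hz) (inv_mem (hw.mem i))
    have h3 := hg.act i (Finset.mem_univ i) _ hz2
    calc g * w * g⁻¹ * y * (g * w * g⁻¹)⁻¹ = g * (w * (g⁻¹ * y * g) * w⁻¹) * g⁻¹ := by group
      _ = g * (a i * ((e i)⁻¹ * y * e i) * (a i)⁻¹) * g⁻¹ := by rw [h1, h2]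
      _ = e i * (a i * ((e i)⁻¹ * y * e i) * (a i)⁻¹) * (e i)⁻¹ := h3
      _ = _ := by group
  · intro i hi y hy
    have h1 := hg.inv_act i hy
    have hz : g⁻¹ * y * g ∈ T i := by
      rw [h1]; exact mul_mem (mul_mem (inv_mem (hg.mem i)) hy) (hg.mem i)
    have h2 := hw.triv i hi _ hz
    calc g * w * g⁻¹ * y = g * (w * (g⁻¹ * y * g)) * g⁻¹ := by group
      _ = g * ((g⁻¹ * y * g) * w) * g⁻¹ := by rw [h2]
      _ = y * (g * w * g⁻¹) := by group

theorem IsW.mul' {e a : Fin m → G} {g w : G} (hg : IsW T e Finset.univ g)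
    (hw : IsW T a Finset.univ w) : IsW T (fun i => e i * a i) Finset.univ (g * w) := by
  refine ⟨fun i => mul_mem (hg.mem i) (hw.mem i), ?_, fun i hi => absurd (Finset.mem_univ i) hi⟩
  intro i hi y hy
  have h2 := hw.act i hi _ hy
  have hz2 : a i * y * (a i)⁻¹ ∈ T i := mul_mem (mul_mem (hw.mem i) hy) (inv_mem (hw.mem i))
  have h3 := hg.act i hi _ hz2
  calc g * w * y * (g * w)⁻¹ = g * (w * y * w⁻¹) * g⁻¹ := by group
    _ = e i * (a i * y * (a i)⁻¹) * (e i)⁻¹ := by rw [h2, h3]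
    _ = _ := by group

theorem IsW.inv' {e : Fin m → G} {g : G} (hg : IsW T e Finset.univ g) :
    IsW T (fun i => (e i)⁻¹) Finset.univ g⁻¹ := by
  refine ⟨fun i => inv_mem (hg.mem i), ?_, fun i hi => absurd (Finset.mem_univ i) hi⟩
  intro i _ y hy
  rw [inv_inv, inv_inv]
  exact hg.inv_act i hy

theorem IsW.one' : IsW T (fun _ => (1 : G)) Finset.univ 1 :=
  ⟨fun _ => one_mem _, fun i _ y _ => by group, fun i hi => absurd (Finset.mem_univ i) hi⟩

variable (hF : Fac T c ρ)

include hF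

theorem Fac.mem (i : Fin m) (l : Fin s) : c i l ∈ T i := by
  rw [hF.gen i]
  exact Subgroup.subset_closure ⟨l, rfl⟩

theorem Fac.unique {S : Finset (Fin m)} {a : Fin m → G} {w w' : G} (h : IsW T a S w)
    (h' : IsW T a S w') : w = w' := by
  have h1 : w'⁻¹ * w = 1 := by
    apply hF.cent
    intro i y hy
    by_cases hi : i ∈ S
    · have h2 : w * y * w⁻¹ = w' * y * w'⁻¹ := by rw [h.act i hi y hy, h'.act i hi y hy]
      calc w'⁻¹ * w * y = w'⁻¹ * (w * y * w⁻¹) * w := by group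
        _ = w'⁻¹ * (w' * y * w'⁻¹) * w := by rw [h2]
        _ = y * (w'⁻¹ * w) := by group
    · have h2 := h.triv i hi y hy
      have h3 := h'.triv i hi y hy
      calc w'⁻¹ * w * y = w'⁻¹ * (w * y) := by group
        _ = w'⁻¹ * (y * w) := by rw [h2]
        _ = w'⁻¹ * (y * w') * w'⁻¹ * w := by group
        _ = w'⁻¹ * (w' * y) * w'⁻¹ * w := by rw [h3]
        _ = y * (w'⁻¹ * w) := by group
  rw [inv_mul_eq_one] at h1
  exact h1.symm

theorem Fac.insert {S : Finset (Fin m)} {a : Fin m → G} {w : G} (hw : IsW T a S w) {j : Fin m}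
    (hj : j ∉ S) : IsW T a (Insert.insert j S) (w * a j) := by
  refine ⟨hw.mem, ?_, ?_⟩
  · intro i hi y hy
    rcases Finset.mem_insert.1 hi with rfl | hi
    · have hy' : a i * y * (a i)⁻¹ ∈ T i :=
        mul_mem (mul_mem (hw.mem i) hy) (inv_mem (hw.mem i))
      have h1 := hw.triv i hj _ hy'
      calc w * a i * y * (w * a i)⁻¹ = (w * (a i * y * (a i)⁻¹)) * w⁻¹ := by group
        _ = ((a i * y * (a i)⁻¹) * w) * w⁻¹ := by rw [h1]
        _ = _ := by group
    · have hij : j ≠ i := by rintro rfl; exact hj hi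
      have h1 := hF.comm j i hij _ (hw.mem j) y hy
      calc w * a j * y * (w * a j)⁻¹ = w * (a j * y) * (a j)⁻¹ * w⁻¹ := by group
        _ = w * (y * a j) * (a j)⁻¹ * w⁻¹ := by rw [h1]
        _ = w * y * w⁻¹ := by group
        _ = _ := hw.act i hi y hy
  · intro i hi y hy
    rw [Finset.mem_insert, not_or] at hi
    have h1 := hF.comm j i (Ne.symm hi.1) _ (hw.mem j) y hy
    have h2 := hw.triv i hi.2 y hy
    calc w * a j * y = w * (a j * y) := by group
      _ = w * y * a j := by rw [h1]; group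
      _ = y * (w * a j) := by rw [h2]; group

theorem Fac.exW (S : Finset (Fin m)) {a : Fin m → G} (ha : ∀ i, a i ∈ T i) :
    ∃ w, IsW T a S w ∧ w ∈ ⨆ i ∈ S, T i := by
  classical
  induction S using Finset.induction_on with
  | empty =>
    refine ⟨1, ⟨ha, ?_, ?_⟩, one_mem _⟩
    · intro i hi
      simp at hi
    · intro i _ y _
      simp
  | insert j S hj ih =>
    obtain ⟨w, hw, hw'⟩ := ih
    refine ⟨w * a j, hF.insert hw hj, ?_⟩
    have hle : (⨆ i ∈ S, T i) ≤ ⨆ i ∈ Insert.insert j S, T i :=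
      biSup_mono fun i hi => Finset.mem_insert_of_mem hi
    have hj' : T j ≤ ⨆ i ∈ Insert.insert j S, T i :=
      le_biSup T (Finset.mem_insert_self j S)
    exact mul_mem (hle hw') (hj' (ha j))

omit hF in
theorem compl {S : Finset (Fin m)} {a : Fin m → G} {w v : G} (hw : IsW T a Finset.univ w)
    (hv : IsW T a S v) : IsW T a (Finset.univ \ S) (w * v⁻¹) := by
  refine ⟨hw.mem, ?_, ?_⟩
  · intro i hi y hy
    have hi' : i ∉ S := by simpa using hi
    have h1 := hv.triv i hi' y hy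
    calc w * v⁻¹ * y * (w * v⁻¹)⁻¹ = w * (v⁻¹ * (y * v)) * w⁻¹ := by group
      _ = w * (v⁻¹ * (v * y)) * w⁻¹ := by rw [h1]
      _ = w * y * w⁻¹ := by group
      _ = _ := hw.act i (Finset.mem_univ i) y hy
  · intro i hi y hy
    have hi' : i ∈ S := by simpa using hi
    have hz : (a i)⁻¹ * y * a i ∈ T i :=
      mul_mem (mul_mem (inv_mem (hw.mem i)) hy) (hw.mem i)
    have h1 := hv.act i hi' _ hz
    have h2 : v * ((a i)⁻¹ * y * a i) * v⁻¹ = y := by rw [h1]; group
    have h3 : v⁻¹ * y * v = (a i)⁻¹ * y * a i := by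
      calc v⁻¹ * y * v = v⁻¹ * (v * ((a i)⁻¹ * y * a i) * v⁻¹) * v := by rw [h2]
        _ = _ := by group
    have h4 := hw.act i (Finset.mem_univ i) _ hz
    have h5 : w * (v⁻¹ * y * v) * w⁻¹ = y := by rw [h3, h4]; group
    calc w * v⁻¹ * y = (w * (v⁻¹ * y * v) * w⁻¹) * w * v⁻¹ := by group
      _ = y * (w * v⁻¹) := by rw [h5]; group

/-- A subgroup that contains the diagonal elements projects onto every factor. -/
theorem Fac.diag (K : Subgroup G)
    (hW : ∀ l, ∃ w ∈ K, IsW T (fun i => c i l) Finset.univ w) (i : Fin m) {y : G} (hy : y ∈ T i) :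
    ∃ g ∈ K, ∃ e : Fin m → G, IsW T e Finset.univ g ∧ e i = y := by
  rw [hF.gen i] at hy
  refine Subgroup.closure_induction (p := fun y _ => ∃ g ∈ K, ∃ e : Fin m → G,
    IsW T e Finset.univ g ∧ e i = y) ?_ ?_ ?_ ?_ hy
  · rintro _ ⟨l, rfl⟩
    obtain ⟨w, hwK, hw⟩ := hW l
    exact ⟨w, hwK, _, hw, rfl⟩
  · exact ⟨1, one_mem _, _, IsW.one', rfl⟩
  · rintro x y _ _ ⟨g, hgK, e, hg, rfl⟩ ⟨g', hg'K, e', hg', rfl⟩
    exact ⟨g * g', mul_mem hgK hg'K, _, hg.mul' hg', rfl⟩
  · rintro x _ ⟨g, hgK, e, hg, rfl⟩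
    exact ⟨g⁻¹, inv_mem hgK, _, hg.inv', rfl⟩

theorem Fac.centerless {k : Fin m} {v : G} (hv : v ∈ T k) (h1 : ∀ z ∈ T k, v * z = z * v) :
    v = 1 := by
  apply hF.cent
  intro i' y hy
  by_cases h2 : k = i'
  · subst h2
    exact h1 y hy
  · exact hF.comm k i' h2 v hv y hy

/-- An element that commutes with `z` permutes the factors on which `z` acts. -/
theorem Fac.key {S : Finset (Fin m)} {a : Fin m → G} {z : G} (hz : IsW T a S z) {x : G}
    (hx : x * z = z * x) {i k : Fin m} (hi : i ∈ S)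
    (hk : ∀ y, y ∈ T i ↔ x * y * x⁻¹ ∈ T k) :
    (k ∉ S → a i = 1) ∧ (k ∈ S → x * a i * x⁻¹ = a k) := by
  have hmem : x * a i * x⁻¹ ∈ T k := (hk _).1 (hz.mem i)
  -- the action of `z` on `T k`
  have hact : ∀ v ∈ T k, z * v * z⁻¹ = (x * a i * x⁻¹) * v * (x * a i * x⁻¹)⁻¹ := by
    intro v hv
    have hy : x⁻¹ * v * x ∈ T i := by
      rw [hk]
      have : x * (x⁻¹ * v * x) * x⁻¹ = v := by group
      rw [this]; exact hv
    have h1 := hz.act i hi _ hy
    calc z * v * z⁻¹ = (z * x) * (x⁻¹ * v * x) * (z * x)⁻¹ := by group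
      _ = (x * z) * (x⁻¹ * v * x) * (x * z)⁻¹ := by rw [hx]
      _ = x * (z * (x⁻¹ * v * x) * z⁻¹) * x⁻¹ := by group
      _ = x * (a i * (x⁻¹ * v * x) * (a i)⁻¹) * x⁻¹ := by rw [h1]
      _ = _ := by group
  constructor
  · intro hkS
    have h2 : x * a i * x⁻¹ = 1 := by
      apply hF.centerless hmem
      intro v hv
      have h3 := hact v hv
      have h4 := hz.triv k hkS v hv
      have h5 : z * v * z⁻¹ = v := by rw [h4]; group
      rw [h5] at h3
      calc (x * a i * x⁻¹) * v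
          = ((x * a i * x⁻¹) * v * (x * a i * x⁻¹)⁻¹) * (x * a i * x⁻¹) := by group
        _ = v * (x * a i * x⁻¹) := by rw [← h3]
    calc a i = x⁻¹ * (x * a i * x⁻¹) * x := by group
      _ = 1 := by rw [h2]; group
  · intro hkS
    have h1 : (a k)⁻¹ * (x * a i * x⁻¹) = 1 := by
      apply hF.centerless (mul_mem (inv_mem (hz.mem k)) hmem)
      intro v hv
      have h2 := hact v hv
      rw [hz.act k hkS v hv] at h2
      calc (a k)⁻¹ * (x * a i * x⁻¹) * v
          = (a k)⁻¹ * ((x * a i * x⁻¹) * v * (x * a i * x⁻¹)⁻¹) * (x * a i * x⁻¹) := by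
            group
        _ = (a k)⁻¹ * (a k * v * (a k)⁻¹) * (x * a i * x⁻¹) := by rw [h2]
        _ = v * ((a k)⁻¹ * (x * a i * x⁻¹)) := by group
    rw [inv_mul_eq_one] at h1
    exact h1.symm

/-- Different factors intersect trivially. -/
theorem Fac.disj {i j : Fin m} (hij : i ≠ j) {x : G} (hi : x ∈ T i) (hj : x ∈ T j) : x = 1 := by
  apply hF.cent
  intro k y hy
  by_cases hk : i = k
  · subst hk
    exact hF.comm j i (Ne.symm hij) x hj y hy
  · exact hF.comm i k hk x hi y hy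

/-- An element that commutes with the elements of `K` that centralize `T j` centralizes
all other factors. -/
theorem Fac.centralizes {t : ℕ} (code : Fin m → Fin t → Bool) (hcode : Function.Injective code)
    (j : Fin m) (K : Subgroup G)
    (hW : ∀ l, ∃ w ∈ K, IsW T (fun i => c i l) Finset.univ w)
    (hE : ∀ b l, ∃ w ∈ K, IsW T (fun i => c i (ρ l))
      (Finset.univ.filter fun i => code i b ≠ code j b) w) {x : G}
    (hx : ∀ z ∈ K, (∀ y ∈ T j, z * y = y * z) → x * z = z * x) :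
    ∀ i, i ≠ j → ∀ y ∈ T i, x * y = y * x := by
  classical
  choose σ hσ using fun i => hF.perm x i
  have hσinj : Function.Injective σ := by
    intro i i' h
    by_contra hne
    obtain ⟨y, hy1⟩ := (Subgroup.ne_bot_iff_exists_ne_one).1 (hF.ne i)
    have h1 := (hσ i y).1 y.2
    rw [h] at h1
    have h2 := (hσ i' y).2 h1
    exact hy1 (Subtype.ext (hF.disj hne y.2 h2))
  choose E hEK hEW using hE
  have hjS : ∀ b, j ∉ Finset.univ.filter fun i => code i b ≠ code j b := by
    intro b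
    simp
  have hkey : ∀ b i, code i b ≠ code j b → code (σ i) b ≠ code j b := by
    intro b i hi
    by_contra hcon
    apply hF.ne i
    rw [Subgroup.eq_bot_iff_forall]
    intro y hy
    apply hF.nc i y hy
    intro l v _
    have h1 := (hF.key (hEW b l) (hx _ (hEK b l) ((hEW b l).triv j (hjS b)))
      (i := i) (k := σ i) (by simpa using hi) (hσ i)).1 (by simpa using hcon)
    rw [h1]
    group
  have hbij : ∀ b i, code i b ≠ code j b ↔ code (σ i) b ≠ code j b := by
    intro b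
    -- an injective map of a finite set into itself is onto
    let S : Finset (Fin m) := Finset.univ.filter fun i => code i b ≠ code j b
    have hmaps : S.image σ ⊆ S := by
      intro k hk
      obtain ⟨i, hi, rfl⟩ := Finset.mem_image.1 hk
      have hi' : code i b ≠ code j b := by simpa [S] using hi
      simpa [S] using hkey b i hi'
    have heq : S.image σ = S :=
      Finset.eq_of_subset_of_card_le hmaps (by rw [Finset.card_image_of_injective _ hσinj])
    intro i
    constructor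
    · exact hkey b i
    · intro hi
      have h1 : σ i ∈ S := by simpa [S] using hi
      rw [← heq] at h1
      obtain ⟨i', hi', h2⟩ := Finset.mem_image.1 h1
      have h3 := hσinj h2
      subst h3
      simpa [S] using hi'
  have hfix : ∀ i, σ i = i := by
    intro i
    apply hcode
    funext b
    have h1 := hbij b i
    revert h1
    cases code i b <;> cases code (σ i) b <;> cases code j b <;> simp
  intro i hij y hy
  obtain ⟨b, hb⟩ : ∃ b, code i b ≠ code j b := by
    by_contra hcon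
    push Not at hcon
    exact hij (hcode (funext hcon))
  have hiS : i ∈ Finset.univ.filter fun i => code i b ≠ code j b := by simpa using hb
  -- `x` commutes with the conjugates of the `c i (ρ l)`
  have hcon : ∀ l, ∀ v ∈ T i, x * (v * c i (ρ l) * v⁻¹) = (v * c i (ρ l) * v⁻¹) * x := by
    intro l v hv
    obtain ⟨g, hgK, e, hg, rfl⟩ := hF.diag K hW i hv
    have hz := hg.conj (hEW b l)
    have h1 := (hF.key hz (hx _ (mul_mem (mul_mem hgK (hEK b l)) (inv_mem hgK))
      (hz.triv j (hjS b))) (i := i) (k := σ i) hiS (hσ i)).2 (by rw [hfix i]; exact hiS)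
    rw [hfix i] at h1
    rw [mul_inv_eq_iff_eq_mul] at h1
    exact h1
  have hxy : x * y * x⁻¹ ∈ T i := by
    have := (hσ i y).1 hy
    rwa [hfix i] at this
  have h1 : y⁻¹ * (x * y * x⁻¹) = 1 := by
    apply hF.nc i _ (mul_mem (inv_mem hy) hxy)
    intro l v hv
    have h2 := hcon l v hv
    have h3 := hcon l (y * v) (mul_mem hy hv)
    have h4 : x⁻¹ * (v * c i (ρ l) * v⁻¹) = (v * c i (ρ l) * v⁻¹) * x⁻¹ := by
      calc x⁻¹ * (v * c i (ρ l) * v⁻¹) = x⁻¹ * ((v * c i (ρ l) * v⁻¹) * x) * x⁻¹ := by group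
        _ = x⁻¹ * (x * (v * c i (ρ l) * v⁻¹)) * x⁻¹ := by rw [h2]
        _ = _ := by group
    calc y⁻¹ * (x * y * x⁻¹) * (v * c i (ρ l) * v⁻¹)
        = y⁻¹ * x * y * (x⁻¹ * (v * c i (ρ l) * v⁻¹)) := by group
      _ = y⁻¹ * x * y * ((v * c i (ρ l) * v⁻¹) * x⁻¹) := by rw [h4]
      _ = y⁻¹ * (x * (y * v * c i (ρ l) * (y * v)⁻¹)) * y * x⁻¹ := by group
      _ = y⁻¹ * ((y * v * c i (ρ l) * (y * v)⁻¹) * x) * y * x⁻¹ := by rw [h3]
      _ = _ := by group
  rw [inv_mul_eq_one] at h1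
  calc x * y = (x * y * x⁻¹) * x := by group
    _ = y * x := by rw [← h1]

end

section game

variable {G H : Type} [Group G] [Group H] {n : ℕ} {P : List (G × H) → Prop}

/-- `y` is the only element that can be paired with a partner of `y`. -/
def Fx (P : List (G × H) → Prop) (B : List (G × H)) (y : G) : Prop :=
  ∀ x y', P ((y, y') :: B) → P ((x, y') :: B) → y = x

theorem Fx.add {B : List (G × H)} {w : G} (hfx : Fx P B w) (hG : GGame n P) {w' : H}
    (hw : P ((w, w') :: B)) {L : List (G × H)} (hL : P L) (hlen : L.length < n)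
    (hBL : ∀ p ∈ B, p ∈ L) : P ((w, w') :: L) := by
  obtain ⟨ψ, hψ⟩ := hG.ext L hL hlen
  have h1 := hψ (ψ.symm w')
  rw [Equiv.apply_symm_apply] at h1
  have h2 : P ((ψ.symm w', w') :: B) := hG.sub _ _ h1 (by
    intro p hp
    rcases List.mem_cons.1 hp with rfl | hp
    · exact List.mem_cons_self
    · exact List.mem_cons_of_mem _ (hBL p hp))
  have h3 := hfx _ _ hw h2
  rw [← h3] at h1
  exact h1

theorem Fx.uniq {B : List (G × H)} {w : G} (hfx : Fx P B w) (hG : GGame n P) (hB : P B)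
    (hlen : B.length < n) {w1 w2 : H} (h1 : P ((w, w1) :: B)) (h2 : P ((w, w2) :: B)) :
    w1 = w2 := by
  obtain ⟨φ, hφ⟩ := hG.ext B hB hlen
  have key : ∀ w', P ((w, w') :: B) → w' = φ w := by
    intro w' hw'
    have h3 := hφ (φ.symm w')
    rw [Equiv.apply_symm_apply] at h3
    have h4 := hfx _ _ hw' h3
    rw [h4, Equiv.apply_symm_apply]
  rw [key w1 h1, key w2 h2]

theorem fx_one {B : List (G × H)} (hG : GGame n P) (hlen : B.length + 5 ≤ n) :
    Fx P B (1 : G) := by
  intro x y' h1 h2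
  have h3 := hG.one_iff h1 (by simp only [List.length_cons]; omega) List.mem_cons_self
  have h4 := hG.one_iff h2 (by simp only [List.length_cons]; omega) List.mem_cons_self
  exact (h4.2 (h3.1 rfl)).symm

theorem Fx.mul {B : List (G × H)} {y1 y2 : G} (h1 : Fx P B y1) (h2 : Fx P B y2)
    (hG : GGame n P) (hlen : B.length + 5 ≤ n) : Fx P B (y1 * y2) := by
  intro x z' hz hx
  obtain ⟨φ, hφ⟩ := hG.ext _ hz (by simp only [List.length_cons]; omega)
  obtain ⟨φ', hφ'⟩ := hG.ext _ (hφ y1) (by simp only [List.length_cons]; omega)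
  have h3 := hG.mul _ (hφ' y2) (by simp only [List.length_cons]; omega) (y1, φ y1) (by simp)
    (y2, φ' y2) (by simp) (y1 * y2, z') (by simp)
  have h4 : φ y1 * φ' y2 = z' := h3.1 rfl
  have h5 : P ((y1, φ y1) :: B) := hG.sub _ _ (hφ y1) (by
    intro p hp
    rcases List.mem_cons.1 hp with rfl | hp
    · exact List.mem_cons_self
    · exact List.mem_cons_of_mem _ (List.mem_cons_of_mem _ hp))
  have h6 : P ((y2, φ' y2) :: B) := hG.sub _ _ (hφ' y2) (by
    intro p hp
    rcases List.mem_cons.1 hp with rfl | hp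
    · exact List.mem_cons_self
    · exact List.mem_cons_of_mem _ (List.mem_cons_of_mem _ (List.mem_cons_of_mem _ hp)))
  have h7 : P ((y1, φ y1) :: (x, z') :: B) :=
    h1.add hG h5 hx (by simp only [List.length_cons]; omega)
      (fun p hp => List.mem_cons_of_mem _ hp)
  have h8 : P ((y2, φ' y2) :: (y1, φ y1) :: (x, z') :: B) :=
    h2.add hG h6 h7 (by simp only [List.length_cons]; omega)
      (fun p hp => List.mem_cons_of_mem _ (List.mem_cons_of_mem _ hp))
  have h9 := hG.mul _ h8 (by simp only [List.length_cons]; omega) (y1, φ y1) (by simp)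
    (y2, φ' y2) (by simp) (x, z') (by simp)
  exact h9.2 h4

theorem Fx.inv {B : List (G × H)} {y : G} (h1 : Fx P B y)
    (hG : GGame n P) (hlen : B.length + 5 ≤ n) : Fx P B y⁻¹ := by
  intro x z' hz hx
  obtain ⟨φ, hφ⟩ := hG.ext _ hz (by simp only [List.length_cons]; omega)
  have h5 : P ((y, φ y) :: B) := hG.sub _ _ (hφ y) (by
    intro p hp
    rcases List.mem_cons.1 hp with rfl | hp
    · exact List.mem_cons_self
    · exact List.mem_cons_of_mem _ (List.mem_cons_of_mem _ hp))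
  have h7 : P ((y, φ y) :: (x, z') :: B) :=
    h1.add hG h5 hx (by simp only [List.length_cons]; omega)
      (fun p hp => List.mem_cons_of_mem _ hp)
  have hm : ∀ (p q : G × H) (L : List (G × H)), p * q ∈ Cl (p :: q :: L) := fun p q L =>
    mul_mem (Subgroup.subset_closure (by simp)) (Subgroup.subset_closure (by simp))
  have h3 := hG.closure_eq (hφ y) (by simp only [List.length_cons]; omega)
    (hm (y, φ y) (y⁻¹, z') B) (one_mem _)
  have h4 := hG.closure_eq h7 (by simp only [List.length_cons]; omega)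
    (hm (y, φ y) (x, z') B) (one_mem _)
  have h8 : (y, φ y).2 * (y⁻¹, z').2 = 1 := h3.1 (mul_inv_cancel y)
  have h9 : y * x = 1 := h4.2 h8
  exact inv_eq_of_mul_eq_one_right h9

/-- Properties that are expressed by centralizers transfer. -/
theorem transfer_cent {B : List (G × H)} (hG : GGame n P) (hlen : B.length + 5 ≤ n)
    (D : Set (G × H)) (hD : ∀ p ∈ D, p ∈ Cl B) {W : G × H} (hW : W ∈ Cl B) {y : G} {y' : H}
    (h : P ((y, y') :: B)) :
    (∀ u : G, (∀ p ∈ D, u * p.1 = p.1 * u) → u * (W.1 * y⁻¹) = (W.1 * y⁻¹) * u) ↔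
    (∀ u : H, (∀ p ∈ D, u * p.2 = p.2 * u) → u * (W.2 * y'⁻¹) = (W.2 * y'⁻¹) * u) := by
  obtain ⟨φ, hφ⟩ := hG.ext _ h (by simp only [List.length_cons]; omega)
  have key : ∀ u : G, ((∀ p ∈ D, u * p.1 = p.1 * u) → u * (W.1 * y⁻¹) = (W.1 * y⁻¹) * u) ↔
      ((∀ p ∈ D, φ u * p.2 = p.2 * φ u) → φ u * (W.2 * y'⁻¹) = (W.2 * y'⁻¹) * φ u) := by
    intro u
    have hu : (u, φ u) ∈ Cl ((u, φ u) :: (y, y') :: B) := Subgroup.subset_closure (by simp)
    have hy : (y, y') ∈ Cl ((u, φ u) :: (y, y') :: B) := Subgroup.subset_closure (by simp)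
    have hle : Cl B ≤ Cl ((u, φ u) :: (y, y') :: B) :=
      Cl_mono fun p hp => List.mem_cons_of_mem _ (List.mem_cons_of_mem _ hp)
    have h1 : ∀ q ∈ Cl ((u, φ u) :: (y, y') :: B), u * q.1 = q.1 * u ↔ φ u * q.2 = q.2 * φ u :=
      fun q hq => hG.closure_eq (hφ u) (by simp only [List.length_cons]; omega)
        (mul_mem hu hq) (mul_mem hq hu)
    have h2 : (∀ p ∈ D, u * p.1 = p.1 * u) ↔ (∀ p ∈ D, φ u * p.2 = p.2 * φ u) :=
      forall₂_congr fun p hp => h1 p (hle (hD p hp))
    have h3 := h1 (W * (y, y')⁻¹) (mul_mem (hle hW) (inv_mem hy))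
    rw [h2]
    exact imp_congr_right fun _ => h3
  constructor
  · intro h1 u'
    have := (key (φ.symm u')).1 (h1 _)
    rw [Equiv.apply_symm_apply] at this
    exact this
  · intro h1 u
    exact (key u).2 (h1 _)

variable {m s r : ℕ} {T : Fin m → Subgroup G} {c : Fin m → Fin s → G} {ρ : Fin r → Fin s}

theorem Fac.fx_gen (hF : Fac T c ρ) {t : ℕ} (code : Fin m → Fin t → Bool)
    (hcode : Function.Injective code) (hG : GGame n P) {B : List (G × H)}
    (hlen : B.length + 5 ≤ n)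
    (hW : ∀ l, ∃ p ∈ Cl B, IsW T (fun i => c i l) Finset.univ p.1) (j : Fin m)
    (hE : ∀ b l, ∃ p ∈ Cl B, IsW T (fun i => c i (ρ l))
      (Finset.univ.filter fun i => code i b ≠ code j b) p.1) (l : Fin s) : Fx P B (c j l) := by
  classical
  intro x y' h1 h2
  let K : Subgroup G := (Cl B).map (MonoidHom.fst G H)
  have hK : ∀ p ∈ Cl B, p.1 ∈ K := fun p hp => ⟨p, hp, rfl⟩
  let D : Set (G × H) := {p | p ∈ Cl B ∧ ∀ y ∈ T j, p.1 * y = y * p.1}
  have hD : ∀ p ∈ D, p ∈ Cl B := fun p hp => hp.1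
  -- centralizing all other factors
  have hcz : ∀ u : G, (∀ p ∈ D, u * p.1 = p.1 * u) → ∀ i, i ≠ j → ∀ y ∈ T i, u * y = y * u := by
    intro u hu
    refine hF.centralizes code hcode j K ?_ ?_ ?_
    · intro l
      obtain ⟨p, hp, hp'⟩ := hW l
      exact ⟨p.1, hK p hp, hp'⟩
    · intro b l
      obtain ⟨p, hp, hp'⟩ := hE b l
      exact ⟨p.1, hK p hp, hp'⟩
    · rintro _ ⟨p, hp, rfl⟩ hz
      exact hu p ⟨hp, hz⟩
  -- `x` commutes with the elements of `D`
  have hxD : ∀ p ∈ D, x * p.1 = p.1 * x := by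
    intro p hp
    have hcom : ∀ (z : G), P ((z, y') :: B) → (z * p.1 = p.1 * z ↔ y' * p.2 = p.2 * y') := by
      intro z hz
      have hle : Cl B ≤ Cl ((z, y') :: B) := Cl_mono fun p hp => List.mem_cons_of_mem _ hp
      have hz' : (z, y') ∈ Cl ((z, y') :: B) := Subgroup.subset_closure (by simp)
      exact hG.closure_eq hz (by simp only [List.length_cons]; omega)
        (mul_mem hz' (hle hp.1)) (mul_mem (hle hp.1) hz')
    rw [hcom x h2, ← hcom _ h1]
    exact (hp.2 _ (hF.mem j l)).symm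
  obtain ⟨W, hWB, hWW⟩ := hW l
  obtain ⟨w, hw, hw'⟩ := hF.exW (Finset.univ.erase j) (a := fun i => c i l)
    (fun i => hF.mem i l)
  have hins := hF.insert hw (j := j) (Finset.notMem_erase j _)
  rw [Finset.insert_erase (Finset.mem_univ j)] at hins
  have hWeq : W.1 = w * c j l := hF.unique hWW hins
  -- elements that centralize the other factors commute with `w`
  have hcw : ∀ u : G, (∀ i, i ≠ j → ∀ y ∈ T i, u * y = y * u) → u * w = w * u := by
    intro u hu
    have hle : (⨆ i ∈ Finset.univ.erase j, T i) ≤ Subgroup.centralizer {u} := by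
      refine iSup₂_le fun i hi => ?_
      intro y hy
      rw [Subgroup.mem_centralizer_singleton_iff]
      have h3 := hu i (Finset.ne_of_mem_erase hi) y hy
      first | exact h3 | exact h3.symm
    have h3 := hle hw'
    rw [Subgroup.mem_centralizer_singleton_iff] at h3
    first | exact h3 | exact h3.symm
  have hQ : ∀ u : G, (∀ p ∈ D, u * p.1 = p.1 * u) →
      u * (W.1 * (c j l)⁻¹) = (W.1 * (c j l)⁻¹) * u := by
    intro u hu
    have h3 : W.1 * (c j l)⁻¹ = w := by rw [hWeq]; group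
    rw [h3]
    exact hcw u (hcz u hu)
  rw [transfer_cent hG hlen D hD hWB h1, ← transfer_cent hG hlen D hD hWB h2] at hQ
  have hone : c j l * x⁻¹ = 1 := by
    apply hF.cent
    intro i y hy
    by_cases hij : i = j
    · subst hij
      have h3 := hQ y (fun p hp => (hp.2 y hy).symm)
      have h4 := hcw y (fun i' hi' z hz => hF.comm i i' (Ne.symm hi') y hy z hz)
      rw [hWeq] at h3
      have h5 : c i l * x⁻¹ = w⁻¹ * (w * c i l * x⁻¹) := by group
      calc c i l * x⁻¹ * y = w⁻¹ * ((w * c i l * x⁻¹) * y) := by group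
        _ = w⁻¹ * (y * (w * c i l * x⁻¹)) := by rw [← h3]
        _ = w⁻¹ * (y * w) * (c i l * x⁻¹) := by group
        _ = w⁻¹ * (w * y) * (c i l * x⁻¹) := by rw [h4]
        _ = y * (c i l * x⁻¹) := by group
    · have h3 := hcz x hxD i hij y hy
      have h4 := hF.comm i j hij y hy _ (hF.mem j l)
      have h5 : x⁻¹ * y = y * x⁻¹ := by
        calc x⁻¹ * y = x⁻¹ * (y * x) * x⁻¹ := by group
          _ = x⁻¹ * (x * y) * x⁻¹ := by rw [h3]
          _ = y * x⁻¹ := by group
      calc c j l * x⁻¹ * y = c j l * (x⁻¹ * y) := by group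
        _ = (c j l * y) * x⁻¹ := by rw [h5]; group
        _ = y * (c j l * x⁻¹) := by rw [← h4]; group
  rw [mul_inv_eq_one] at hone
  exact hone

end game

end Pool.Agent.Helper950.WL
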