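import Mathlib
import Pool.Agent.Helper950.WL.Semi
import Pool.Agent.Helper950.WL.Final

/-!
# Groups that act faithfully on a product of groups which they permute: the isomorphism
-/

set_option autoImplicit false

namespace Pool.Agent.Helper950.WL

open Pool.Agent.W185.LSQ Pool.Agent.W185.SRG

section

variable {G H : Type} [Group G] [Group H] {n : ℕ} {P : List (G × H) → Prop}

/-- If all elements of the factors are fixed then the two groups are isomorphic. -/
theorem iso_of_fx {ι : Type} {T : ι → Subgroup G}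
    (hcent : ∀ x, (∀ i, ∀ y ∈ T i, x * y = y * x) → x = 1)
    (hperm : ∀ (g : G) (i : ι), ∃ j, ∀ x, x ∈ T i ↔ g * x * g⁻¹ ∈ T j)
    (hG : GGame n P) {B : List (G × H)} (hB : P B) (hlen : B.length + 5 ≤ n)
    (hfx : ∀ i, ∀ y ∈ T i, Fx P B y) : Nonempty (G ≃* H) := by
  classical
  obtain ⟨f, hf⟩ := hG.ext B hB (by omega)
  have h1 : f 1 = 1 :=
    (hG.one_iff (hf 1) (by simp only [List.length_cons]; omega) List.mem_cons_self).1 rfl
  have hconj : ∀ (g : G) (i : ι), ∀ w ∈ T i, f (g * w * g⁻¹) = f g * f w * (f g)⁻¹ := by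
    intro g i w hw
    obtain ⟨j, hj⟩ := hperm g i
    have hw' : g * w * g⁻¹ ∈ T j := (hj w).1 hw
    have h2 : P ((w, f w) :: (g, f g) :: B) :=
      (hfx i w hw).add hG (hf w) (hf g) (by simp only [List.length_cons]; omega)
        (fun p hp => List.mem_cons_of_mem _ hp)
    have hgc : (g, f g) ∈ Cl ((w, f w) :: (g, f g) :: B) := Subgroup.subset_closure (by simp)
    have hwc : (w, f w) ∈ Cl ((w, f w) :: (g, f g) :: B) := Subgroup.subset_closure (by simp)
    have h3 := hG.add h2 (by simp only [List.length_cons]; omega)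
      (mul_mem (mul_mem hgc hwc) (inv_mem hgc))
    have h4 : P ((g * w * g⁻¹, f g * f w * (f g)⁻¹) :: B) := hG.sub _ _ h3 (by
      intro p hp
      rcases List.mem_cons.1 hp with rfl | hp
      · exact List.mem_cons_self
      · exact List.mem_cons_of_mem _ (List.mem_cons_of_mem _ (List.mem_cons_of_mem _ hp)))
    exact (hfx j _ hw').uniq hG hB (by omega) (hf _) h4
  have hcH : ∀ z : H, (∀ i, ∀ w ∈ T i, z * f w = f w * z) → z = 1 := by
    intro z hz
    have h2 : f.symm z = 1 := by
      apply hcent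
      intro i w hw
      have h3 := hconj (f.symm z) i w hw
      rw [Equiv.apply_symm_apply, hz i w hw, mul_inv_cancel_right] at h3
      have h4 := f.injective h3
      rw [mul_inv_eq_iff_eq_mul] at h4
      exact h4
    rw [← f.apply_symm_apply z, h2, h1]
  refine ⟨MulEquiv.mk' f ?_⟩
  intro g h
  have h2 : (f g * f h)⁻¹ * f (g * h) = 1 := by
    apply hcH
    intro i w hw
    obtain ⟨j, hj⟩ := hperm h i
    have h3 := hconj (g * h) i w hw
    have h4 := hconj h i w hw
    have h5 := hconj g j _ ((hj w).1 hw)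
    have h6 : g * h * w * (g * h)⁻¹ = g * (h * w * h⁻¹) * g⁻¹ := by group
    rw [h6, h5, h4] at h3
    have h7 : f (g * h) * f w = f g * (f h * f w * (f h)⁻¹) * (f g)⁻¹ * f (g * h) := by
      rw [h3]; group
    calc (f g * f h)⁻¹ * f (g * h) * f w = (f g * f h)⁻¹ * (f (g * h) * f w) := by group
      _ = (f g * f h)⁻¹ * (f g * (f h * f w * (f h)⁻¹) * (f g)⁻¹ * f (g * h)) := by rw [h7]
      _ = f w * ((f g * f h)⁻¹ * f (g * h)) := by group
  rw [inv_mul_eq_one] at h2
  exact h2.symm

variable {m s r : ℕ} {T : Fin m → Subgroup G} {c : Fin m → Fin s → G} {ρ : Fin r → Fin s}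

/-- There are `s + t r` pebbles that fix all elements of the factors. -/
theorem Fac.exists_fixed (hF : Fac T c ρ) {t : ℕ} (hmt : m ≤ 2 ^ t) (hG : GGame n P) (hP : P [])
    (hn : s + t * r + 5 ≤ n) : ∃ B, P B ∧ B.length = s + t * r ∧ ∀ j, ∀ y ∈ T j, Fx P B y := by
  classical
  obtain ⟨code⟩ : Nonempty (Fin m ↪ (Fin t → Bool)) := by
    apply Function.Embedding.nonempty_of_card_le
    simpa using hmt
  -- the pebbled elements
  have hex : ∀ i : Fin s ⊕ Fin t × Fin r, ∃ w : G,
      (∀ l, i = Sum.inl l → IsW T (fun i => c i l) Finset.univ w) ∧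
      (∀ b l, i = Sum.inr (b, l) →
        IsW T (fun i => c i (ρ l)) (Finset.univ.filter fun i => code i b = true) w) := by
    rintro (l | ⟨b, l⟩)
    · obtain ⟨w, hw, -⟩ := hF.exW Finset.univ (a := fun i => c i l) (fun i => hF.mem i l)
      refine ⟨w, ?_, ?_⟩
      · intro l' hl'
        rw [← Sum.inl.inj hl']
        exact hw
      · intro b l' hl'
        simp at hl'
    · obtain ⟨w, hw, -⟩ := hF.exW (Finset.univ.filter fun i => code i b = true)
        (a := fun i => c i (ρ l)) (fun i => hF.mem i _)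
      refine ⟨w, ?_, ?_⟩
      · intro l' hl'
        simp at hl'
      · intro b' l' hl'
        obtain ⟨rfl, rfl⟩ := Prod.mk.inj (Sum.inr.inj hl')
        exact hw
  choose el hel using hex
  let l0 : List G := ((Finset.univ : Finset (Fin s ⊕ Fin t × Fin r)).toList).map el
  have hl0 : l0.length = s + t * r := by
    simp [l0]
  obtain ⟨B, hBl, hPB⟩ := hG.list hP l0 (by rw [hl0]; omega)
  have hBlen : B.length = s + t * r := by rw [← hl0, ← hBl, List.length_map]
  have hmem : ∀ i, ∃ p ∈ Cl B, p.1 = el i := by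
    intro i
    have h1 : el i ∈ l0 := List.mem_map.2 ⟨i, by simp, rfl⟩
    rw [← hBl] at h1
    obtain ⟨p, hp, hp'⟩ := List.mem_map.1 h1
    exact ⟨p, Subgroup.subset_closure hp, hp'⟩
  have hW : ∀ l, ∃ p ∈ Cl B, IsW T (fun i => c i l) Finset.univ p.1 := by
    intro l
    obtain ⟨p, hp, hp'⟩ := hmem (Sum.inl l)
    refine ⟨p, hp, ?_⟩
    rw [hp']
    exact (hel _).1 l rfl
  have hE : ∀ j b l, ∃ p ∈ Cl B, IsW T (fun i => c i (ρ l))
      (Finset.univ.filter fun i => code i b ≠ code j b) p.1 := by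
    intro j b l
    obtain ⟨p, hp, hp'⟩ := hmem (Sum.inr (b, l))
    have hpW := (hel (Sum.inr (b, l))).2 b l rfl
    rw [← hp'] at hpW
    rcases hj : code j b with _ | _
    · have h1 : (Finset.univ.filter fun i => code i b ≠ false) =
          Finset.univ.filter fun i => code i b = true := by
        ext i
        simp
      rw [h1]
      exact ⟨p, hp, hpW⟩
    · obtain ⟨q, hq, hqW⟩ := hW (ρ l)
      have h1 : (Finset.univ.filter fun i => code i b ≠ true) =
          Finset.univ \ Finset.univ.filter fun i => code i b = true := by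
        ext i
        simp
      rw [h1]
      exact ⟨q * p⁻¹, mul_mem hq (inv_mem hp), compl hqW hpW⟩
  refine ⟨B, hPB, hBlen, ?_⟩
  intro j y hy
  rw [hF.gen j] at hy
  refine Subgroup.closure_induction (p := fun y _ => Fx P B y) ?_ ?_ ?_ ?_ hy
  · rintro _ ⟨l, rfl⟩
    exact hF.fx_gen code code.injective hG (by omega) hW j (hE j) l
  · exact fx_one hG (by omega)
  · intro x y _ _ hx hy
    exact hx.mul hy hG (by omega)
  · intro x _ hx
    exact hx.inv hG (by omega)

theorem Fac.iso (hF : Fac T c ρ) {t : ℕ} (hmt : m ≤ 2 ^ t) (hG : GGame n P) (hP : P [])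
    (hn : s + t * r + 5 ≤ n) : Nonempty (G ≃* H) := by
  obtain ⟨B, hPB, hBlen, hfx⟩ := hF.exists_fixed hmt hG hP hn
  exact iso_of_fx hF.cent hF.perm hG hPB (by omega) hfx

/-- If all elements of the factors are fixed then all elements are fixed. -/
theorem all_fx {ι : Type} {T : ι → Subgroup G}
    (hcent : ∀ x, (∀ i, ∀ y ∈ T i, x * y = y * x) → x = 1)
    (hperm : ∀ (g : G) (i : ι), ∃ j, ∀ x, x ∈ T i ↔ g * x * g⁻¹ ∈ T j)
    (hG : GGame n P) {B : List (G × H)} (hlen : B.length + 5 ≤ n)
    (hfx : ∀ i, ∀ y ∈ T i, Fx P B y) (g : G) : Fx P B g := by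
  intro x h' hg hx
  have hkey : x⁻¹ * g = 1 := by
    apply hcent
    intro i w hw
    obtain ⟨φ, hφ⟩ := hG.ext _ hg (by simp only [List.length_cons]; omega)
    have h1 := hφ w
    have h2 : P ((w, φ w) :: B) := hG.sub _ _ h1 (by
      intro p hp
      rcases List.mem_cons.1 hp with rfl | hp
      · exact List.mem_cons_self
      · exact List.mem_cons_of_mem _ (List.mem_cons_of_mem _ hp))
    have h3 : P ((w, φ w) :: (x, h') :: B) :=
      (hfx i w hw).add hG h2 hx (by simp only [List.length_cons]; omega)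
        (fun p hp => List.mem_cons_of_mem _ hp)
    have key : ∀ y : G, P ((w, φ w) :: (y, h') :: B) →
        P ((y * w * y⁻¹, h' * φ w * h'⁻¹) :: B) := by
      intro y hy
      have hgc : (y, h') ∈ Cl ((w, φ w) :: (y, h') :: B) := Subgroup.subset_closure (by simp)
      have hwc : (w, φ w) ∈ Cl ((w, φ w) :: (y, h') :: B) := Subgroup.subset_closure (by simp)
      have h4 := hG.add hy (by simp only [List.length_cons]; omega)
        (mul_mem (mul_mem hgc hwc) (inv_mem hgc))
      exact hG.sub _ _ h4 (by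
        intro p hp
        rcases List.mem_cons.1 hp with rfl | hp
        · exact List.mem_cons_self
        · exact List.mem_cons_of_mem _ (List.mem_cons_of_mem _ (List.mem_cons_of_mem _ hp)))
    obtain ⟨j, hj⟩ := hperm g i
    have h5 := hfx j _ ((hj w).1 hw) _ _ (key g h1) (key x h3)
    calc x⁻¹ * g * w = x⁻¹ * (g * w * g⁻¹) * g := by group
      _ = x⁻¹ * (x * w * x⁻¹) * g := by rw [h5]
      _ = w * (x⁻¹ * g) := by group
  rw [inv_mul_eq_one] at hkey
  exact hkey.symm

end

/-- The main theorem on permuted factors, for graphs. -/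
theorem fac_main {G : Type} [Group G] [Fintype G] {m s r t : ℕ} {T : Fin m → Subgroup G}
    {c : Fin m → Fin s → G} {ρ : Fin r → Fin s} (hF : Fac T c ρ) (hmt : m ≤ 2 ^ t)
    {k : ℕ} (hk : s + t * r + 16 ≤ k) {W : Type} [Fintype W] (Y : SimpleGraph W)
    (h : WLEquivalent k (latinGraph fun a b : G => a * b) Y) :
    Nonempty ((latinGraph fun a b : G => a * b) ≃g Y) := by
  classical
  rcases Nat.lt_or_ge (Fintype.card G) 5 with h5 | h5
  · apply (Pos.nil h).iso_of_card_le
    rw [Fintype.card_prod]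
    have : Fintype.card G * Fintype.card G ≤ 4 * 4 := Nat.mul_le_mul (by omega) (by omega)
    omega
  · obtain ⟨H, _, _, P, hG, hP, ⟨e⟩⟩ := exists_game h5 Y (by omega) h
    obtain ⟨f⟩ := hF.iso hmt hG hP (by omega)
    obtain ⟨f'⟩ := latin_iso f
    exact ⟨f'.trans e.symm⟩

end Pool.Agent.Helper950.WL
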