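import Mathlib
import Pool.Agent.Helper950.WL.Ext

/-!
# Rings all of whose finite modules are direct sums of cyclic modules
-/

set_option autoImplicit false

namespace Pool.Agent.Helper950.WL

open Module

theorem sumOfSmall_one {R M ι : Type} [Ring R] [AddCommGroup M] [Module R M] [Finite ι]
    (c : ι → M) (hind : iSupIndep fun i => Submodule.span R {c i})
    (htop : ⨆ i, Submodule.span R {c i} = ⊤) : SumOfSmall 1 R M := by
  classical
  obtain ⟨n, ⟨e⟩⟩ := Finite.exists_equiv_fin ι
  refine ⟨n, fun i _ => c (e.symm i), ?_⟩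
  rw [DirectSum.isInternal_submodule_iff_iSupIndep_and_iSup_eq_top]
  have h1 : ∀ i : Fin n, Set.range (fun _ : Fin 1 => c (e.symm i)) = {c (e.symm i)} :=
    fun i => Set.range_const
  simp only [h1]
  constructor
  · exact hind.comp e.symm.injective
  · rw [← htop]
    exact Equiv.iSup_comp (g := fun i => Submodule.span R {c i}) e.symm

theorem small_pid {R : Type} [CommRing R] [IsDomain R] [IsPrincipalIdealRing R] : Small 1 R := by
  classical
  intro M _ _ _
  let π : (M →₀ R) →ₗ[R] M := Finsupp.linearCombination R id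
  have hπ : Function.Surjective π := by
    intro c
    exact ⟨Finsupp.single c 1, by simp [π]⟩
  obtain ⟨n, s⟩ := Submodule.smithNormalForm (Finsupp.basisSingleOne (R := R) (ι := M))
    (LinearMap.ker π)
  refine sumOfSmall_one (fun m : M => π (s.bM m)) ?_ ?_
  · rw [iSupIndep_iff_finsetSum_eq_zero_imp_eq_zero]
    intro t v hv hsum
    have h1 : ∀ i, ∃ r : R, i ∈ t → r • π (s.bM i) = v i := by
      intro i
      by_cases hi : i ∈ t
      · obtain ⟨r, hr⟩ := Submodule.mem_span_singleton.1 (hv i hi)
        exact ⟨r, fun _ => hr⟩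
      · exact ⟨0, fun h => (hi h).elim⟩
    choose r hr using h1
    have hx : ∑ i ∈ t, r i • s.bM i ∈ LinearMap.ker π := by
      rw [LinearMap.mem_ker, map_sum, ← hsum]
      apply Finset.sum_congr rfl
      intro i hi
      rw [map_smul, hr i hi]
    intro i hi
    have hrepr : s.bM.repr (∑ i ∈ t, r i • s.bM i) i = r i := by
      rw [map_sum, Finsupp.finsetSum_apply, Finset.sum_eq_single i]
      · rw [map_smul, Basis.repr_self, Finsupp.smul_apply, Finsupp.single_eq_same]
        simp
      · intro j _ hj
        rw [map_smul, Basis.repr_self, Finsupp.smul_apply, Finsupp.single_eq_of_ne hj.symm]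
        simp
      · intro h; exact (h hi).elim
    rw [← hr i hi]
    by_cases hf : i ∈ Set.range s.f
    · obtain ⟨l, rfl⟩ := hf
      have h2 := s.repr_apply_embedding_eq_repr_smul ⟨_, hx⟩ (i := l)
      rw [hrepr, map_smul, Finsupp.smul_apply, smul_eq_mul] at h2
      rw [h2, mul_comm, mul_smul, ← map_smul, ← s.snf l]
      have h3 : π (s.bN l : M →₀ R) = 0 := (s.bN l).2
      rw [h3, smul_zero]
    · have h2 := s.repr_eq_zero_of_notMem_range ⟨_, hx⟩ hf
      rw [hrepr] at h2
      rw [h2, zero_smul]
  · rw [eq_top_iff]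
    intro x _
    obtain ⟨y, rfl⟩ := hπ x
    have hy : y ∈ Submodule.span R (Set.range s.bM) := by rw [s.bM.span_eq]; trivial
    have h1 : π y ∈ Submodule.map π (Submodule.span R (Set.range s.bM)) := ⟨y, hy, rfl⟩
    rw [Submodule.map_span] at h1
    refine Submodule.span_le.2 ?_ h1
    rintro _ ⟨_, ⟨m, rfl⟩, rfl⟩
    exact (le_iSup (fun m => Submodule.span R {π (s.bM m)}) m) (Submodule.mem_span_singleton_self _)

theorem small_semisimple {R : Type} [Ring R] [IsSemisimpleRing R] : Small 1 R := by
  classical
  intro M _ _ _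
  obtain ⟨s, hs1, hs2, hs3⟩ := IsSemisimpleModule.exists_sSupIndep_sSup_simples_eq_top R M
  have hfin : Finite (Submodule R M) :=
    Finite.of_injective (fun N : Submodule R M => (N : Set M)) SetLike.coe_injective
  have h1 : ∀ S : s, ∃ x : M, Submodule.span R {x} = S.1 := by
    intro S
    have hS := hs3 S.1 S.2
    have hnt : Nontrivial S.1 := IsSimpleModule.nontrivial R S.1
    obtain ⟨x, hx⟩ := exists_ne (0 : S.1)
    refine ⟨x, ?_⟩
    have hat := isSimpleModule_iff_isAtom.1 hS
    have hle : Submodule.span R {(x : M)} ≤ S.1 := by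
      rw [Submodule.span_singleton_le_iff_mem]; exact x.2
    rcases hat.le_iff.1 hle with h | h
    · rw [Submodule.span_singleton_eq_bot] at h
      exact (hx (Subtype.ext h)).elim
    · exact h
  choose c hc using h1
  refine sumOfSmall_one c ?_ ?_
  · simp only [hc]
    exact (sSupIndep_iff _).1 hs1
  · simp only [hc]
    rw [← sSup_eq_iSup']
    exact hs2

end Pool.Agent.Helper950.WL
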