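import Mathlib
import Pool.Agent.Helper950.WL.Final
import Pool.Agent.Helper950.WL.Small

/-!
# Explicit classes of groups
-/

set_option autoImplicit false

namespace Pool.Agent.Helper950.WL

open Pool.Agent.W185.LSQ Pool.Agent.W185.SRG

/-- The Weisfeiler-Leman dimension of `Γ` is at most `D`: for `k ≥ D` every graph that the
`k`-dimensional method does not distinguish from `Γ` is isomorphic to `Γ`. -/
def WLDimLE (D : ℕ) {V : Type} [Fintype V] (Γ : SimpleGraph V) : Prop :=
  ∀ k : ℕ, D ≤ k → ∀ (W : Type) [Fintype W] (Y : SimpleGraph W),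
    WLEquivalent k Γ Y → Nonempty (Γ ≃g Y)

/-- Case of a principal ideal domain. -/
theorem wl_pid {G : Type} [Group G] [Fintype G] {d : ℕ} (X : Fin d → G)
    {R M : Type} [CommRing R] [IsDomain R] [IsPrincipalIdealRing R] [AddCommGroup M] [Module R M]
    (ι : M → G) (hι : Function.Injective ι) (hadd : ∀ a b, ι (a + b) = ι a * ι b)
    (h1 : ∀ g, ∃ r : R, ∀ a, g * ι a * g⁻¹ = ι (r • a))
    (h2 : ∀ r : R, ∃ l : List G, ∀ a, ι (r • a) = (l.map fun g => g * ι a * g⁻¹).prod)
    (hgen : ∀ g, ∃ a, ∃ x ∈ Subgroup.closure (Set.range X), g = ι a * x) :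
    WLDimLE (d + 16) (latinGraph fun a b : G => a * b) := fun _ hk _ _ Y h =>
  main le_rfl X small_pid ι hι hadd h1 h2 hgen (by omega) Y h

theorem gen_of_sup {G : Type} [Group G] (A : Subgroup G) (hn : ∀ g, ∀ a ∈ A, g * a * g⁻¹ ∈ A)
    (B : Subgroup G) (h : A ⊔ B = ⊤) (g : G) : ∃ a ∈ A, ∃ x ∈ B, g = a * x := by
  have hA : A.Normal := ⟨fun a ha g => hn g a ha⟩
  have hg : g ∈ A ⊔ B := by rw [h]; trivial
  obtain ⟨a, ha, x, hx, rfl⟩ := Subgroup.mem_sup_of_normal_left.1 hg
  exact ⟨a, ha, x, hx, rfl⟩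

/-- Case of a power action. -/
theorem wl_power {G : Type} [Group G] [Fintype G] (A : Subgroup G)
    (hA : ∀ a ∈ A, ∀ b ∈ A, a * b = b * a) (hpow : ∀ g : G, ∃ m : ℕ, ∀ a ∈ A, g * a * g⁻¹ = a ^ m)
    {d : ℕ} (X : Fin d → G) (hgen : A ⊔ Subgroup.closure (Set.range X) = ⊤) :
    WLDimLE (d + 16) (latinGraph fun a b : G => a * b) := by
  classical
  let _ : CommGroup A :=
    { (inferInstance : Group A) with
      mul_comm := fun a b => Subtype.ext (hA a a.2 b b.2) }
  have hn : ∀ g, ∀ a ∈ A, g * a * g⁻¹ ∈ A := by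
    intro g a ha
    obtain ⟨m, hm⟩ := hpow g
    rw [hm a ha]
    exact pow_mem ha m
  refine wl_pid (R := ℤ) (M := Additive A) X (fun a => (a.toMul : G)) ?_ ?_ ?_ ?_ ?_
  · intro a b h
    exact Additive.toMul.injective (Subtype.ext h)
  · intro a b; rfl
  · intro g
    obtain ⟨m, hm⟩ := hpow g
    refine ⟨m, fun a => ?_⟩
    rw [hm _ a.toMul.2, natCast_zsmul]
    rfl
  · intro r
    refine ⟨List.replicate (r % (Fintype.card G : ℤ)).toNat 1, fun a => ?_⟩
    have hpos : (0 : ℤ) < Fintype.card G := by exact_mod_cast Fintype.card_pos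
    have h3 : ((r • a).toMul : G) = (a.toMul : G) ^ r := rfl
    rw [h3, List.map_replicate, List.prod_replicate]
    simp only [one_mul, inv_one, mul_one]
    have h4 : ((r % (Fintype.card G : ℤ)).toNat : ℤ) = r % (Fintype.card G : ℤ) :=
      Int.toNat_of_nonneg (Int.emod_nonneg _ hpos.ne')
    rw [← zpow_natCast, h4]
    conv_lhs => rw [← Int.emod_add_mul_ediv r (Fintype.card G : ℤ)]
    rw [zpow_add, zpow_mul, zpow_natCast, pow_card_eq_one, one_zpow, mul_one]
  · intro g
    obtain ⟨a, ha, x, hx, rfl⟩ := gen_of_sup A hn _ hgen g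
    exact ⟨Additive.ofMul ⟨a, ha⟩, x, hx, rfl⟩

/-- Case of a completely reducible action. -/
theorem wl_semisimple {G : Type} [Group G] [Fintype G] (A : Subgroup G) (hAn : A.Normal)
    (hA : ∀ a ∈ A, ∀ b ∈ A, a * b = b * a)
    (hcr : ∀ N : Subgroup G, N.Normal → N ≤ A →
      ∃ N' : Subgroup G, N'.Normal ∧ N' ≤ A ∧ N ⊓ N' = ⊥ ∧ N ⊔ N' = A)
    {d : ℕ} (X : Fin d → G) (hgen : A ⊔ Subgroup.closure (Set.range X) = ⊤) :
    WLDimLE (d + 16) (latinGraph fun a b : G => a * b) := by
  classical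
  let _ : CommGroup A :=
    { (inferInstance : Group A) with
      mul_comm := fun a b => Subtype.ext (hA a a.2 b b.2) }
  have hn : ∀ g, ∀ a ∈ A, g * a * g⁻¹ ∈ A := fun g a ha => hAn.conj_mem a ha g
  -- conjugation as an endomorphism
  let cj : G → AddMonoid.End (Additive A) := fun g =>
    { toFun := fun a => Additive.ofMul ⟨g * (a.toMul : G) * g⁻¹, hn g _ a.toMul.2⟩
      map_zero' := by
        apply Additive.toMul.injective
        apply Subtype.ext
        show g * 1 * g⁻¹ = 1
        group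
      map_add' := by
        intro a b
        apply Additive.toMul.injective
        apply Subtype.ext
        show g * ((a.toMul : G) * (b.toMul : G)) * g⁻¹ =
          (g * (a.toMul : G) * g⁻¹) * (g * (b.toMul : G) * g⁻¹)
        group }
  have hcj : ∀ g (a : Additive A), ((cj g a).toMul : G) = g * (a.toMul : G) * g⁻¹ :=
    fun g a => rfl
  let R : Subring (AddMonoid.End (Additive A)) := Subring.closure (Set.range cj)
  have hRsmul : ∀ (r : R) (a : Additive A), r • a = (r : AddMonoid.End (Additive A)) a :=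
    fun r a => rfl
  have hfinA : Finite (Additive A) := inferInstanceAs (Finite A)
  have hfinE : Finite (AddMonoid.End (Additive A)) :=
    Finite.of_injective (fun f : AddMonoid.End (Additive A) => (f : Additive A → Additive A))
      DFunLike.coe_injective
  have hfinR : Finite R := inferInstance
  -- stability
  have hstab : ∀ N' : Subgroup G, N'.Normal → ∀ r ∈ R, ∀ a : Additive A,
      (a.toMul : G) ∈ N' → ((r a).toMul : G) ∈ N' := by
    intro N' hN' r hr
    refine Subring.closure_induction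
      (p := fun (r : AddMonoid.End (Additive A)) _ => ∀ a : Additive A,
        (a.toMul : G) ∈ N' → ((r a).toMul : G) ∈ N') ?_ ?_ ?_ ?_ ?_ ?_ hr
    · rintro _ ⟨g, rfl⟩ a ha
      exact hN'.conj_mem _ ha g
    · intro a _
      exact one_mem N'
    · intro a ha
      exact ha
    · intro x y _ _ hx hy a ha
      exact mul_mem (hx a ha) (hy a ha)
    · intro x _ hx a ha
      exact inv_mem (hx a ha)
    · intro x y _ _ hx hy a ha
      exact hx _ (hy a ha)
  have hcomb : ∀ r ∈ R, ∃ l : List G, ∀ a : Additive A,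
      ((r a).toMul : G) = ev (MonoidHom.id G) l (a.toMul : G) := by
    intro r hr
    refine Subring.closure_induction
      (p := fun (r : AddMonoid.End (Additive A)) _ => ∃ l : List G, ∀ a : Additive A,
      ((r a).toMul : G) = ev (MonoidHom.id G) l (a.toMul : G)) ?_ ?_ ?_ ?_ ?_ ?_ hr
    · rintro _ ⟨g, rfl⟩
      exact ⟨[g], fun a => by rw [hcj, ev_single]; rfl⟩
    · exact ⟨[], fun a => rfl⟩
    · exact ⟨[1], fun a => by rw [ev_single]; simp⟩
    · rintro x y _ _ ⟨l, hl⟩ ⟨l', hl'⟩
      refine ⟨l ++ l', fun a => ?_⟩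
      rw [ev_append, ← hl, ← hl']
      rfl
    · rintro x _ ⟨l, hl⟩
      refine ⟨(List.replicate (Fintype.card G - 1) l).flatten, fun a => ?_⟩
      have h3 : ∀ n, ev (MonoidHom.id G) (List.replicate n l).flatten (a.toMul : G) =
          (ev (MonoidHom.id G) l (a.toMul : G)) ^ n := by
        intro n
        induction n with
        | zero => simp
        | succ n ih => rw [List.replicate_succ, List.flatten_cons, ev_append, ih, pow_succ']
      rw [h3, ← hl]
      have h4 : (((-x) a).toMul : G) = ((x a).toMul : G)⁻¹ := rfl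
      rw [h4, inv_eq_iff_mul_eq_one, ← pow_succ', Nat.sub_add_cancel Fintype.card_pos,
        pow_card_eq_one]
    · rintro x y _ _ ⟨l, hl⟩ ⟨l', hl'⟩
      refine ⟨tmul l l', fun a => ?_⟩
      rw [ev_tmul, ← hl', ← hl]
      rfl
  -- the module is semisimple
  have hss : IsSemisimpleModule R (Additive A) := by
    refine (isSemisimpleModule_iff ..).2 ⟨fun N => ?_⟩
    -- submodules and normal subgroups
    let N0 : Subgroup G :=
      { carrier := {x | ∃ h : x ∈ A, Additive.ofMul (⟨x, h⟩ : A) ∈ N}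
        mul_mem' := by
          rintro x y ⟨hx, hx'⟩ ⟨hy, hy'⟩
          exact ⟨mul_mem hx hy, N.add_mem hx' hy'⟩
        one_mem' := ⟨one_mem _, N.zero_mem⟩
        inv_mem' := by
          rintro x ⟨hx, hx'⟩
          exact ⟨inv_mem hx, N.neg_mem hx'⟩ }
    have hN : N0.Normal := by
      constructor
      rintro x ⟨hx, hx'⟩ g
      refine ⟨hn g x hx, ?_⟩
      exact N.smul_mem (⟨cj g, Subring.subset_closure ⟨g, rfl⟩⟩ : R) hx'
    obtain ⟨N', hN', hN'A, hinf, hsup⟩ := hcr N0 hN (fun x hx => hx.1)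
    let M' : Submodule R (Additive A) :=
      { carrier := {a | (a.toMul : G) ∈ N'}
        add_mem' := fun {a b} ha hb => mul_mem (show (a.toMul : G) ∈ N' from ha)
          (show (b.toMul : G) ∈ N' from hb)
        zero_mem' := one_mem N'
        smul_mem' := fun r a ha => hstab N' hN' r r.2 a ha }
    refine ⟨M', ?_⟩
    constructor
    · rw [Submodule.disjoint_def]
      intro a ha1 ha2
      have h3 : (a.toMul : G) ∈ N0 ⊓ N' := ⟨⟨a.toMul.2, ha1⟩, ha2⟩
      rw [hinf, Subgroup.mem_bot] at h3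
      exact Additive.toMul.injective (Subtype.ext h3)
    · rw [codisjoint_iff, eq_top_iff]
      intro a _
      have h3 : (a.toMul : G) ∈ N0 ⊔ N' := by rw [hsup]; exact a.toMul.2
      obtain ⟨x, ⟨hx, hx'⟩, y, hy, hxy⟩ := Subgroup.mem_sup_of_normal_left.1 h3
      refine Submodule.mem_sup.2 ⟨_, hx', Additive.ofMul ⟨y, hN'A hy⟩, hy, ?_⟩
      exact Additive.toMul.injective (Subtype.ext hxy)
  have hssR : IsSemisimpleRing R := by
    rw [IsArtinianRing.isSemisimpleRing_iff_jacobson, eq_bot_iff]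
    intro r hr
    have h3 := IsSemisimpleModule.jacobson_le_annihilator R (Additive A) hr
    rw [Module.mem_annihilator] at h3
    have h4 : r = 0 := by
      apply Subtype.ext
      exact DFunLike.ext _ _ h3
    rw [h4]
    exact zero_mem _
  intro k hk W _ Y h
  refine main le_rfl X (R := R) (M := Additive A) small_semisimple (fun a => (a.toMul : G))
    ?_ ?_ ?_ ?_ ?_ (by omega) Y h
  · intro a b h
    exact Additive.toMul.injective (Subtype.ext h)
  · intro a b; rfl
  · intro g
    exact ⟨⟨cj g, Subring.subset_closure ⟨g, rfl⟩⟩, fun a => rfl⟩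
  · intro r
    obtain ⟨l, hl⟩ := hcomb r r.2
    exact ⟨l, hl⟩
  · intro g
    obtain ⟨a, ha, x, hx, rfl⟩ := gen_of_sup A hn _ hgen g
    exact ⟨Additive.ofMul ⟨a, ha⟩, x, hx, rfl⟩

end Pool.Agent.Helper950.WL
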