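import Mathlib
import Pool.Agent.Helper950.WL.Semi

/-!
# The simple factors of the socle of a group without abelian normal subgroups
-/

set_option autoImplicit false

namespace Pool.Agent.Helper950.WL

section

variable {G : Type} [Group G]

/-- `T` is a minimal nontrivial subgroup among those that are normalized by `A`. -/
structure MinA (A T : Subgroup G) : Prop where
  nor : ∀ g ∈ A, ∀ x ∈ T, g * x * g⁻¹ ∈ T
  ne : T ≠ ⊥
  min : ∀ T' : Subgroup G, T' ≤ T → (∀ g ∈ A, ∀ x ∈ T', g * x * g⁻¹ ∈ T') → T' = ⊥ ∨ T' = T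

theorem exists_minA [Finite G] (A M : Subgroup G) (hM : M ≠ ⊥)
    (hn : ∀ g ∈ A, ∀ x ∈ M, g * x * g⁻¹ ∈ M) : ∃ T ≤ M, MinA A T := by
  have hwf : WellFounded ((· < ·) : Subgroup G → Subgroup G → Prop) := wellFounded_lt
  obtain ⟨T, ⟨h1, h2, h3⟩, h4⟩ := hwf.has_min
    {T | T ≠ ⊥ ∧ T ≤ M ∧ ∀ g ∈ A, ∀ x ∈ T, g * x * g⁻¹ ∈ T} ⟨M, hM, le_rfl, hn⟩
  refine ⟨T, h2, h3, h1, ?_⟩
  intro T' hT' hn'
  by_contra hcon
  rw [not_or] at hcon
  exact h4 T' ⟨hcon.1, hT'.trans h2, hn'⟩ (lt_of_le_of_ne hT' hcon.2)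

theorem MinA.inf_eq {A T T' : Subgroup G} (h : MinA A T) (h' : MinA A T') (hne : T ≠ T') :
    T ⊓ T' = ⊥ := by
  have hn : ∀ g ∈ A, ∀ x ∈ T ⊓ T', g * x * g⁻¹ ∈ T ⊓ T' := fun g hg x hx =>
    ⟨h.nor g hg x hx.1, h'.nor g hg x hx.2⟩
  rcases h.min _ inf_le_left hn with h1 | h1
  · exact h1
  · exfalso
    have hle : T ≤ T' := by rw [← h1]; exact inf_le_right
    rcases h'.min T hle h.nor with h2 | h2
    · exact h.ne h2
    · exact hne h2

theorem commute_of_inf {A T T' : Subgroup G} (hT : T ≤ A) (hT' : T' ≤ A)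
    (h : ∀ g ∈ A, ∀ x ∈ T, g * x * g⁻¹ ∈ T) (h' : ∀ g ∈ A, ∀ x ∈ T', g * x * g⁻¹ ∈ T')
    (hinf : T ⊓ T' = ⊥) {x y : G} (hx : x ∈ T) (hy : y ∈ T') : x * y = y * x := by
  have h1 : x * y * x⁻¹ * y⁻¹ ∈ T ⊓ T' := by
    refine Subgroup.mem_inf.2 ⟨?_, ?_⟩
    · have h2 := h y (hT' hy) _ (inv_mem hx)
      have h3 := mul_mem hx h2
      have h4 : x * (y * x⁻¹ * y⁻¹) = x * y * x⁻¹ * y⁻¹ := by group
      rwa [h4] at h3
    · exact mul_mem (h' x (hT hx) _ hy) (inv_mem hy)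
  rw [hinf, Subgroup.mem_bot] at h1
  calc x * y = (x * y * x⁻¹ * y⁻¹) * y * x := by group
    _ = y * x := by rw [h1, one_mul]

/-- The simple factors. -/
def IsT (T : Subgroup G) : Prop := ∃ N : Subgroup G, MinA ⊤ N ∧ T ≤ N ∧ MinA N T

theorem IsT.comm {T T' : Subgroup G} (h : IsT T) (h' : IsT T') (hne : T ≠ T') {x y : G}
    (hx : x ∈ T) (hy : y ∈ T') : x * y = y * x := by
  obtain ⟨N, hN, hTN, hT⟩ := h
  obtain ⟨N', hN', hTN', hT'⟩ := h'
  by_cases h1 : N = N'
  · subst h1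
    exact commute_of_inf hTN hTN' hT.nor hT'.nor (hT.inf_eq hT' hne) hx hy
  · exact commute_of_inf le_top le_top hN.nor hN'.nor (hN.inf_eq hN' h1) (hTN hx) (hTN' hy)

/-- The conjugate subgroup. -/
def cg (g : G) (T : Subgroup G) : Subgroup G := T.comap (MulAut.conj g⁻¹).toMonoidHom

theorem mem_cg {g : G} {T : Subgroup G} {x : G} : x ∈ cg g T ↔ g⁻¹ * x * g ∈ T := by
  have h : (MulAut.conj g⁻¹).toMonoidHom x = g⁻¹ * x * g := by
    show g⁻¹ * x * g⁻¹⁻¹ = _
    rw [inv_inv]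
  rw [cg, Subgroup.mem_comap, h]

theorem conj_mem_cg {g : G} {T : Subgroup G} {x : G} : g * x * g⁻¹ ∈ cg g T ↔ x ∈ T := by
  rw [mem_cg]
  have : g⁻¹ * (g * x * g⁻¹) * g = x := by group
  rw [this]

theorem cg_inv_cg (g : G) (T : Subgroup G) : cg g (cg g⁻¹ T) = T := by
  ext x
  rw [mem_cg, mem_cg]
  have : g⁻¹⁻¹ * (g⁻¹ * x * g) * g⁻¹ = x := by group
  rw [this]

theorem MinA.cg {N T : Subgroup G} (hN : ∀ g, ∀ x ∈ N, g * x * g⁻¹ ∈ N) (h : MinA N T) (g : G) :
    MinA N (cg g T) := by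
  have hnor : ∀ (g : G) (T : Subgroup G), (∀ h ∈ N, ∀ x ∈ T, h * x * h⁻¹ ∈ T) →
      ∀ h ∈ N, ∀ x ∈ WL.cg g T, h * x * h⁻¹ ∈ WL.cg g T := by
    intro g T hT h hh x hx
    rw [mem_cg] at hx ⊢
    have h1 : g⁻¹ * h * g ∈ N := by
      have := hN g⁻¹ h hh
      rwa [inv_inv] at this
    have h2 := hT _ h1 _ hx
    have h3 : g⁻¹ * h * g * (g⁻¹ * x * g) * (g⁻¹ * h * g)⁻¹ = g⁻¹ * (h * x * h⁻¹) * g := by group
    rwa [h3] at h2
  refine ⟨hnor g T h.nor, ?_, ?_⟩
  · intro hcon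
    apply h.ne
    rw [Subgroup.eq_bot_iff_forall]
    intro x hx
    have h1 := (conj_mem_cg (g := g)).2 hx
    rw [hcon, Subgroup.mem_bot] at h1
    calc x = g⁻¹ * (g * x * g⁻¹) * g := by group
      _ = 1 := by rw [h1]; group
  · intro T' hT' hn'
    have h1 : WL.cg g⁻¹ T' ≤ T := by
      intro x hx
      rw [mem_cg] at hx
      have h2 := hT' hx
      rw [mem_cg] at h2
      have h3 : g⁻¹ * (g⁻¹⁻¹ * x * g⁻¹) * g = x := by group
      rwa [h3] at h2
    rcases h.min _ h1 (hnor g⁻¹ T' hn') with h2 | h2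
    · left
      rw [← cg_inv_cg g T', h2, Subgroup.eq_bot_iff_forall]
      intro x hx
      rw [mem_cg, Subgroup.mem_bot] at hx
      calc x = g * (g⁻¹ * x * g) * g⁻¹ := by group
        _ = 1 := by rw [hx]; group
    · right
      rw [← cg_inv_cg g T', h2]

theorem IsT.cg {T : Subgroup G} (h : IsT T) (g : G) : IsT (cg g T) := by
  obtain ⟨N, hN, hTN, hT⟩ := h
  refine ⟨N, hN, ?_, hT.cg (fun g => hN.nor g trivial) g⟩
  intro x hx
  rw [mem_cg] at hx
  have h1 := hN.nor g trivial _ (hTN hx)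
  have h2 : g * (g⁻¹ * x * g) * g⁻¹ = x := by group
  rwa [h2] at h1

theorem IsT.ne {T : Subgroup G} (h : IsT T) : T ≠ ⊥ := by
  obtain ⟨N, hN, hTN, hT⟩ := h
  exact hT.ne

/-- A subgroup of a factor that is normalized by the factor is trivial or the factor. -/
theorem IsT.simple' {T : Subgroup G} (h : IsT T) {K : Subgroup G} (hK : K ≤ T)
    (hn : ∀ g ∈ T, ∀ x ∈ K, g * x * g⁻¹ ∈ K) : K = ⊥ ∨ K = T := by
  have h0 := h
  obtain ⟨N, hN, hTN, hT⟩ := h
  -- the normalizer of `K` contains all conjugates of `T`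
  let M : Subgroup G := ⨆ g : G, WL.cg g T
  have hMN : M ≤ N := by
    refine iSup_le fun g => ?_
    intro x hx
    rw [mem_cg] at hx
    have h1 := hN.nor g trivial _ (hTN hx)
    have h2 : g * (g⁻¹ * x * g) * g⁻¹ = x := by group
    rwa [h2] at h1
  have hTM : T ≤ M := by
    have h1 : WL.cg (1 : G) T = T := by
      ext x
      rw [mem_cg]
      simp
    calc T = WL.cg (1 : G) T := h1.symm
      _ ≤ M := le_iSup (fun g => WL.cg g T) 1
  have hMn : ∀ g ∈ (⊤ : Subgroup G), ∀ x ∈ M, g * x * g⁻¹ ∈ M := by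
    intro g _ x hx
    have hle : M ≤ WL.cg g⁻¹ M := by
      refine iSup_le fun h => ?_
      intro y hy
      rw [mem_cg, inv_inv]
      have h1 : g * y * g⁻¹ ∈ WL.cg (g * h) T := by
        rw [mem_cg] at hy ⊢
        have h2 : (g * h)⁻¹ * (g * y * g⁻¹) * (g * h) = h⁻¹ * y * h := by group
        rwa [h2]
      exact le_iSup (fun g => WL.cg g T) (g * h) h1
    have h1 := hle hx
    rwa [mem_cg, inv_inv] at h1
  have hMeq : M = N := by
    rcases hN.min M hMN hMn with h1 | h1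
    · exfalso
      apply hT.ne
      rw [eq_bot_iff, ← h1]
      exact hTM
    · exact h1
  have hnorm : M ≤ Subgroup.normalizer (K : Set G) := by
    refine iSup_le fun g => ?_
    by_cases hg : WL.cg g T = T
    · rw [hg]
      intro x hx
      rw [Subgroup.mem_normalizer_iff]
      intro y
      constructor
      · exact hn x hx y
      · intro hy
        have h1 := hn x⁻¹ (inv_mem hx) _ hy
        have h2 : x⁻¹ * (x * y * x⁻¹) * x⁻¹⁻¹ = y := by group
        rwa [h2] at h1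
    · intro x hx
      have hcx : ∀ y ∈ T, x * y = y * x := fun y hy => (h0.cg g).comm h0 hg hx hy
      rw [Subgroup.mem_normalizer_iff]
      intro y
      constructor
      · intro hy
        rw [hcx y (hK hy), mul_inv_cancel_right]
        exact hy
      · intro hy
        have h1 := hcx _ (hK hy)
        have h2 : x * y * x⁻¹ = y := by
          calc x * y * x⁻¹ = x⁻¹ * (x * (x * y * x⁻¹)) := by group
            _ = x⁻¹ * (x * y * x⁻¹ * x) := by rw [h1]
            _ = y := by group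
        rw [h2] at hy
        exact hy
  refine hT.min K hK ?_
  intro g hg x hx
  rw [← hMeq] at hg
  exact (Subgroup.mem_normalizer_iff.1 (hnorm hg) x).1 hx

theorem IsT.isSimple {T : Subgroup G} (h : IsT T) : IsSimpleGroup T := by
  have hnt : Nontrivial T := by
    rw [Subgroup.nontrivial_iff_ne_bot]
    exact h.ne
  refine { hnt with eq_bot_or_eq_top_of_normal := ?_ }
  intro K hK
  have h1 : K.map T.subtype ≤ T := by
    rintro _ ⟨x, _, rfl⟩
    exact x.2
  rcases h.simple' h1 (by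
    rintro g hg _ ⟨x, hx, rfl⟩
    exact ⟨⟨g, hg⟩ * x * ⟨g, hg⟩⁻¹, hK.conj_mem x hx _, rfl⟩) with h2 | h2
  · left
    exact (Subgroup.map_eq_bot_iff_of_injective K T.subtype_injective).1 h2
  · right
    rw [eq_top_iff]
    intro x _
    have h3 : (x : G) ∈ K.map T.subtype := by rw [h2]; exact x.2
    obtain ⟨y, hy, hxy⟩ := h3
    have h4 : y = x := Subtype.ext hxy
    rwa [h4] at hy

/-- The common centralizer of the factors is trivial. -/
theorem IsT.cent [Finite G]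
    (hss : ∀ N : Subgroup G, N.Normal → (∀ x ∈ N, ∀ y ∈ N, x * y = y * x) → N = ⊥) {x : G}
    (hx : ∀ T : Subgroup G, IsT T → ∀ y ∈ T, x * y = y * x) : x = 1 := by
  let C : Subgroup G :=
    { carrier := {x | ∀ T : Subgroup G, IsT T → ∀ y ∈ T, x * y = y * x}
      mul_mem' := by
        intro a b ha hb T hT y hy
        rw [mul_assoc, hb T hT y hy, ← mul_assoc, ha T hT y hy, mul_assoc]
      one_mem' := by
        intro T hT y hy
        rw [one_mul, mul_one]
      inv_mem' := by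
        intro a ha T hT y hy
        have h1 := ha T hT y hy
        calc a⁻¹ * y = a⁻¹ * (y * a) * a⁻¹ := by group
          _ = a⁻¹ * (a * y) * a⁻¹ := by rw [h1]
          _ = y * a⁻¹ := by group }
  have hCn : ∀ g ∈ (⊤ : Subgroup G), ∀ x ∈ C, g * x * g⁻¹ ∈ C := by
    intro g _ x hx T hT y hy
    have h1 : g⁻¹ * y * g ∈ WL.cg g⁻¹ T := by
      rw [mem_cg]
      have : g⁻¹⁻¹ * (g⁻¹ * y * g) * g⁻¹ = y := by group
      rwa [this]
    have h2 := hx _ (hT.cg g⁻¹) _ h1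
    calc g * x * g⁻¹ * y = g * (x * (g⁻¹ * y * g)) * g⁻¹ := by group
      _ = g * ((g⁻¹ * y * g) * x) * g⁻¹ := by rw [h2]
      _ = y * (g * x * g⁻¹) := by group
  by_contra hne
  have hC : C ≠ ⊥ := by
    intro h
    have h1 : x ∈ C := hx
    rw [h, Subgroup.mem_bot] at h1
    exact hne h1
  obtain ⟨N, hNC, hN⟩ := exists_minA ⊤ C hC hCn
  obtain ⟨T, hTN, hT⟩ := exists_minA N N hN.ne (fun g _ => hN.nor g trivial)
  have hTT : IsT T := ⟨N, hN, hTN, hT⟩
  -- the centre of `N`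
  let Z : Subgroup G :=
    { carrier := {z | z ∈ N ∧ ∀ y ∈ N, y * z = z * y}
      mul_mem' := by
        intro a b ha hb
        refine ⟨mul_mem ha.1 hb.1, fun y hy => ?_⟩
        rw [← mul_assoc, ha.2 y hy, mul_assoc, hb.2 y hy, mul_assoc]
      one_mem' := ⟨one_mem _, fun y _ => by rw [one_mul, mul_one]⟩
      inv_mem' := by
        intro a ha
        refine ⟨inv_mem ha.1, fun y hy => ?_⟩
        have h1 := ha.2 y hy
        calc y * a⁻¹ = a⁻¹ * (a * y) * a⁻¹ := by group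
          _ = a⁻¹ * (y * a) * a⁻¹ := by rw [h1]
          _ = a⁻¹ * y := by group }
  have hZ : Z = ⊥ := by
    apply hss Z
    · constructor
      intro z hz g
      refine ⟨hN.nor g trivial z hz.1, fun y hy => ?_⟩
      have h1 : g⁻¹ * y * g ∈ N := by
        have := hN.nor g⁻¹ trivial y hy
        rwa [inv_inv] at this
      have h2 := hz.2 _ h1
      calc y * (g * z * g⁻¹) = g * ((g⁻¹ * y * g) * z) * g⁻¹ := by group
        _ = g * (z * (g⁻¹ * y * g)) * g⁻¹ := by rw [h2]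
        _ = g * z * g⁻¹ * y := by group
    · intro a ha b hb
      exact hb.2 a ha.1
  apply hT.ne
  rw [eq_bot_iff, ← hZ]
  intro z hz
  exact ⟨hTN hz, fun y hy => hNC hy T hTT z hz⟩

end

end Pool.Agent.Helper950.WL
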