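import Mathlib
import Pool.Agent.Helper950.WL.Struct

/-!
# Groups without abelian normal subgroups
-/

set_option autoImplicit false

namespace Pool.Agent.Helper950.WL

section

variable {G : Type} [Group G]

theorem Fac.card_le [Finite G] {m s r : ℕ} {T : Fin m → Subgroup G} {c : Fin m → Fin s → G}
    {ρ : Fin r → Fin s} (hF : Fac T c ρ) : 2 ^ m ≤ Nat.card G := by
  classical
  have hex : ∀ i, ∃ a ∈ T i, a ≠ 1 := by
    intro i
    obtain ⟨y, hy⟩ := (Subgroup.ne_bot_iff_exists_ne_one).1 (hF.ne i)
    exact ⟨y, y.2, fun h => hy (Subtype.ext h)⟩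
  choose a haT ha1 using hex
  choose w hw _ using fun S => hF.exW S haT
  have hsub : ∀ S S', w S = w S' → S ⊆ S' := by
    intro S S' h i hi
    by_contra hi'
    apply ha1 i
    apply hF.centerless (haT i)
    intro z hz
    have h1 := (hw S).act i hi z hz
    have h2 := (hw S').triv i hi' z hz
    rw [h] at h1
    have h3 : w S' * z * (w S')⁻¹ = z := by rw [h2]; group
    rw [h3] at h1
    calc a i * z = (a i * z * (a i)⁻¹) * a i := by group
      _ = z * a i := by rw [← h1]
  have hinj : Function.Injective w := fun S S' h =>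
    Finset.Subset.antisymm (hsub S S' h) (hsub S' S h.symm)
  have h1 := Nat.card_le_card_of_injective w hinj
  simpa using h1

/-- `S` is a simple group and is normal in a normal subgroup `N` of `G`. (For groups without
abelian normal subgroups these are the simple direct factors of the socle.) -/
def IsSimpleFactor (S : Subgroup G) : Prop :=
  IsSimpleGroup S ∧ ∃ N : Subgroup G, N.Normal ∧ S ≤ N ∧ ∀ g ∈ N, ∀ x ∈ S, g * x * g⁻¹ ∈ S

theorem IsT.isSimpleFactor {T : Subgroup G} (h : IsT T) : IsSimpleFactor T := by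
  refine ⟨h.isSimple, ?_⟩
  obtain ⟨N, hN, hTN, hT⟩ := h
  exact ⟨N, ⟨fun x hx g => hN.nor g trivial x hx⟩, hTN, hT.nor⟩

theorem exists_fac [Finite G]
    (hss : ∀ N : Subgroup G, N.Normal → (∀ x ∈ N, ∀ y ∈ N, x * y = y * x) → N = ⊥) {s : ℕ}
    (hs : ∀ S : Subgroup G, IsSimpleFactor S →
      ∃ c : Fin s → G, Subgroup.closure (Set.range c) = S) :
    ∃ (m r : ℕ) (T : Fin m → Subgroup G) (c : Fin m → Fin s → G) (ρ : Fin r → Fin s),
      m ≤ Nat.card {S : Subgroup G // IsSimpleFactor S} ∧ r ≤ 1 ∧ Fac T c ρ := by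
  classical
  let ι := {T : Subgroup G // IsT T}
  have hfin : Finite ι := inferInstance
  have hm : Nat.card ι ≤ Nat.card {S : Subgroup G // IsSimpleFactor S} := by
    refine Nat.card_le_card_of_injective
      (fun T : ι => (⟨T.1, T.2.isSimpleFactor⟩ : {S : Subgroup G // IsSimpleFactor S})) ?_
    intro T T' h
    rw [Subtype.mk.injEq] at h
    exact Subtype.ext h
  let e : Fin (Nat.card ι) ≃ ι := (Finite.equivFin ι).symm
  choose c0 hc0 using fun i => hs (e i).1 (e i).2.isSimpleFactor
  have hne : ∀ i, ∃ l, c0 i l ≠ 1 := by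
    intro i
    by_contra hcon
    push Not at hcon
    apply (e i).2.ne
    rw [← hc0 i, Subgroup.closure_eq_bot_iff]
    rintro _ ⟨l, rfl⟩
    exact hcon l
  choose l hl using hne
  -- the facts that do not depend on the choice of generators
  have hcomm : ∀ i j, i ≠ j → ∀ x ∈ (e i).1, ∀ y ∈ (e j).1, x * y = y * x := by
    intro i j hij x hx y hy
    exact (e i).2.comm (e j).2 (fun h => hij (e.injective (Subtype.ext h))) hx hy
  have hcent : ∀ x, (∀ i, ∀ y ∈ (e i).1, x * y = y * x) → x = 1 := by
    intro x hx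
    apply IsT.cent hss
    intro T hT y hy
    have h1 := hx (e.symm ⟨T, hT⟩) y
    rw [Equiv.apply_symm_apply] at h1
    exact h1 hy
  have hperm : ∀ (g : G) (i : Fin (Nat.card ι)), ∃ j, ∀ x, x ∈ (e i).1 ↔
      g * x * g⁻¹ ∈ (e j).1 := by
    intro g i
    refine ⟨e.symm ⟨cg g (e i).1, (e i).2.cg g⟩, fun x => ?_⟩
    rw [Equiv.apply_symm_apply]
    exact conj_mem_cg.symm
  rcases Nat.eq_zero_or_pos s with hs0 | hs0
  · subst hs0
    refine ⟨Nat.card ι, 0, fun i => (e i).1, c0, Fin.elim0, hm, by omega, hcomm,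
      fun i => (hc0 i).symm, fun i => (e i).2.ne, hcent, hperm, ?_⟩
    intro i
    exact (l i).elim0
  · have hz : NeZero s := ⟨by omega⟩
    refine ⟨Nat.card ι, 1, fun i => (e i).1, fun i k => c0 i (Equiv.swap 0 (l i) k),
      fun _ => 0, hm, le_rfl, hcomm, ?_, fun i => (e i).2.ne, hcent, hperm, ?_⟩
    · intro i
      rw [← hc0 i]
      congr 1
      exact ((Equiv.swap 0 (l i)).surjective.range_comp (c0 i)).symm
    · intro i x hx hx'
      have hcT : c0 i (l i) ∈ (e i).1 := by
        rw [← hc0 i]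
        exact Subgroup.subset_closure ⟨_, rfl⟩
      let K : Subgroup G :=
        { carrier := {z | z ∈ (e i).1 ∧ ∀ y ∈ (e i).1,
            z * (y * c0 i (l i) * y⁻¹) = (y * c0 i (l i) * y⁻¹) * z}
          mul_mem' := by
            intro a b ha hb
            refine ⟨mul_mem ha.1 hb.1, fun y hy => ?_⟩
            rw [mul_assoc, hb.2 y hy, ← mul_assoc, ha.2 y hy, mul_assoc]
          one_mem' := ⟨one_mem _, fun y _ => by rw [one_mul, mul_one]⟩
          inv_mem' := by
            intro a ha
            refine ⟨inv_mem ha.1, fun y hy => ?_⟩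
            have h1 := ha.2 y hy
            calc a⁻¹ * (y * c0 i (l i) * y⁻¹)
                = a⁻¹ * ((y * c0 i (l i) * y⁻¹) * a) * a⁻¹ := by group
              _ = a⁻¹ * (a * (y * c0 i (l i) * y⁻¹)) * a⁻¹ := by rw [h1]
              _ = _ := by group }
      have hKT : K ≤ (e i).1 := fun z hz => hz.1
      have hxK : x ∈ K := by
        refine ⟨hx, fun y hy => ?_⟩
        have h1 := hx' 0 y hy
        simpa using h1
      rcases (e i).2.simple' hKT (by
        intro g hg z hz
        refine ⟨mul_mem (mul_mem hg hz.1) (inv_mem hg), fun y hy => ?_⟩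
        have h1 := hz.2 (g⁻¹ * y) (mul_mem (inv_mem hg) hy)
        calc g * z * g⁻¹ * (y * c0 i (l i) * y⁻¹)
            = g * (z * (g⁻¹ * y * c0 i (l i) * (g⁻¹ * y)⁻¹)) * g⁻¹ := by group
          _ = g * ((g⁻¹ * y * c0 i (l i) * (g⁻¹ * y)⁻¹) * z) * g⁻¹ := by rw [h1]
          _ = _ := by group) with h1 | h1
      · rw [h1, Subgroup.mem_bot] at hxK
        exact hxK
      · exfalso
        apply hl i
        apply hcent
        intro i' y hy
        by_cases hii : i = i'
        · subst hii
          have h2 : y ∈ K := by rw [h1]; exact hy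
          have h3 := h2.2 1 (one_mem _)
          rw [one_mul, inv_one, mul_one] at h3
          exact h3.symm
        · exact hcomm i i' hii _ hcT y hy

end

end Pool.Agent.Helper950.WL
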