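import Mathlib
import Pool.Agent.Helper950.WL.Cor

/-!
# Elementary abelian normal subgroups on which the group acts as a cyclic group
-/

set_option autoImplicit false

namespace Pool.Agent.Helper950.WL

open Pool.Agent.W185.LSQ Pool.Agent.W185.SRG Polynomial Module

theorem wl_cyclic_aux {G : Type} [Group G] [Fintype G] {M : Type} [AddCommGroup M] (p : ℕ)
    [Fact p.Prime] [Module (ZMod p) M] (ι0 : M → G) (hinj : Function.Injective ι0)
    (hadd : ∀ a b, ι0 (a + b) = ι0 a * ι0 b) (t : G) (T : M →ₗ[ZMod p] M)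
    (hT : ∀ a, ι0 (T a) = t * ι0 a * t⁻¹)
    (ht : ∀ g : G, ∃ j : ℕ, ∀ a, g * ι0 a * g⁻¹ = t ^ j * ι0 a * (t ^ j)⁻¹)
    {d : ℕ} (x0 : Fin d → G)
    (hgen : ∀ g, ∃ a, ∃ x ∈ Subgroup.closure (Set.range x0), g = ι0 a * x) :
    WLDimLE (d + 16) (latinGraph fun a b : G => a * b) := by
  classical
  have hTpow : ∀ (j : ℕ) (a : M), ι0 ((T ^ j) a) = t ^ j * ι0 a * (t ^ j)⁻¹ := by
    intro j
    induction j with
    | zero => intro a; simp
    | succ j ih =>
      intro a
      rw [pow_succ', Module.End.mul_apply, hT, ih, pow_succ']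
      group
  let ι : AEval' T → G := fun m => ι0 ((AEval'.of T).symm m)
  have hι : ∀ a : M, ι (AEval'.of T a) = ι0 a := fun a => rfl
  have hιX : ∀ (j : ℕ) (m : AEval' T), ι ((X ^ j : (ZMod p)[X]) • m) =
      t ^ j * ι m * (t ^ j)⁻¹ := by
    intro j m
    obtain ⟨a, rfl⟩ := (AEval'.of T).surjective m
    rw [AEval'.X_pow_smul_of, hι, hι]
    exact hTpow j a
  have hιadd : ∀ a b, ι (a + b) = ι a * ι b := by
    intro a b
    show ι0 ((AEval'.of T).symm (a + b)) = _
    rw [map_add, hadd]
  refine wl_pid (R := (ZMod p)[X]) (M := AEval' T) x0 ι ?_ hιadd ?_ ?_ ?_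
  · intro a b h
    exact (AEval'.of T).symm.injective (hinj h)
  · intro g
    obtain ⟨j, hj⟩ := ht g
    refine ⟨X ^ j, fun a => ?_⟩
    rw [hιX]
    exact hj _
  · intro r
    have key : ∃ l : List G, ∀ a, ι (r • a) = ev (MonoidHom.id G) l (ι a) := by
      induction r using Polynomial.induction_on' with
      | add f g hf hg =>
        obtain ⟨l, hl⟩ := hf
        obtain ⟨l', hl'⟩ := hg
        refine ⟨l ++ l', fun a => ?_⟩
        rw [add_smul, hιadd, hl, hl', ev_append]
      | monomial n c =>
        refine ⟨List.replicate c.val (t ^ n), fun a => ?_⟩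
        have h3 : ∀ k, ev (MonoidHom.id G) (List.replicate k (t ^ n)) (ι a) =
            (t ^ n * ι a * (t ^ n)⁻¹) ^ k := by
          intro k
          induction k with
          | zero => simp
          | succ k ih => rw [List.replicate_succ, ev_cons, ih, pow_succ']; rfl
        rw [h3, ← hιX, ← C_mul_X_pow_eq_monomial, mul_smul]
        generalize (X ^ n : (ZMod p)[X]) • a = b
        have h4 : (C c : (ZMod p)[X]) • b = c.val • b := by
          have h5 : (C c : (ZMod p)[X]) = ((c.val : ℕ) : (ZMod p)[X]) := by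
            calc (C c : (ZMod p)[X]) = C ((c.val : ℕ) : ZMod p) := by
                  rw [ZMod.natCast_zmod_val]
              _ = _ := map_natCast C c.val
          rw [h5, Nat.cast_smul_eq_nsmul]
        rw [h4]
        generalize c.val = k
        induction k with
        | zero =>
          have := hιadd 0 0
          rw [add_zero] at this
          rw [zero_smul, pow_zero]
          simpa using this
        | succ k ih => rw [succ_nsmul', hιadd, ih, pow_succ']
    exact key
  · intro g
    obtain ⟨a, x, hx, rfl⟩ := hgen g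
    exact ⟨AEval'.of T a, x, hx, rfl⟩

theorem wl_cyclic {G : Type} [Group G] [Fintype G] (A : Subgroup G) (hAn : A.Normal)
    (hA : ∀ a ∈ A, ∀ b ∈ A, a * b = b * a) (p : ℕ) (hp : p.Prime) (hexp : ∀ a ∈ A, a ^ p = 1)
    (t : G) (ht : ∀ g : G, ∃ j : ℕ, ∀ a ∈ A, g * a * g⁻¹ = t ^ j * a * (t ^ j)⁻¹)
    {d : ℕ} (x0 : Fin d → G) (hgen : A ⊔ Subgroup.closure (Set.range x0) = ⊤) :
    WLDimLE (d + 16) (latinGraph fun a b : G => a * b) := by
  classical
  let _ : CommGroup A :=
    { (inferInstance : Group A) with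
      mul_comm := fun a b => Subtype.ext (hA a a.2 b b.2) }
  have hn : ∀ g, ∀ a ∈ A, g * a * g⁻¹ ∈ A := fun g a ha => hAn.conj_mem a ha g
  have : Fact p.Prime := ⟨hp⟩
  let _ : Module (ZMod p) (Additive A) := AddCommGroup.zmodModule (n := p) (by
    intro x
    apply Additive.toMul.injective
    apply Subtype.ext
    exact hexp _ x.toMul.2)
  let cj : Additive A →+ Additive A :=
    { toFun := fun a => Additive.ofMul ⟨t * (a.toMul : G) * t⁻¹, hn t _ a.toMul.2⟩
      map_zero' := by
        apply Additive.toMul.injective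
        apply Subtype.ext
        show t * 1 * t⁻¹ = 1
        group
      map_add' := by
        intro a b
        apply Additive.toMul.injective
        apply Subtype.ext
        show t * ((a.toMul : G) * (b.toMul : G)) * t⁻¹ =
          (t * (a.toMul : G) * t⁻¹) * (t * (b.toMul : G) * t⁻¹)
        group }
  refine wl_cyclic_aux (M := Additive A) p (fun a => (a.toMul : G)) ?_ (fun a b => rfl) t
    (cj.toZModLinearMap p) (fun a => rfl) ?_ x0 ?_
  · intro a b h
    exact Additive.toMul.injective (Subtype.ext h)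
  · intro g
    obtain ⟨j, hj⟩ := ht g
    exact ⟨j, fun a => hj _ a.toMul.2⟩
  · intro g
    obtain ⟨a, ha, x, hx, rfl⟩ := gen_of_sup A hn _ hgen g
    exact ⟨Additive.ofMul ⟨a, ha⟩, x, hx, rfl⟩

end Pool.Agent.Helper950.WL
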