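import Mathlib
import Pool.Agent.Helper950.WL.Struct2
import Pool.Agent.Helper950.WL.SemiMain

/-!
# The bijective pebble game on two groups
-/

set_option autoImplicit false

namespace Pool.Agent.Helper950.WL

/-- Duplicator wins the bijective game with `k` pairs of pebbles on the groups `G` and `H`: there
is a set `R` of positions which contains the empty position and in which the pebbled elements
always correspond to each other and satisfy the same equations `x = y` and `x * y = z`, and
for every pair of pebbles there is a bijection after which all placements of this pair lead again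
to a position in `R`. -/
def DupWins (k : ℕ) (G H : Type) [Group G] [Group H] : Prop :=
  ∃ R : (Fin k → Option G) → (Fin k → Option H) → Prop,
    R (fun _ => none) (fun _ => none) ∧
    ∀ a b, R a b →
      (∀ i, a i = none ↔ b i = none) ∧
      (∀ i j, (∃ x, a i = some x ∧ a j = some x) ↔ (∃ x, b i = some x ∧ b j = some x)) ∧
      (∀ i j l, (∃ x y, a i = some x ∧ a j = some y ∧ a l = some (x * y)) ↔
                (∃ x y, b i = some x ∧ b j = some y ∧ b l = some (x * y))) ∧
      (∀ i, ∃ f : G ≃ H, ∀ g,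
        R (Function.update a i (some g)) (Function.update b i (some (f g))))

theorem DupWins.game {k : ℕ} {G H : Type} [Group G] [Group H] (h : DupWins k G H) :
    ∃ P : List (G × H) → Prop, GGame k P ∧ P [] := by
  classical
  obtain ⟨R, h0, hR⟩ := h
  refine ⟨fun L => ∃ a b, R a b ∧ ∀ p ∈ L, ∃ i, a i = some p.1 ∧ b i = some p.2,
    ⟨?_, ?_, ?_, ?_⟩, ?_⟩
  · rintro L ⟨a, b, hab, hL⟩ hlen
    choose ix hix using fun p : {p // p ∈ L} => hL p.1 p.2
    have hcard : (L.attach.map ix).toFinset.card < (Finset.univ : Finset (Fin k)).card := by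
      calc (L.attach.map ix).toFinset.card ≤ (L.attach.map ix).length := List.toFinset_card_le _
        _ = L.length := by simp
        _ < _ := by simpa using hlen
    obtain ⟨i, -, hi⟩ := Finset.exists_mem_notMem_of_card_lt_card hcard
    obtain ⟨f, hf⟩ := (hR a b hab).2.2.2 i
    refine ⟨f, fun x => ⟨_, _, hf x, ?_⟩⟩
    intro p hp
    rcases List.mem_cons.1 hp with rfl | hp
    · exact ⟨i, by simp, by simp⟩
    · have hne : ix ⟨p, hp⟩ ≠ i := by
        rintro rfl
        apply hi
        rw [List.mem_toFinset]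
        exact List.mem_map.2 ⟨⟨p, hp⟩, by simp, rfl⟩
      refine ⟨ix ⟨p, hp⟩, ?_, ?_⟩
      · rw [Function.update_of_ne hne]
        exact (hix ⟨p, hp⟩).1
      · rw [Function.update_of_ne hne]
        exact (hix ⟨p, hp⟩).2
  · rintro L L' ⟨a, b, hab, hL⟩ hsub
    exact ⟨a, b, hab, fun p hp => hL p (hsub p hp)⟩
  · rintro L ⟨a, b, hab, hL⟩ p hp q hq
    obtain ⟨i, hi1, hi2⟩ := hL p hp
    obtain ⟨j, hj1, hj2⟩ := hL q hq
    have h1 := (hR a b hab).2.1 i j
    rw [hi1, hj1, hi2, hj2] at h1
    simp only [Option.some.injEq] at h1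
    constructor
    · intro h
      obtain ⟨x, hx, hx'⟩ := h1.1 ⟨p.1, rfl, h.symm⟩
      rw [hx, hx']
    · intro h
      obtain ⟨x, hx, hx'⟩ := h1.2 ⟨p.2, rfl, h.symm⟩
      rw [hx, hx']
  · rintro L ⟨a, b, hab, hL⟩ _ p hp q hq r hr
    obtain ⟨i, hi1, hi2⟩ := hL p hp
    obtain ⟨j, hj1, hj2⟩ := hL q hq
    obtain ⟨l, hl1, hl2⟩ := hL r hr
    have h1 := (hR a b hab).2.2.1 i j l
    rw [hi1, hj1, hl1, hi2, hj2, hl2] at h1
    simp only [Option.some.injEq] at h1
    constructor
    · intro h
      obtain ⟨x, y, hx, hy, hz⟩ := h1.1 ⟨p.1, q.1, rfl, rfl, h.symm⟩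
      rw [hx, hy, hz]
    · intro h
      obtain ⟨x, y, hx, hy, hz⟩ := h1.2 ⟨p.2, q.2, rfl, rfl, h.symm⟩
      rw [hx, hy, hz]
  · exact ⟨_, _, h0, by simp⟩

/-- The main theorem on groups without abelian normal subgroups. -/
theorem semisimple_main {G : Type} [Group G] [Finite G]
    (hss : ∀ N : Subgroup G, N.Normal → (∀ x ∈ N, ∀ y ∈ N, x * y = y * x) → N = ⊥) {s : ℕ}
    (hs : ∀ S : Subgroup G, IsSimpleFactor S →
      ∃ c : Fin s → G, Subgroup.closure (Set.range c) = S) {t : ℕ}
    (hcard : Nat.card {S : Subgroup G // IsSimpleFactor S} ≤ 2 ^ t ∨ Nat.card G ≤ 2 ^ 2 ^ t)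
    {k : ℕ} (hk : s + t + 5 ≤ k) {H : Type} [Group H]
    (h : DupWins k G H) : Nonempty (G ≃* H) := by
  obtain ⟨m, r, T, c, ρ, hm0, hr, hF⟩ := exists_fac hss hs
  have hm : m ≤ 2 ^ t := by
    rcases hcard with hcard | hcard
    · exact hm0.trans hcard
    · have h1 : 2 ^ m ≤ 2 ^ 2 ^ t := hF.card_le.trans hcard
      exact (Nat.pow_le_pow_iff_right (by norm_num)).1 h1
  obtain ⟨P, hG, hP⟩ := h.game
  refine hF.iso hm hG hP ?_
  have : t * r ≤ t * 1 := Nat.mul_le_mul_left t hr
  omega

end Pool.Agent.Helper950.WL
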